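import Mathlib

/-!
# Averages over the subsets of a finite set

`av B φ` is the mean of `φ` over the subsets of `B`. A function which increases by one step when an element of `M`
is added has a law that is nearly invariant under translations when `M` is large.
-/

set_option autoImplicit false

namespace Pool.Agent.Q163.AD

open Finset

/-- the average of `φ` over the subsets of `B` -/
noncomputable def av (B : Finset ℕ) (φ : Finset ℕ → ℝ) : ℝ := (∑ T ∈ B.powerset, φ T) / 2 ^ B.card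

lemma av_congr {B : Finset ℕ} {φ ψ : Finset ℕ → ℝ} (h : ∀ T, T ⊆ B → φ T = ψ T) : av B φ = av B ψ := by
  unfold av
  rw [Finset.sum_congr rfl fun T hT => h T (Finset.mem_powerset.1 hT)]

lemma av_const (B : Finset ℕ) (c : ℝ) : av B (fun _ => c) = c := by
  unfold av
  rw [Finset.sum_const, Finset.card_powerset, nsmul_eq_mul]
  push_cast
  field_simp

lemma av_add (B : Finset ℕ) (φ ψ : Finset ℕ → ℝ) : av B (fun T => φ T + ψ T) = av B φ + av B ψ := by
  unfold av
  rw [Finset.sum_add_distrib, add_div]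

lemma av_sub (B : Finset ℕ) (φ ψ : Finset ℕ → ℝ) : av B (fun T => φ T - ψ T) = av B φ - av B ψ := by
  unfold av
  rw [Finset.sum_sub_distrib, sub_div]

lemma av_mul_left (B : Finset ℕ) (c : ℝ) (φ : Finset ℕ → ℝ) : av B (fun T => c * φ T) = c * av B φ := by
  unfold av
  rw [← Finset.mul_sum, mul_div_assoc]

lemma av_div (B : Finset ℕ) (c : ℝ) (φ : Finset ℕ → ℝ) : av B (fun T => φ T / c) = av B φ / c := by
  unfold av
  rw [← Finset.sum_div, div_right_comm]

lemma av_sum {ι : Type*} (B : Finset ℕ) (s : Finset ι) (φ : ι → Finset ℕ → ℝ) :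
    av B (fun T => ∑ i ∈ s, φ i T) = ∑ i ∈ s, av B (φ i) := by
  unfold av
  rw [Finset.sum_comm, Finset.sum_div]

lemma av_mono {B : Finset ℕ} {φ ψ : Finset ℕ → ℝ} (h : ∀ T, T ⊆ B → φ T ≤ ψ T) : av B φ ≤ av B ψ := by
  unfold av
  refine div_le_div_of_nonneg_right (Finset.sum_le_sum fun T hT => h T (Finset.mem_powerset.1 hT)) (by positivity)

lemma av_nonneg {B : Finset ℕ} {φ : Finset ℕ → ℝ} (h : ∀ T, T ⊆ B → 0 ≤ φ T) : 0 ≤ av B φ := by
  have := av_mono (B := B) (φ := fun _ => 0) (ψ := φ) h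
  rwa [av_const] at this

lemma abs_av_le (B : Finset ℕ) (φ : Finset ℕ → ℝ) : |av B φ| ≤ av B fun T => |φ T| := by
  unfold av
  rw [abs_div, abs_of_pos (by positivity : (0 : ℝ) < 2 ^ B.card)]
  exact div_le_div_of_nonneg_right (Finset.abs_sum_le_sum_abs _ _) (by positivity)

lemma abs_av_le_of {B : Finset ℕ} {φ : Finset ℕ → ℝ} {c : ℝ} (h : ∀ T, T ⊆ B → |φ T| ≤ c) : |av B φ| ≤ c := by
  refine (abs_av_le B φ).trans ?_
  have := av_mono (B := B) (φ := fun T => |φ T|) (ψ := fun _ => c) h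
  rwa [av_const] at this

/-- Cauchy-Schwarz -/
lemma sq_av_le (B : Finset ℕ) (φ : Finset ℕ → ℝ) : av B φ ^ 2 ≤ av B fun T => φ T ^ 2 := by
  have h : 0 ≤ av B fun T => (φ T - av B φ) ^ 2 := av_nonneg fun T _ => sq_nonneg _
  have h2 : (av B fun T => (φ T - av B φ) ^ 2) = (av B fun T => φ T ^ 2) - av B φ ^ 2 := by
    have e : (fun T => (φ T - av B φ) ^ 2) = fun T => (φ T ^ 2 - (2 * av B φ) * φ T) + av B φ ^ 2 := by
      funext T
      ring
    rw [e, av_add, av_sub, av_mul_left, av_const]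
    ring
  linarith

lemma av_abs_le_sqrt (B : Finset ℕ) (φ : Finset ℕ → ℝ) {c : ℝ} (h : (av B fun T => φ T ^ 2) ≤ c) :
    (av B fun T => |φ T|) ≤ Real.sqrt c := by
  refine Real.le_sqrt_of_sq_le ((sq_av_le B _).trans ?_)
  simpa only [sq_abs] using h

/-- splitting off one element -/
lemma av_insert {y : ℕ} {B : Finset ℕ} (hy : y ∉ B) (φ : Finset ℕ → ℝ) :
    av (insert y B) φ = av B fun T => (φ T + φ (insert y T)) / 2 := by
  unfold av
  rw [Finset.sum_powerset_insert hy, Finset.card_insert_of_notMem hy, ← Finset.sum_add_distrib,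
    ← Finset.sum_div, pow_succ]
  field_simp

lemma av_erase {y : ℕ} {B : Finset ℕ} (hy : y ∈ B) (φ : Finset ℕ → ℝ) :
    av B φ = av (B.erase y) fun T => (φ T + φ (insert y T)) / 2 := by
  conv_lhs => rw [← Finset.insert_erase hy]
  exact av_insert (Finset.notMem_erase y B) φ

/-- the sign of `y` in `T` -/
noncomputable def ep (y : ℕ) (T : Finset ℕ) : ℝ := if y ∈ T then 1 else -1

lemma ep_insert (y : ℕ) (T : Finset ℕ) : ep y (insert y T) = 1 := by
  unfold ep
  rw [if_pos (Finset.mem_insert_self _ _)]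

lemma ep_not {y : ℕ} {T : Finset ℕ} (h : y ∉ T) : ep y T = -1 := by
  unfold ep
  rw [if_neg h]

lemma ep_insert_ne {y z : ℕ} (h : y ≠ z) (T : Finset ℕ) : ep z (insert y T) = ep z T := by
  unfold ep
  by_cases hz : z ∈ T
  · rw [if_pos hz, if_pos (Finset.mem_insert_of_mem hz)]
  · rw [if_neg hz, if_neg]
    rw [Finset.mem_insert]
    rintro (h1 | h1)
    · exact h h1.symm
    · exact hz h1

lemma ep_sq (y : ℕ) (T : Finset ℕ) : ep y T * ep y T = 1 := by
  unfold ep
  split_ifs <;> norm_num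

lemma av_ep_ep {y z : ℕ} {B : Finset ℕ} (hy : y ∈ B) (hyz : y ≠ z) :
    (av B fun T => ep y T * ep z T) = 0 := by
  rw [av_erase hy, av_congr (ψ := fun _ => 0), av_const]
  intro T hT
  have h1 : y ∉ T := fun h => Finset.notMem_erase y B (hT h)
  rw [ep_insert, ep_not h1, ep_insert_ne hyz]
  ring

/-- the second moment of a sum of independent signs -/
lemma av_sq_sum (B M : Finset ℕ) (hM : M ⊆ B) (s : ℕ → ℝ) (hs : ∀ y, s y ^ 2 = 1) :
    (av B fun T => (∑ y ∈ M, s y * ep y T) ^ 2) = M.card := by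
  have h1 : (fun T => (∑ y ∈ M, s y * ep y T) ^ 2) =
      fun T => ∑ y ∈ M, ∑ z ∈ M, (s y * s z) * (ep y T * ep z T) := by
    funext T
    rw [sq, Finset.sum_mul_sum]
    refine Finset.sum_congr rfl fun y _ => Finset.sum_congr rfl fun z _ => by ring
  rw [h1, av_sum]
  have h2 : ∀ y ∈ M, (av B fun T => ∑ z ∈ M, (s y * s z) * (ep y T * ep z T)) = 1 := by
    intro y hy
    rw [av_sum, Finset.sum_eq_single y]
    · rw [av_mul_left]
      simp only [ep_sq]
      rw [av_const, ← sq, hs]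
      norm_num
    · intro z _ hzy
      rw [av_mul_left, av_ep_ep (hM hy) hzy.symm, mul_zero]
    · intro h
      exact absurd hy h
  rw [Finset.sum_congr rfl h2, Finset.sum_const, nsmul_eq_mul, mul_one]

/-- one step of the translation -/
lemma step (B M : Finset ℕ) (hM : M ⊆ B) (F : Finset ℕ → ℤ) (s : ℕ → ℤ) (hs : ∀ y, s y = 1 ∨ s y = -1)
    (hF : ∀ y ∈ M, ∀ T, T ⊆ B → y ∉ T → F (insert y T) = F T + s y)
    (γ : Finset ℕ → ℤ → ℝ) (hγ : ∀ y ∈ M, ∀ T, T ⊆ B → y ∉ T → γ (insert y T) = γ T)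
    (hb : ∀ T x, |γ T x| ≤ 1) :
    |(av B fun T => γ T (F T + 1)) - av B fun T => γ T (F T)| * M.card ≤ 2 * Real.sqrt M.card := by
  have key : ∀ y ∈ M, ((av B fun T => γ T (F T + 1)) - av B fun T => γ T (F T)) =
      av B fun T => (γ T (F T) + γ T (F T + 1)) * ((s y : ℝ) * ep y T) := by
    intro y hy
    rw [← av_sub, av_erase (hM hy), av_erase (hM hy) (fun T => (γ T (F T) + γ T (F T + 1)) * ((s y : ℝ) * ep y T))]
    refine av_congr fun T hT => ?_
    have h1 : y ∉ T := fun h => Finset.notMem_erase y B (hT h)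
    have h2 : T ⊆ B := hT.trans (Finset.erase_subset _ _)
    rw [hF y hy T h2 h1, hγ y hy T h2 h1, ep_insert, ep_not h1]
    rcases hs y with h | h
    · rw [h]
      push_cast
      ring_nf
    · rw [h]
      push_cast
      have e : F T + -1 + 1 = F T := by ring
      rw [e]
      ring_nf
  have h1 : ((av B fun T => γ T (F T + 1)) - av B fun T => γ T (F T)) * M.card =
      av B fun T => (γ T (F T) + γ T (F T + 1)) * ∑ y ∈ M, (s y : ℝ) * ep y T := by
    have e1 : (fun T => (γ T (F T) + γ T (F T + 1)) * ∑ y ∈ M, (s y : ℝ) * ep y T) =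
        fun T => ∑ y ∈ M, (γ T (F T) + γ T (F T + 1)) * ((s y : ℝ) * ep y T) := by
      funext T
      rw [Finset.mul_sum]
    rw [e1, av_sum, ← Finset.sum_congr rfl key, Finset.sum_const, nsmul_eq_mul, mul_comm]
  have hs2 : ∀ y, (s y : ℝ) ^ 2 = 1 := by
    intro y
    rcases hs y with h | h <;> rw [h] <;> norm_num
  rw [← abs_of_nonneg (Nat.cast_nonneg M.card : (0 : ℝ) ≤ M.card), ← abs_mul, h1,
    abs_of_nonneg (Nat.cast_nonneg M.card : (0 : ℝ) ≤ M.card)]
  calc |av B fun T => (γ T (F T) + γ T (F T + 1)) * ∑ y ∈ M, (s y : ℝ) * ep y T|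
      ≤ av B fun T => |(γ T (F T) + γ T (F T + 1)) * ∑ y ∈ M, (s y : ℝ) * ep y T| := abs_av_le _ _
    _ ≤ av B fun T => 2 * |∑ y ∈ M, (s y : ℝ) * ep y T| := by
        refine av_mono fun T _ => ?_
        rw [abs_mul]
        refine mul_le_mul_of_nonneg_right ?_ (abs_nonneg _)
        have h2 := abs_add_le (γ T (F T)) (γ T (F T + 1))
        have h3 := hb T (F T)
        have h4 := hb T (F T + 1)
        linarith
    _ = 2 * av B fun T => |∑ y ∈ M, (s y : ℝ) * ep y T| := av_mul_left _ _ _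
    _ ≤ 2 * Real.sqrt M.card := by
        refine mul_le_mul_of_nonneg_left ?_ (by norm_num)
        exact av_abs_le_sqrt B _ (av_sq_sum B M hM (fun y => (s y : ℝ)) hs2).le

lemma step_nat (B M : Finset ℕ) (hM : M ⊆ B) (F : Finset ℕ → ℤ) (s : ℕ → ℤ) (hs : ∀ y, s y = 1 ∨ s y = -1)
    (hF : ∀ y ∈ M, ∀ T, T ⊆ B → y ∉ T → F (insert y T) = F T + s y)
    (γ : Finset ℕ → ℤ → ℝ) (hγ : ∀ y ∈ M, ∀ T, T ⊆ B → y ∉ T → γ (insert y T) = γ T)
    (hb : ∀ T x, |γ T x| ≤ 1) (e : ℕ) :
    |(av B fun T => γ T (F T + e)) - av B fun T => γ T (F T)| * M.card ≤ e * (2 * Real.sqrt M.card) := by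
  induction e with
  | zero => simp
  | succ e ih =>
    have h1 := step B M hM F s hs hF (fun T x => γ T (x + e)) (by
      intro y hy T hT hyT
      funext x
      rw [hγ y hy T hT hyT]) (fun T x => hb T _)
    have e1 : (fun T => γ T (F T + 1 + e)) = fun T => γ T (F T + ((e + 1 : ℕ) : ℤ)) := by
      funext T
      congr 1
      push_cast
      ring
    simp only [e1] at h1
    have h2 := abs_sub_le (av B fun T => γ T (F T + ((e + 1 : ℕ) : ℤ))) (av B fun T => γ T (F T + e))
      (av B fun T => γ T (F T))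
    have h3 : (0 : ℝ) ≤ M.card := Nat.cast_nonneg _
    have h4 := mul_le_mul_of_nonneg_right h2 h3
    push_cast
    push_cast at h1 h4
    nlinarith

/-- **translations** -/
theorem shift (B M : Finset ℕ) (hM : M ⊆ B) (F : Finset ℕ → ℤ) (s : ℕ → ℤ) (hs : ∀ y, s y = 1 ∨ s y = -1)
    (hF : ∀ y ∈ M, ∀ T, T ⊆ B → y ∉ T → F (insert y T) = F T + s y)
    (γ : Finset ℕ → ℤ → ℝ) (hγ : ∀ y ∈ M, ∀ T, T ⊆ B → y ∉ T → γ (insert y T) = γ T)
    (hb : ∀ T x, |γ T x| ≤ 1) (e : ℤ) :
    |(av B fun T => γ T (F T + e)) - av B fun T => γ T (F T)| * M.card ≤ |(e : ℝ)| * (2 * Real.sqrt M.card) := by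
  rcases le_total 0 e with h | h
  · obtain ⟨n, rfl⟩ := Int.eq_ofNat_of_zero_le h
    have h1 := step_nat B M hM F s hs hF γ hγ hb n
    simpa using h1
  · obtain ⟨n, hn⟩ := Int.eq_ofNat_of_zero_le (neg_nonneg.2 h)
    have he : e = -(n : ℤ) := by linarith
    subst he
    have h1 := step_nat B M hM (fun T => F T + -(n : ℤ)) s hs (by
      intro y hy T hT hyT
      rw [hF y hy T hT hyT]
      ring) γ hγ hb n
    have e1 : ∀ T, F T + -(n : ℤ) + n = F T := fun T => by ring
    simp only [e1] at h1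
    rw [abs_sub_comm] at h1
    simpa using h1

/-- decoupling of two functions -/
lemma av_mul {B C : Finset ℕ} (hC : C ⊆ B) (g h : Finset ℕ → ℝ) (hg : ∀ T, T ⊆ B → g T = g (T ∩ C))
    (hh : ∀ T, T ⊆ B → h T = h (T \ C)) : (av B fun T => g T * h T) = av B g * av B h := by
  induction C using Finset.induction_on generalizing B g h with
  | empty =>
    have h1 : ∀ T, T ⊆ B → g T = g ∅ := fun T hT => by rw [hg T hT, Finset.inter_empty]
    rw [av_congr (ψ := fun T => g ∅ * h T) (fun T hT => by rw [h1 T hT]), av_mul_left,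
      av_congr (φ := g) (ψ := fun _ => g ∅) (fun T hT => h1 T hT), av_const]
  | insert c C hc ih =>
    have hcB : c ∈ B := hC (Finset.mem_insert_self _ _)
    have hCB : C ⊆ B.erase c := by
      intro x hx
      refine Finset.mem_erase.2 ⟨fun h => hc (h ▸ hx), hC (Finset.mem_insert_of_mem hx)⟩
    have hnot : ∀ T, T ⊆ B.erase c → c ∉ T := fun T hT h => Finset.notMem_erase c B (hT h)
    have hsub : ∀ T, T ⊆ B.erase c → T ⊆ B := fun T hT => hT.trans (Finset.erase_subset _ _)
    have hins : ∀ T, T ⊆ B.erase c → insert c T ⊆ B := fun T hT =>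
      Finset.insert_subset hcB (hsub T hT)
    have hh1 : ∀ T, T ⊆ B.erase c → h (insert c T) = h T := by
      intro T hT
      rw [hh _ (hins T hT), hh T (hsub T hT)]
      congr 1
      ext x
      simp only [Finset.mem_sdiff, Finset.mem_insert]
      tauto
    have hg1 : ∀ T, T ⊆ B.erase c → g T = g (T ∩ C) := by
      intro T hT
      rw [hg T (hsub T hT), hg (T ∩ C) (Finset.inter_subset_left.trans (hsub T hT))]
      congr 1
      ext x
      simp only [Finset.mem_inter, Finset.mem_insert]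
      constructor
      · rintro ⟨h1, h2 | h2⟩
        · exact absurd (h2 ▸ h1) (hnot T hT)
        · exact ⟨⟨h1, h2⟩, Or.inr h2⟩
      · rintro ⟨⟨h1, h2⟩, _⟩
        exact ⟨h1, Or.inr h2⟩
    have hg2 : ∀ T, T ⊆ B.erase c → g (insert c T) = g (insert c (T ∩ C)) := by
      intro T hT
      rw [hg _ (hins T hT), hg (insert c (T ∩ C))
        (hins _ (Finset.inter_subset_left.trans hT))]
      congr 1
      ext x
      simp only [Finset.mem_inter, Finset.mem_insert]
      tauto
    have hh2 : ∀ T, T ⊆ B.erase c → h T = h (T \ C) := by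
      intro T hT
      rw [hh T (hsub T hT), hh (T \ C) (Finset.sdiff_subset.trans (hsub T hT))]
      congr 1
      ext x
      simp only [Finset.mem_sdiff, Finset.mem_insert]
      tauto
    rw [av_erase hcB, av_erase hcB g, av_erase hcB h]
    have e1 : (av (B.erase c) fun T => (g T * h T + g (insert c T) * h (insert c T)) / 2) =
        av (B.erase c) fun T => ((g T + g (insert c T)) / 2) * h T := by
      refine av_congr fun T hT => ?_
      rw [hh1 T hT]
      ring
    have e2 : (av (B.erase c) fun T => (h T + h (insert c T)) / 2) = av (B.erase c) h := by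
      refine av_congr fun T hT => ?_
      rw [hh1 T hT]
      ring
    rw [e1, e2]
    exact ih hCB (fun T => (g T + g (insert c T)) / 2) h (fun T hT => by
      rw [hg1 T hT, hg2 T hT]) hh2

/-- decoupling of several functions -/
theorem av_prod {ι : Type*} [DecidableEq ι] {B : Finset ℕ} (s : Finset ι) (C : ι → Finset ℕ)
    (hC : ∀ i ∈ s, C i ⊆ B) (hd : ∀ i ∈ s, ∀ j ∈ s, i ≠ j → Disjoint (C i) (C j))
    (g : ι → Finset ℕ → ℝ) (hg : ∀ i ∈ s, ∀ T, T ⊆ B → g i T = g i (T ∩ C i)) :
    (av B fun T => ∏ i ∈ s, g i T) = ∏ i ∈ s, av B (g i) := by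
  induction s using Finset.induction_on with
  | empty => simp [av_const]
  | insert a s ha ih =>
    have h1 : (fun T => ∏ i ∈ insert a s, g i T) = fun T => g a T * ∏ i ∈ s, g i T := by
      funext T
      rw [Finset.prod_insert ha]
    rw [h1, Finset.prod_insert ha, ← ih (fun i hi => hC i (Finset.mem_insert_of_mem hi))
      (fun i hi j hj => hd i (Finset.mem_insert_of_mem hi) j (Finset.mem_insert_of_mem hj))
      (fun i hi => hg i (Finset.mem_insert_of_mem hi))]
    refine av_mul (hC a (Finset.mem_insert_self _ _)) _ _ (hg a (Finset.mem_insert_self _ _)) ?_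
    intro T hT
    refine Finset.prod_congr rfl fun i hi => ?_
    rw [hg i (Finset.mem_insert_of_mem hi) T hT, hg i (Finset.mem_insert_of_mem hi) (T \ C a)
      (Finset.sdiff_subset.trans hT)]
    congr 1
    have h2 : Disjoint (C i) (C a) := hd i (Finset.mem_insert_of_mem hi) a (Finset.mem_insert_self _ _)
      (fun h => ha (h ▸ hi))
    ext x
    simp only [Finset.mem_inter, Finset.mem_sdiff]
    constructor
    · rintro ⟨h3, h4⟩
      exact ⟨⟨h3, fun h5 => Finset.disjoint_left.1 h2 h4 h5⟩, h4⟩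
    · rintro ⟨⟨h3, _⟩, h4⟩
      exact ⟨h3, h4⟩

end Pool.Agent.Q163.AD
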