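import Pool.Agent.Q163.BC.Flip
import Pool.Agent.Q163.AD.Av

/-!
# Completely additive functions with random values at the primes of a set
-/

set_option autoImplicit false

namespace Pool.Agent.Q163.AD

open Finset MeasureTheory Pool.Agent.Q163.RX Pool.Agent.Q163.BC

/-- the completely additive function with the values `v p` at the primes `p` (and the value `0` at `0`) -/
def ext (v : ℕ → ℤ) (n : ℕ) : ℤ := ∑ p ∈ n.primeFactors, (n.factorization p : ℤ) * v p

/-- the number of prime factors with multiplicity -/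
def om (n : ℕ) : ℕ := ∑ p ∈ n.primeFactors, n.factorization p

lemma ext_eq (v : ℕ → ℤ) {n : ℕ} {S : Finset ℕ} (h : n.primeFactors ⊆ S) :
    ext v n = ∑ p ∈ S, (n.factorization p : ℤ) * v p := by
  unfold ext
  refine Finset.sum_subset h fun p _ hp => ?_
  have : n.factorization p = 0 := by
    rw [← Finsupp.notMem_support_iff, Nat.support_factorization]
    exact hp
  rw [this]
  simp

lemma om_eq {n : ℕ} {S : Finset ℕ} (h : n.primeFactors ⊆ S) : om n = ∑ p ∈ S, n.factorization p := by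
  unfold om
  refine Finset.sum_subset h fun p _ hp => ?_
  rw [← Finsupp.notMem_support_iff, Nat.support_factorization]
  exact hp

lemma ext_mul (v : ℕ → ℤ) {m n : ℕ} (hm : m ≠ 0) (hn : n ≠ 0) : ext v (m * n) = ext v m + ext v n := by
  have h1 : (m * n).primeFactors = m.primeFactors ∪ n.primeFactors := Nat.primeFactors_mul hm hn
  rw [ext_eq v h1.le, ext_eq v (n := m) Finset.subset_union_left, ext_eq v (n := n) Finset.subset_union_right,
    ← Finset.sum_add_distrib]
  refine Finset.sum_congr rfl fun p _ => ?_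
  rw [Nat.factorization_mul hm hn, Finsupp.add_apply]
  push_cast
  ring

lemma om_mul {m n : ℕ} (hm : m ≠ 0) (hn : n ≠ 0) : om (m * n) = om m + om n := by
  have h1 : (m * n).primeFactors = m.primeFactors ∪ n.primeFactors := Nat.primeFactors_mul hm hn
  rw [om_eq h1.le, om_eq (n := m) Finset.subset_union_left, om_eq (n := n) Finset.subset_union_right,
    ← Finset.sum_add_distrib]
  refine Finset.sum_congr rfl fun p _ => ?_
  rw [Nat.factorization_mul hm hn, Finsupp.add_apply]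

lemma ext_congr {v v' : ℕ → ℤ} {n : ℕ} (h : ∀ p ∈ n.primeFactors, v p = v' p) : ext v n = ext v' n := by
  unfold ext
  exact Finset.sum_congr rfl fun p hp => by rw [h p hp]

lemma abs_ext_le {v : ℕ → ℤ} {C : ℝ} (hC : ∀ p, p.Prime → |(v p : ℝ)| ≤ C) (n : ℕ) :
    |(ext v n : ℝ)| ≤ C * om n := by
  unfold ext om
  push_cast
  rw [Finset.mul_sum]
  refine (Finset.abs_sum_le_sum_abs _ _).trans (Finset.sum_le_sum fun p hp => ?_)
  rw [abs_mul, abs_of_nonneg (Nat.cast_nonneg _ : (0 : ℝ) ≤ n.factorization p), mul_comm]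
  exact mul_le_mul_of_nonneg_right (hC p (Nat.prime_of_mem_primeFactors hp)) (Nat.cast_nonneg _)

lemma pow_om_le {z n : ℕ} (hn : n ≠ 0) (h : ∀ p ∈ n.primeFactors, z ≤ p) : z ^ om n ≤ n := by
  have h1 : ∏ p ∈ n.primeFactors, p ^ n.factorization p = n := Nat.prod_factorization_pow_eq_self hn
  calc z ^ om n = ∏ p ∈ n.primeFactors, z ^ n.factorization p := by
        unfold om
        rw [Finset.prod_pow_eq_pow_sum]
    _ ≤ ∏ p ∈ n.primeFactors, p ^ n.factorization p :=
        Finset.prod_le_prod' fun p hp => Nat.pow_le_pow_left (h p hp) _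
    _ = n := h1

lemma two_pow_om_le {n : ℕ} (hn : n ≠ 0) : 2 ^ om n ≤ n :=
  pow_om_le hn fun _ hp => (Nat.prime_of_mem_primeFactors hp).two_le

open Classical in
/-- the values at the primes: `h p`, plus one if `p` is in `P` and the coin `ω p` shows `true` -/
noncomputable def pv (h : ℕ → ℤ) (P : Set ℕ) (ω : ℕ → Bool) (p : ℕ) : ℤ :=
  h p + if p ∈ P ∧ ω p = true then 1 else 0

/-- the random completely additive function -/
noncomputable def rf (h : ℕ → ℤ) (P : Set ℕ) (ω : ℕ → Bool) (n : ℕ) : ℤ := ext (pv h P ω) n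

lemma abs_pv {h : ℕ → ℤ} {K : ℝ} (hK : ∀ p, p.Prime → |(h p : ℝ)| ≤ K) (P : Set ℕ) (ω : ℕ → Bool) (p : ℕ)
    (hp : p.Prime) : |(pv h P ω p : ℝ)| ≤ K + 1 := by
  unfold pv
  push_cast
  refine (abs_add_le _ _).trans (add_le_add (hK p hp) ?_)
  split_ifs <;> simp

lemma abs_rf {h : ℕ → ℤ} {K : ℝ} (hK : ∀ p, p.Prime → |(h p : ℝ)| ≤ K) (P : Set ℕ) (ω : ℕ → Bool) (n : ℕ) :
    |(rf h P ω n : ℝ)| ≤ (K + 1) * om n := abs_ext_le (abs_pv hK P ω) n

lemma rf_mul (h : ℕ → ℤ) (P : Set ℕ) (ω : ℕ → Bool) {m n : ℕ} (hm : m ≠ 0) (hn : n ≠ 0) :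
    rf h P ω (m * n) = rf h P ω m + rf h P ω n := ext_mul _ hm hn

lemma flS_of_not {T : Set ℕ} {p : ℕ} (h : p ∉ T) (ω : ℕ → Bool) : flS T ω p = ω p := by
  unfold flS
  rw [if_neg h]

lemma flS_of_mem {T : Set ℕ} {p : ℕ} (h : p ∈ T) (ω : ℕ → Bool) : flS T ω p = !(ω p) := by
  unfold flS
  rw [if_pos h]

lemma rf_congr (h : ℕ → ℤ) (P : Set ℕ) {ω ω' : ℕ → Bool} {n : ℕ}
    (hw : ∀ p ∈ n.primeFactors, p ∈ P → ω p = ω' p) : rf h P ω n = rf h P ω' n := by
  unfold rf
  refine ext_congr fun p hp => ?_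
  unfold pv
  by_cases hpP : p ∈ P
  · rw [hw p hp hpP]
  · simp only [hpP, false_and, if_false]

/-- only the flips at the prime factors matter -/
lemma rf_fl_congr (h : ℕ → ℤ) (P : Set ℕ) (ω : ℕ → Bool) {n : ℕ} {T T' : Finset ℕ}
    (hT : ∀ p ∈ n.primeFactors, p ∈ T ↔ p ∈ T') : rf h P (flS T ω) n = rf h P (flS T' ω) n := by
  refine rf_congr h P fun p hp _ => ?_
  unfold flS
  by_cases h1 : p ∈ T
  · have h2 := (hT p hp).1 h1
    rw [if_pos (Finset.mem_coe.2 h1), if_pos (Finset.mem_coe.2 h2)]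
  · have h2 : p ∉ T' := fun h3 => h1 ((hT p hp).2 h3)
    rw [if_neg (fun h3 => h1 (Finset.mem_coe.1 h3)), if_neg (fun h3 => h2 (Finset.mem_coe.1 h3))]

lemma rf_fl_none (h : ℕ → ℤ) (P : Set ℕ) (ω : ℕ → Bool) {n : ℕ} {T : Finset ℕ}
    (hT : ∀ p ∈ n.primeFactors, p ∉ T) : rf h P (flS T ω) n = rf h P ω n := by
  refine rf_congr h P fun p hp _ => ?_
  exact flS_of_not (fun h3 => hT p hp (Finset.mem_coe.1 h3)) ω

/-- the step made when a coin is flipped -/
def sy (ω : ℕ → Bool) (y : ℕ) : ℤ := if ω y = true then -1 else 1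

lemma sy_or (ω : ℕ → Bool) (y : ℕ) : sy ω y = 1 ∨ sy ω y = -1 := by
  unfold sy
  split_ifs
  · exact Or.inr rfl
  · exact Or.inl rfl

lemma rf_insert (h : ℕ → ℤ) (P : Set ℕ) (ω : ℕ → Bool) {n y : ℕ} (hy : y ∈ P) (hn : n.factorization y = 1)
    {T : Finset ℕ} (hyT : y ∉ T) :
    rf h P (flS (insert y T : Finset ℕ) ω) n = rf h P (flS T ω) n + sy ω y := by
  have hmem : y ∈ n.primeFactors := by
    rw [← Nat.support_factorization, Finsupp.mem_support_iff, hn]
    exact one_ne_zero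
  unfold rf ext
  rw [← Finset.add_sum_erase _ _ hmem, ← Finset.add_sum_erase n.primeFactors
    (fun p => (n.factorization p : ℤ) * pv h P (flS T ω) p) hmem]
  have h1 : ∑ p ∈ n.primeFactors.erase y, (n.factorization p : ℤ) * pv h P (flS (insert y T : Finset ℕ) ω) p =
      ∑ p ∈ n.primeFactors.erase y, (n.factorization p : ℤ) * pv h P (flS T ω) p := by
    refine Finset.sum_congr rfl fun p hp => ?_
    have hpy := Finset.ne_of_mem_erase hp
    have h2 : flS ((insert y T : Finset ℕ) : Set ℕ) ω p = flS T ω p := by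
      by_cases hpT : p ∈ T
      · rw [flS_of_mem (Finset.mem_coe.2 hpT), flS_of_mem (Finset.mem_coe.2 (Finset.mem_insert_of_mem hpT))]
      · rw [flS_of_not (fun h3 => hpT (Finset.mem_coe.1 h3)), flS_of_not]
        intro h3
        rcases Finset.mem_insert.1 (Finset.mem_coe.1 h3) with h4 | h4
        · exact hpy h4
        · exact hpT h4
    unfold pv
    rw [h2]
  rw [h1, hn]
  have h2 : flS ((insert y T : Finset ℕ) : Set ℕ) ω y = !(ω y) :=
    flS_of_mem (Finset.mem_coe.2 (Finset.mem_insert_self _ _)) ω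
  have h3 : flS (T : Set ℕ) ω y = ω y := flS_of_not (fun h3 => hyT (Finset.mem_coe.1 h3)) ω
  generalize ∑ p ∈ n.primeFactors.erase y, (n.factorization p : ℤ) * pv h P (flS T ω) p = R
  unfold pv sy
  rw [h2, h3]
  cases ω y
  · simp [hy]
    ring
  · simp [hy]
    ring

lemma meas_pv (h : ℕ → ℤ) (P : Set ℕ) (p : ℕ) : Measurable fun ω => pv h P ω p := by
  classical
  have h1 : (fun ω => pv h P ω p) = (fun b : Bool => h p + if p ∈ P ∧ b = true then (1 : ℤ) else 0) ∘
      fun ω : ℕ → Bool => ω p := by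
    funext ω
    unfold pv
    simp only [Function.comp]
  rw [h1]
  exact (measurable_of_finite _).comp (measurable_pi_apply p)

lemma meas_rf (h : ℕ → ℤ) (P : Set ℕ) (n : ℕ) : Measurable fun ω => rf h P ω n := by
  unfold rf ext
  exact Finset.measurable_fun_sum _ fun p _ => (meas_pv h P p).const_mul _

end Pool.Agent.Q163.AD
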