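import Pool.Agent.Q163.AD.Mass
import Pool.Agent.Q163.RP.AS

/-!
# Convergence along a sparse sequence
-/

set_option autoImplicit false

namespace Pool.Agent.Q163.AD

open Finset MeasureTheory Filter Topology Pool.Agent.Q163.RX Pool.Agent.Q163.BC Pool.Agent.W208.TL

/-- the range of the values -/
noncomputable def II (K c N : ℕ) : Finset ℤ :=
  Icc (-(((K + 1) * Nat.log 2 (c * N) : ℕ) : ℤ)) (((K + 1) * Nat.log 2 (c * N) : ℕ) : ℤ)

lemma rf_mem {h : ℕ → ℤ} {K : ℕ} (hK : ∀ p, p.Prime → |(h p : ℝ)| ≤ K) (P : Set ℕ) (ω : ℕ → Bool) {c N m : ℕ}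
    (hm : m ≠ 0) (hmN : m ≤ c * N) : rf h P ω m ∈ II K c N := by
  have h1 := abs_rf hK P ω m
  have h2 : om m ≤ Nat.log 2 (c * N) := by
    refine Nat.le_log_of_pow_le (by norm_num) ((two_pow_om_le hm).trans hmN)
  have h3 : |(rf h P ω m : ℝ)| ≤ (((K + 1) * Nat.log 2 (c * N) : ℕ) : ℝ) := by
    refine h1.trans ?_
    push_cast
    refine mul_le_mul_of_nonneg_left ?_ (by positivity)
    exact_mod_cast h2
  have h4 : |rf h P ω m| ≤ (((K + 1) * Nat.log 2 (c * N) : ℕ) : ℤ) := by exact_mod_cast h3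
  unfold II
  rw [Finset.mem_Icc]
  exact abs_le.1 h4

lemma card_II {K c N : ℕ} (hc : c ≤ N) : (II K c N).card ≤ (4 * K + 5) * lg N := by
  have h1 : Nat.log 2 (c * N) ≤ 2 * lg N := by
    have h2 : c * N < 2 ^ (2 * lg N) := by
      have h3 : N < 2 ^ lg N := Nat.lt_pow_succ_log_self (by norm_num) N
      calc c * N ≤ N * N := Nat.mul_le_mul_right _ hc
        _ < 2 ^ lg N * 2 ^ lg N := Nat.mul_lt_mul'' h3 h3
        _ = 2 ^ (2 * lg N) := by rw [← pow_add]; congr 1; ring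
    by_cases h0 : c * N = 0
    · rw [h0]
      simp
    · exact ((Nat.log_lt_iff_lt_pow (by norm_num) h0).2 h2).le
  unfold II
  rw [Int.card_Icc]
  have h4 : 1 ≤ lg N := by unfold lg; omega
  have h5 : ((K + 1) * Nat.log 2 (c * N)) ≤ (K + 1) * (2 * lg N) := Nat.mul_le_mul_left _ h1
  generalize (K + 1) * Nat.log 2 (c * N) = R at *
  have h6 : ((R : ℤ) + 1 - -(R : ℤ)).toNat = 2 * R + 1 := by omega
  rw [h6]
  nlinarith

/-- the sequence -/
noncomputable def sq (j : ℕ) : ℕ := ⌈Real.exp (Real.sqrt j)⌉₊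

lemma sq_pos (j : ℕ) : 1 ≤ sq j := Nat.one_le_iff_ne_zero.2 (Nat.ceil_pos.2 (Real.exp_pos _)).ne'

lemma sqrt_le_log_sq (j : ℕ) : Real.sqrt j ≤ Real.log (sq j) := by
  rw [Real.le_log_iff_exp_le (by exact_mod_cast sq_pos j)]
  exact Nat.le_ceil _

lemma sq_tendsto : Tendsto sq atTop atTop := by
  refine tendsto_nat_ceil_atTop.comp (Real.tendsto_exp_atTop.comp ?_)
  exact Real.tendsto_sqrt_atTop.comp tendsto_natCast_atTop_atTop

/-- the distance -/
noncomputable def SD (f : ℕ → ℤ) (I : Finset ℤ) {k : ℕ} (α β : Fin k → ℕ) (N : ℕ) : ℝ :=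
  ∑ ℓ ∈ Fintype.piFinset (fun _ : Fin k => I), |freq f α β N ℓ - ∏ i, freq1 f N (ℓ i)|

lemma td_ae {ι : Type*} [DecidableEq ι] (Λ : ℕ → Finset ι) (B : ℕ → Finset ℕ) (V : ℕ → (ℕ → Bool) → ι)
    (hm : ∀ n ℓ, Measurable fun ω => (if V n ω = ℓ then (1 : ℝ) else 0)) {C : ℝ} (hC : 0 ≤ C) {N0 : ℕ}
    (hb : ∀ N, N0 ≤ N → ∫ ω, td (Λ N) (B N) N V ω ^ 2 ∂cm ≤ C / (lg N : ℝ) ^ 3) :
    ∀ᵐ ω ∂cm, Tendsto (fun j => td (Λ (sq j)) (B (sq j)) (sq j) V ω) atTop (𝓝 0) := by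
  obtain ⟨j0, hj0⟩ := (sq_tendsto.eventually_ge_atTop N0).exists_forall_of_atTop
  have h1 := Pool.Agent.Q163.RP.ae_tendsto_zero (μ := cm)
    (f := fun j ω => td (Λ (sq (j + (j0 + 1)))) (B (sq (j + (j0 + 1)))) (sq (j + (j0 + 1))) V ω ^ 2)
    (fun j => (meas_td _ _ _ V hm).pow_const 2) (fun j ω => sq_nonneg _)
    (fun j => integrable_of ((meas_td _ _ _ V hm).pow_const 2) (C := ((Λ (sq (j + (j0 + 1)))).card * 2) ^ 2)
      fun ω => by
        rw [abs_pow, abs_of_nonneg (td_nonneg _ _ _ _ _)]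
        exact pow_le_pow_left₀ (td_nonneg _ _ _ _ _) (td_le _ _ _ _ _) 2)
    (fun j => C * (1 / ((j + (j0 + 1) : ℕ) : ℝ) ^ (3 / 2 : ℝ))) (by
      refine Summable.mul_left _ ?_
      have h2 : Summable fun n : ℕ => 1 / (n : ℝ) ^ (3 / 2 : ℝ) := Real.summable_one_div_nat_rpow.2 (by norm_num)
      exact (summable_nat_add_iff (j0 + 1)).2 h2) (fun j => by
      refine (hb _ (hj0 _ (by omega))).trans ?_
      rw [div_eq_mul_one_div]
      refine mul_le_mul_of_nonneg_left ?_ hC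
      have hj : (0 : ℝ) < ((j + (j0 + 1) : ℕ) : ℝ) := by exact_mod_cast (by omega : 0 < j + (j0 + 1))
      refine one_div_le_one_div_of_le (by positivity) ?_
      have h2 : Real.sqrt ((j + (j0 + 1) : ℕ) : ℝ) ≤ (lg (sq (j + (j0 + 1))) : ℝ) :=
        (sqrt_le_log_sq _).trans (log_le_lg (sq_pos _))
      have h3 : ((j + (j0 + 1) : ℕ) : ℝ) ^ (3 / 2 : ℝ) = Real.sqrt ((j + (j0 + 1) : ℕ) : ℝ) ^ 3 := by
        rw [Real.sqrt_eq_rpow, ← Real.rpow_natCast, ← Real.rpow_mul hj.le]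
        norm_num
      rw [h3]
      exact pow_le_pow_left₀ (Real.sqrt_nonneg _) h2 3)
  filter_upwards [h1] with ω hω
  have h2 : Tendsto (fun j => td (Λ (sq j)) (B (sq j)) (sq j) V ω ^ 2) atTop (𝓝 0) :=
    (tendsto_add_atTop_iff_nat (j0 + 1)).1 hω
  have h3 := h2.sqrt
  rw [Real.sqrt_zero] at h3
  refine h3.congr fun j => ?_
  exact Real.sqrt_sq (td_nonneg _ _ _ _ _)

theorem along_eta {k : ℕ} (hk : 1 ≤ k) (α β : Fin k → ℕ) (hα : ∀ i, 1 ≤ α i)
    (hαβ : ∀ i j, i ≠ j → α i * β j ≠ α j * β i) (c : ℕ) (hc : ∀ i, α i + β i ≤ c) (hc1 : 1 ≤ c)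
    {K : ℕ} {h : ℕ → ℤ} (hK : ∀ p, p.Prime → |(h p : ℝ)| ≤ K) (P : Set ℕ)
    (hP : Tendsto (mass P fun N => ⌊Real.log N⌋₊) atTop atTop) {η : ℝ} (hη : 0 < η) (hη1 : η ≤ 1) :
    ∀ᵐ ω ∂cm, ∀ᶠ j in atTop, SD (rf h P ω) (II K c (sq j)) α β (sq j) ≤ (2 + 2 * (k * 2 ^ k)) * η := by
  classical
  obtain ⟨w, A, S0, y0, hA, hw, hdet⟩ := det k hk α β hα hαβ c hc hc1 K (by positivity) η hη hη1
  obtain ⟨C1, hC1⟩ := bl_mass P (2 * (k + 3)) A (by omega) hA
  set u : ℕ → ℕ := fun N => lg N ^ (k + 3) with hu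
  set y : ℕ → ℕ := fun N => Nat.nthRoot A N with hy
  have hlg1 : ∀ N, 1 ≤ lg N := fun N => by unfold lg; omega
  have hlgt : Tendsto lg atTop atTop := by
    rw [tendsto_atTop]
    intro b
    filter_upwards [eventually_ge_atTop (2 ^ b)] with N hN
    have := Nat.le_log_of_pow_le (by norm_num : 1 < 2) hN
    unfold lg
    omega
  have hA0 : A ≠ 0 := by omega
  have hyt : Tendsto y atTop atTop := by
    rw [tendsto_atTop]
    intro b
    filter_upwards [eventually_ge_atTop (b ^ A)] with N hN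
    exact (Nat.le_nthRoot_iff hA0).2 hN
  have hyN : ∀ N, y N ≤ N := by
    intro N
    have h1 : y N ^ A ≤ N := (Nat.le_nthRoot_iff hA0).1 le_rfl
    exact (Nat.le_self_pow hA0 _).trans h1
  -- the moments
  have hcu : ∀ N, c + w ≤ lg N → c ≤ u N ∧ 1 ≤ u N ∧ w ≤ u N := by
    intro N hN
    have h1 : lg N ≤ lg N ^ (k + 3) := Nat.le_self_pow (by omega) _
    refine ⟨?_, ?_, ?_⟩ <;> simp only [hu] <;> have := hlg1 N <;> omega
  obtain ⟨N0, hN0⟩ := (hlgt.eventually_ge_atTop (c + w)).exists_forall_of_atTop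
  have hm1 : ∀ᵐ ω ∂cm, Tendsto (fun j => td (Fintype.piFinset (fun _ : Fin k => II K c (sq j)))
      (bl P (u (sq j)) (y (sq j))) (sq j) (vv h P α β) ω) atTop (𝓝 0) := by
    refine td_ae (fun N => Fintype.piFinset (fun _ : Fin k => II K c N)) (fun N => bl P (u N) (y N)) (vv h P α β)
      (meas_vv h P α β) (C := 16 * k ^ 2 * (4 * K + 5) ^ k) (by positivity) (N0 := N0 + c) fun N hN => ?_
    obtain ⟨h1, h2, _⟩ := hcu N (hN0 N (by omega))
    have h3 := moment_forms h P hα hc h2 h1 (by omega : 1 ≤ N) (hyN N) (bl_sub P (u N) (y N))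
      (Fintype.piFinset (fun _ : Fin k => II K c N))
    refine h3.trans ?_
    have h4 : ((Fintype.piFinset (fun _ : Fin k => II K c N)).card : ℝ) ≤ ((4 * K + 5) * lg N) ^ k := by
      rw [Fintype.card_piFinset_const]
      push_cast
      refine pow_le_pow_left₀ (by positivity) ?_ _
      exact_mod_cast card_II (by omega)
    have h5 : (0 : ℝ) < lg N := by exact_mod_cast hlg1 N
    have h6 : ((u N : ℕ) : ℝ) = (lg N : ℝ) ^ k * (lg N : ℝ) ^ 3 := by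
      simp only [hu]
      push_cast
      rw [pow_add]
    rw [h6]
    calc 16 * (k : ℝ) ^ 2 * ((Fintype.piFinset (fun _ : Fin k => II K c N)).card : ℝ) /
          ((lg N : ℝ) ^ k * (lg N : ℝ) ^ 3) ≤ 16 * (k : ℝ) ^ 2 * (((4 * K + 5) * lg N) ^ k) /
          ((lg N : ℝ) ^ k * (lg N : ℝ) ^ 3) := by gcongr
      _ = 16 * k ^ 2 * (4 * K + 5) ^ k / (lg N : ℝ) ^ 3 := by
          rw [mul_pow]
          field_simp
  have hm2 : ∀ᵐ ω ∂cm, Tendsto (fun j => td (II K c (sq j))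
      (bl P (u (sq j)) (y (sq j))) (sq j) (fun n ω => rf h P ω n) ω) atTop (𝓝 0) := by
    refine td_ae (fun N => II K c N) (fun N => bl P (u N) (y N)) (fun n ω => rf h P ω n)
      (meas_v1 h P) (C := 16 * (4 * K + 5)) (by positivity) (N0 := N0 + c) fun N hN => ?_
    obtain ⟨h1, h2, _⟩ := hcu N (hN0 N (by omega))
    have h3 := moment_id h P h2 (by omega : 1 ≤ N) (hyN N) (bl_sub P (u N) (y N)) (II K c N)
    refine h3.trans ?_
    have h4 : ((II K c N).card : ℝ) ≤ (4 * K + 5) * lg N := by exact_mod_cast card_II (by omega)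
    have h5 : (1 : ℝ) ≤ lg N := by exact_mod_cast hlg1 N
    have h5' : (0 : ℝ) < lg N := by linarith
    have h6 : (lg N : ℝ) * (lg N : ℝ) ^ 3 ≤ ((u N : ℕ) : ℝ) := by
      simp only [hu]
      push_cast
      rw [← pow_succ']
      exact pow_le_pow_right₀ h5 (by omega)
    calc 16 * ((II K c N).card : ℝ) / ((u N : ℕ) : ℝ) ≤ 16 * ((4 * K + 5) * lg N) / ((lg N : ℝ) * (lg N : ℝ) ^ 3) := by
          gcongr
      _ = 16 * (4 * K + 5) / (lg N : ℝ) ^ 3 := by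
          field_simp
  -- the mass
  have hmass : ∀ᶠ N : ℕ in atTop, S0 ≤ ∑ p ∈ bl P (u N) (y N), (1 : ℝ) / p := by
    have hv : Tendsto (fun N : ℕ => ⌊Real.log N⌋₊) atTop atTop :=
      tendsto_nat_floor_atTop.comp (Real.tendsto_log_atTop.comp tendsto_natCast_atTop_atTop)
    filter_upwards [hP.eventually_ge_atTop (S0 + C1), hv.eventually_ge_atTop 3, hyt.eventually_ge_atTop 3,
      eventually_ge_atTop 21] with N h1 h2 h3 h4
    have h5 : u N ≤ ⌊Real.log N⌋₊ ^ (2 * (k + 3)) := by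
      simp only [hu]
      rw [pow_mul]
      exact Nat.pow_le_pow_left (lg_le h4) _
    have h6 := hC1 (fun N => ⌊Real.log N⌋₊) N (y N) (u N) h2 h5 h3 ((Nat.nthRoot_lt_iff hA0).1 (Nat.lt_succ_self _))
    linarith
  filter_upwards [hm1, hm2] with ω hω1 hω2
  have e1 := hω1.eventually_le_const hη
  have e2 := hω2.eventually_le_const hη
  filter_upwards [e1, e2, sq_tendsto.eventually hmass, sq_tendsto.eventually (hyt.eventually_ge_atTop y0),
    sq_tendsto.eventually (eventually_ge_atTop N0)] with j h1 h2 h3 h4 h5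
  obtain ⟨h6, h7, h8⟩ := hcu _ (hN0 _ h5)
  obtain ⟨lam, hl0, hl1, hl2, hl3⟩ := hdet (y (sq j)) (sq j) (u (sq j)) h4
    ((Nat.le_nthRoot_iff hA0).1 le_rfl) ((Nat.nthRoot_lt_iff hA0).1 (Nat.lt_succ_self _)) h8 h hK P
    (bl P (u (sq j)) (y (sq j))) (bl_sub P _ _) (bl_mem P _ _) h3 (II K c (sq j)) ω
    (fun m hm hmN T => rf_mem hK P _ hm hmN)
  have h9 := dist_le h P α β hα hc hc1 hη1 (bl P (u (sq j)) (y (sq j))) (sq j) (II K c (sq j)) ω
    (fun m hm hmN T => rf_mem hK P _ hm hmN) lam hl0 hl1 hl2 hl3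
  unfold SD
  refine h9.trans ?_
  have h10 : (k : ℝ) * 2 ^ k * td (II K c (sq j)) (bl P (u (sq j)) (y (sq j))) (sq j) (fun n ω => rf h P ω n) ω ≤
      k * 2 ^ k * η := mul_le_mul_of_nonneg_left h2 (by positivity)
  linarith

end Pool.Agent.Q163.AD
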