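import Pool.Agent.Q163.AD.Sm
import Pool.Agent.W479.TLClaim

/-!
# Most integers have many prime factors in a set with a large sum of reciprocals
-/

set_option autoImplicit false

namespace Pool.Agent.Q163.AD

open Finset Pool.Agent.W208.TL

/-- the elements of `B` which divide `n` exactly once -/
def ones (B : Finset ℕ) (n : ℕ) : Finset ℕ := B.filter fun p => n.factorization p = 1

lemma second (N : ℕ) (B : Finset ℕ) (hB : ∀ p ∈ B, p.Prime) (hc : B.card ≤ N) :
    ∑ n ∈ Ioc 0 N, (((B.filter fun p => p ∣ n).card : ℝ) - ∑ p ∈ B, (1 : ℝ) / p) ^ 2 ≤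
      3 * (∑ p ∈ B, (1 : ℝ) / p) * N := by
  set S : ℝ := ∑ p ∈ B, (1 : ℝ) / p with hS
  have hS0 : 0 ≤ S := Finset.sum_nonneg fun p _ => by positivity
  have hX : ∀ n : ℕ, ((B.filter fun p => p ∣ n).card : ℝ) = ∑ p ∈ B, if p ∣ n then (1 : ℝ) else 0 := by
    intro n
    rw [Finset.card_filter]
    push_cast
    rfl
  have hcnt : ∀ d : ℕ, ∑ n ∈ Ioc 0 N, (if d ∣ n then (1 : ℝ) else 0) = ((N / d : ℕ) : ℝ) := by
    intro d
    rw [← Finset.sum_filter, Finset.sum_const, nsmul_eq_mul, mul_one, Nat.Ioc_filter_dvd_card_eq_div]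
  have h1 : (S * N - B.card) ≤ ∑ n ∈ Ioc 0 N, ((B.filter fun p => p ∣ n).card : ℝ) := by
    simp_rw [hX]
    rw [Finset.sum_comm]
    simp_rw [hcnt]
    have h2 : ∀ p ∈ B, (1 : ℝ) / p * N - 1 ≤ ((N / p : ℕ) : ℝ) := by
      intro p hp
      have hpp := (hB p hp).pos
      have h3 : N < (N / p + 1) * p := by
        have := Nat.lt_div_mul_add hpp (a := N)
        linarith [this]
      have hpr : (0 : ℝ) < p := by exact_mod_cast hpp
      have h4 : (N : ℝ) < ((N / p : ℕ) + 1) * p := by exact_mod_cast h3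
      rw [one_div, inv_mul_eq_div, sub_le_iff_le_add, div_le_iff₀ hpr]
      exact h4.le
    calc S * N - B.card = ∑ p ∈ B, ((1 : ℝ) / p * N - 1) := by
          rw [Finset.sum_sub_distrib, ← Finset.sum_mul, ← hS]
          simp
      _ ≤ _ := Finset.sum_le_sum h2
  have h2 : ∑ n ∈ Ioc 0 N, ((B.filter fun p => p ∣ n).card : ℝ) ^ 2 ≤ S * N + S ^ 2 * N := by
    have e1 : ∀ n : ℕ, ((B.filter fun p => p ∣ n).card : ℝ) ^ 2 =
        ∑ p ∈ B, ∑ q ∈ B, if p ∣ n ∧ q ∣ n then (1 : ℝ) else 0 := by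
      intro n
      rw [hX, sq, Finset.sum_mul_sum]
      refine Finset.sum_congr rfl fun p _ => Finset.sum_congr rfl fun q _ => ?_
      by_cases h3 : p ∣ n <;> by_cases h4 : q ∣ n <;> simp [h3, h4]
    simp_rw [e1]
    rw [Finset.sum_comm]
    have e2 : ∀ p ∈ B, ∑ n ∈ Ioc 0 N, ∑ q ∈ B, (if p ∣ n ∧ q ∣ n then (1 : ℝ) else 0) ≤
        1 / p * N + 1 / p * S * N := by
      intro p hp
      have hpr : (0 : ℝ) < p := by exact_mod_cast (hB p hp).pos
      rw [Finset.sum_comm]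
      rw [← Finset.add_sum_erase _ _ hp]
      refine add_le_add ?_ ?_
      · simp only [and_self]
        rw [hcnt]
        refine Nat.cast_div_le.trans (le_of_eq ?_)
        ring
      · calc ∑ q ∈ B.erase p, ∑ n ∈ Ioc 0 N, (if p ∣ n ∧ q ∣ n then (1 : ℝ) else 0)
            ≤ ∑ q ∈ B.erase p, (1 : ℝ) / p * (1 / q) * N := by
              refine Finset.sum_le_sum fun q hq => ?_
              obtain ⟨hqp, hqB⟩ := Finset.mem_erase.1 hq
              have hcop : Nat.Coprime p q := (Nat.coprime_primes (hB p hp) (hB q hqB)).2 hqp.symm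
              have e3 : ∀ n, (p ∣ n ∧ q ∣ n) ↔ p * q ∣ n := fun n =>
                ⟨fun h => hcop.mul_dvd_of_dvd_of_dvd h.1 h.2, fun h =>
                  ⟨(Dvd.intro _ rfl).trans h, (Dvd.intro_left _ rfl).trans h⟩⟩
              simp_rw [e3]
              rw [hcnt]
              refine Nat.cast_div_le.trans (le_of_eq ?_)
              push_cast
              ring
          _ ≤ ∑ q ∈ B, (1 : ℝ) / p * (1 / q) * N :=
              Finset.sum_le_sum_of_subset_of_nonneg (Finset.erase_subset _ _) fun q _ _ => by positivity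
          _ = 1 / p * S * N := by
              rw [← Finset.sum_mul, ← Finset.mul_sum, ← hS]
    refine (Finset.sum_le_sum e2).trans (le_of_eq ?_)
    rw [Finset.sum_add_distrib, ← Finset.sum_mul, ← Finset.sum_mul, ← Finset.sum_mul, ← hS]
    ring
  have h3 : ∑ n ∈ Ioc 0 N, (((B.filter fun p => p ∣ n).card : ℝ) - S) ^ 2 =
      ∑ n ∈ Ioc 0 N, ((B.filter fun p => p ∣ n).card : ℝ) ^ 2 -
        2 * S * ∑ n ∈ Ioc 0 N, ((B.filter fun p => p ∣ n).card : ℝ) + S ^ 2 * N := by
    have e1 : ∀ n ∈ Ioc 0 N, (((B.filter fun p => p ∣ n).card : ℝ) - S) ^ 2 =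
        ((B.filter fun p => p ∣ n).card : ℝ) ^ 2 - 2 * S * ((B.filter fun p => p ∣ n).card : ℝ) + S ^ 2 := by
      intro n _
      ring
    rw [Finset.sum_congr rfl e1, Finset.sum_add_distrib, Finset.sum_sub_distrib, ← Finset.mul_sum,
      Finset.sum_const, Nat.card_Ioc, nsmul_eq_mul, Nat.sub_zero]
    push_cast
    ring
  rw [h3]
  have hcr : (B.card : ℝ) ≤ N := by exact_mod_cast hc
  nlinarith [mul_le_mul_of_nonneg_left h1 (by positivity : 0 ≤ 2 * S), mul_le_mul_of_nonneg_left hcr hS0]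

theorem turan (N u y : ℕ) (hu : 1 ≤ u) (B : Finset ℕ) (hB : B ⊆ PP u y) (hc : B.card ≤ N) (m : ℝ)
    (hm : 2 * m ≤ ∑ p ∈ B, (1 : ℝ) / p) (hS : 0 < ∑ p ∈ B, (1 : ℝ) / p) :
    (((Ioc 0 N).filter fun n => ((ones B n).card : ℝ) < m).card : ℝ) ≤
      (12 / (∑ p ∈ B, (1 : ℝ) / p) + 1 / u) * N := by
  classical
  have hBp : ∀ p ∈ B, p.Prime := fun p hp => (mem_PP.1 (hB hp)).2
  set S : ℝ := ∑ p ∈ B, (1 : ℝ) / p with hSdef
  have hsub : ((Ioc 0 N).filter fun n => ((ones B n).card : ℝ) < m) ⊆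
      ((Ioc 0 N).filter fun n => ((B.filter fun p => p ∣ n).card : ℝ) < m) ∪
        B.biUnion fun p => (Ioc 0 N).filter fun n => p ^ 2 ∣ n := by
    intro n hn
    obtain ⟨h1, h2⟩ := Finset.mem_filter.1 hn
    by_cases h3 : ∃ p ∈ B, p ^ 2 ∣ n
    · obtain ⟨p, hp, h4⟩ := h3
      exact Finset.mem_union_right _ (Finset.mem_biUnion.2 ⟨p, hp, Finset.mem_filter.2 ⟨h1, h4⟩⟩)
    · refine Finset.mem_union_left _ (Finset.mem_filter.2 ⟨h1, ?_⟩)
      have h5 : (B.filter fun p => p ∣ n) ⊆ ones B n := by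
        intro p hp
        obtain ⟨h6, h7⟩ := Finset.mem_filter.1 hp
        refine Finset.mem_filter.2 ⟨h6, ?_⟩
        have hn0 : n ≠ 0 := by
          have := (Finset.mem_Ioc.1 h1).1
          omega
        have h8 : 1 ≤ n.factorization p := (hBp p h6).factorization_pos_of_dvd hn0 h7
        have h9 : ¬ 2 ≤ n.factorization p := by
          intro h10
          exact h3 ⟨p, h6, (Nat.Prime.pow_dvd_iff_le_factorization (hBp p h6) hn0).2 h10⟩
        omega
      have h6 : ((B.filter fun p => p ∣ n).card : ℝ) ≤ (ones B n).card := by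
        exact_mod_cast Finset.card_le_card h5
      linarith
  have h1 : (((Ioc 0 N).filter fun n => ((B.filter fun p => p ∣ n).card : ℝ) < m).card : ℝ) ≤ 12 / S * N := by
    have h2 := second N B hBp hc
    rw [← hSdef] at h2
    have h3 : (((Ioc 0 N).filter fun n => ((B.filter fun p => p ∣ n).card : ℝ) < m).card : ℝ) * (S / 2) ^ 2 ≤
        ∑ n ∈ Ioc 0 N, (((B.filter fun p => p ∣ n).card : ℝ) - S) ^ 2 := by
      rw [← nsmul_eq_mul, ← Finset.sum_const]
      refine (Finset.sum_le_sum (g := fun n => (((B.filter fun p => p ∣ n).card : ℝ) - S) ^ 2)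
        fun n hn => ?_).trans (Finset.sum_le_sum_of_subset_of_nonneg (Finset.filter_subset _ _)
          fun n _ _ => sq_nonneg _)
      have h4 := (Finset.mem_filter.1 hn).2
      have h5 : S / 2 ≤ S - ((B.filter fun p => p ∣ n).card : ℝ) := by linarith
      calc (S / 2) ^ 2 ≤ (S - ((B.filter fun p => p ∣ n).card : ℝ)) ^ 2 :=
            pow_le_pow_left₀ (by linarith) h5 2
        _ = _ := by ring
    have h4 := h3.trans h2
    have h5 : (((Ioc 0 N).filter fun n => ((B.filter fun p => p ∣ n).card : ℝ) < m).card : ℝ) * (S / 2) ^ 2 * 4 / S ≤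
        3 * S * N * 4 / S := by gcongr
    have e1 : (3 : ℝ) * S * N * 4 / S = 12 * N := by field_simp; ring
    have e2 : (((Ioc 0 N).filter fun n => ((B.filter fun p => p ∣ n).card : ℝ) < m).card : ℝ) * (S / 2) ^ 2 * 4 / S =
        (((Ioc 0 N).filter fun n => ((B.filter fun p => p ∣ n).card : ℝ) < m).card : ℝ) * S := by
      field_simp
      ring
    rw [e1, e2] at h5
    rw [div_mul_eq_mul_div, le_div_iff₀ hS]
    exact h5
  have h2 : ((B.biUnion fun p => (Ioc 0 N).filter fun n => p ^ 2 ∣ n).card : ℝ) ≤ 1 / u * N := by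
    have h3 : ((B.biUnion fun p => (Ioc 0 N).filter fun n => p ^ 2 ∣ n).card : ℝ) ≤
        ∑ p ∈ B, (((Ioc 0 N).filter fun n => p ^ 2 ∣ n).card : ℝ) := by
      exact_mod_cast Finset.card_biUnion_le
    refine h3.trans ?_
    have h4 : ∑ p ∈ B, (((Ioc 0 N).filter fun n => p ^ 2 ∣ n).card : ℝ) ≤ ∑ p ∈ B, 1 / (p : ℝ) ^ 2 * N := by
      refine Finset.sum_le_sum fun p _ => ?_
      rw [Nat.Ioc_filter_dvd_card_eq_div]
      refine Nat.cast_div_le.trans (le_of_eq ?_)
      push_cast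
      ring
    refine h4.trans ?_
    rw [← Finset.sum_mul]
    refine mul_le_mul_of_nonneg_right ?_ (Nat.cast_nonneg _)
    refine (Finset.sum_le_sum_of_subset_of_nonneg hB fun p _ _ => by positivity).trans ?_
    exact Pool.Agent.W479.TLClaim.sum_inv_sq hu
  have h3 : (((Ioc 0 N).filter fun n => ((ones B n).card : ℝ) < m).card : ℝ) ≤
      (((Ioc 0 N).filter fun n => ((B.filter fun p => p ∣ n).card : ℝ) < m).card : ℝ) +
        ((B.biUnion fun p => (Ioc 0 N).filter fun n => p ^ 2 ∣ n).card : ℝ) := by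
    exact_mod_cast (Finset.card_le_card hsub).trans (Finset.card_union_le _ _)
  rw [add_mul]
  linarith

end Pool.Agent.Q163.AD
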