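import Pool.Agent.Q163.AD.Law
import Pool.Agent.Q163.AD.Turan
import Pool.Agent.W591.TL.Law
import Pool.Agent.W208.TL.St

/-!
# The joint law of the parts of linear forms, real version
-/

set_option autoImplicit false

namespace Pool.Agent.Q163.AD

open Finset Pool.Agent.Q163.RX Pool.Agent.Q163.BC Pool.Agent.W208.TL

theorem claimR (k : ℕ) (hk : 1 ≤ k) (ε : ℝ) (hε : 0 < ε) : ∃ K1 K w0 : ℕ, 1 ≤ K1 ∧ 1 ≤ K ∧
    ∀ w : ℕ, w0 ≤ w → ∃ y0 : ℕ, ∀ y : ℕ, y0 ≤ y →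
      |∑ d ∈ Icc 1 (y ^ K1), mu w y d - 1| ≤ ε ∧
      ∀ (α : Fin k → ℕ) (β : Fin k → ℤ), Indep w α β → ∀ N : ℕ, y ^ K ≤ N →
      ∀ Ψ : (Fin k → ℕ) → ℝ, (∀ d, |Ψ d| ≤ 1) →
        |(∑ n ∈ Ioc 0 N, Ψ fun i => sm w y (lf (α i) (β i) n)) / N -
          ∑ d ∈ box k (y ^ K1), Ψ d * ∏ i, mu w y (d i)| ≤ ε := by
  obtain ⟨K1, K, w0, hK1, hK, h⟩ := Pool.Agent.W479.TLClaim.claim Pool.Agent.W591.TL.law
    Pool.Agent.W975.TL.tail k hk ε hε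
  refine ⟨K1, K, w0, hK1, hK, fun w hw => ?_⟩
  obtain ⟨y0, hy0⟩ := h w 1 hw le_rfl (by
    intro l hl h1
    exact absurd (Nat.dvd_one.1 h1) hl.one_lt.ne')
  refine ⟨y0, fun y hy => ?_⟩
  obtain ⟨h1, h2⟩ := hy0 y hy
  refine ⟨h1, fun α β hI N hN Ψ hΨ => ?_⟩
  have h3 := h2 α β hI 0 N hN (fun d => ((Ψ d : ℝ) : ℂ)) (fun d => by
    rw [Complex.norm_real, Real.norm_eq_abs]
    exact hΨ d)
  have h4 : (Ioc 0 N).filter (fun m => m ≡ 0 [MOD 1]) = Ioc 0 N := by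
    refine Finset.filter_true_of_mem fun m _ => ?_
    exact Nat.modEq_one
  rw [h4] at h3
  have h5 : ((1 : ℕ) : ℂ) / (N : ℂ) * ∑ m ∈ Ioc 0 N, ((Ψ fun i => sm w y (lf (α i) (β i) m) : ℝ) : ℂ) -
      ∑ d ∈ box k (y ^ K1), ((Ψ d : ℝ) : ℂ) * ∏ i, (mu w y (d i) : ℂ) =
      (((∑ n ∈ Ioc 0 N, Ψ fun i => sm w y (lf (α i) (β i) n)) / N -
          ∑ d ∈ box k (y ^ K1), Ψ d * ∏ i, mu w y (d i) : ℝ) : ℂ) := by
    push_cast
    ring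
  rw [h5, Complex.norm_real, Real.norm_eq_abs] at h3
  exact h3

lemma box_oneR {J w y Z : ℕ} (i0 : Fin J) (ψ : ℕ → ℝ) :
    ∑ D ∈ box J Z, ψ (D i0) * ∏ i, mu w y (D i) =
      (∑ d ∈ Icc 1 Z, ψ d * mu w y d) * (∑ d ∈ Icc 1 Z, mu w y d) ^ (J - 1) := by
  have h := box_one (w := w) (y := y) (Z := Z) i0 (fun n => ((ψ n : ℝ) : ℂ))
  exact_mod_cast h

/-- the law of one part, from the joint law -/
lemma one {k : ℕ} (hk : 1 ≤ k) {ε : ℝ} (hε : 0 < ε) (hε1 : ε ≤ 1) {w y Z N : ℕ} (hN : 1 ≤ N) {α : Fin k → ℕ} {β : Fin k → ℤ}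
    (hm : |∑ d ∈ Icc 1 Z, mu w y d - 1| ≤ ε)
    (h : ∀ Ψ : (Fin k → ℕ) → ℝ, (∀ d, |Ψ d| ≤ 1) →
        |(∑ n ∈ Ioc 0 N, Ψ fun i => sm w y (lf (α i) (β i) n)) / N -
          ∑ d ∈ box k Z, Ψ d * ∏ i, mu w y (d i)| ≤ ε) (i : Fin k) (ψ : ℕ → ℝ) (hψ : ∀ d, |ψ d| ≤ 1) :
    |(∑ n ∈ Ioc 0 N, ψ (sm w y (lf (α i) (β i) n))) / N - ∑ d ∈ Icc 1 Z, ψ d * mu w y d| ≤ 3 * ε := by
  have h1 := h (fun d => ψ (d i)) (fun d => hψ _)
  have h2 := h (fun _ => 1) (fun _ => by norm_num)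
  rw [box_oneR i ψ] at h1
  have h3 := box_oneR (w := w) (y := y) (Z := Z) i (fun _ => (1 : ℝ))
  rw [h3] at h2
  simp only [one_mul] at h2
  set s := ∑ d ∈ Icc 1 Z, mu w y d with hs
  have hs0 : 0 ≤ s := Finset.sum_nonneg fun d _ => mu_nonneg w y d
  have hNr : (0 : ℝ) < N := by exact_mod_cast hN
  have h4 : (∑ _n ∈ Ioc 0 N, (1 : ℝ)) / N = 1 := by
    rw [Finset.sum_const, Nat.card_Ioc, nsmul_eq_mul, mul_one, Nat.sub_zero, div_self hNr.ne']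
  rw [h4] at h2
  have h5 : s * s ^ (k - 1) = s ^ ((k - 1) + 1) := by rw [pow_succ, mul_comm]
  have h6 := pow_dist hs0 (k - 1)
  rw [← h5] at h6
  have h7 : |s * s ^ (k - 1) - 1| ≤ ε := by rw [abs_sub_comm]; exact h2
  have h8 : |∑ d ∈ Icc 1 Z, ψ d * mu w y d| ≤ s := by
    refine (Finset.abs_sum_le_sum_abs _ _).trans (Finset.sum_le_sum fun d _ => ?_)
    rw [abs_mul, abs_of_nonneg (mu_nonneg w y d)]
    exact mul_le_of_le_one_left (mu_nonneg w y d) (hψ d)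
  have h9 : s ≤ 2 := by
    have := (abs_le.1 hm).2
    linarith
  have h10 : |(∑ d ∈ Icc 1 Z, ψ d * mu w y d) * s ^ (k - 1) - ∑ d ∈ Icc 1 Z, ψ d * mu w y d| ≤ 2 * ε := by
    have e : (∑ d ∈ Icc 1 Z, ψ d * mu w y d) * s ^ (k - 1) - ∑ d ∈ Icc 1 Z, ψ d * mu w y d =
        (∑ d ∈ Icc 1 Z, ψ d * mu w y d) * (s ^ (k - 1) - 1) := by ring
    rw [e, abs_mul]
    have h11 : |s ^ (k - 1) - 1| ≤ ε := h6.trans h7
    calc |∑ d ∈ Icc 1 Z, ψ d * mu w y d| * |s ^ (k - 1) - 1| ≤ 2 * ε :=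
        mul_le_mul (h8.trans h9) h11 (abs_nonneg _) (by norm_num)
      _ = 2 * ε := rfl
  have h11 := abs_sub_le ((∑ n ∈ Ioc 0 N, ψ (sm w y (lf (α i) (β i) n))) / N)
    ((∑ d ∈ Icc 1 Z, ψ d * mu w y d) * s ^ (k - 1)) (∑ d ∈ Icc 1 Z, ψ d * mu w y d)
  linarith

/-- **one point**: the value at the part is as good as the value -/
theorem point {k : ℕ} (h : ℕ → ℤ) {K : ℝ} (hK : ∀ p, p.Prime → |(h p : ℝ)| ≤ K) (hK0 : 0 ≤ K) (P : Set ℕ) (ω : ℕ → Bool)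
    {w u y A L : ℕ} (hwu : w ≤ u) (hy : 2 ≤ y) (hwy : w ≤ y) (B : Finset ℕ) (hB : B ⊆ PP u y) (hBP : ∀ p ∈ B, p ∈ P)
    (I : Finset ℤ) (G : (Fin k → ℤ) → ℝ) (hG : ∀ ℓ, |G ℓ| ≤ 1) (m : Fin k → ℕ) (hm : ∀ i, m i ≠ 0)
    (hcop : ∀ i j, i ≠ j → ∀ p, p.Prime → w < p → p ∣ m i → ¬ p ∣ m j)
    (hI : ∀ i, ∀ d, d ∣ m i → ∀ T : Finset ℕ, rf h P (flS T ω) d ∈ I)
    (hA : ∀ i, m i ≤ y ^ A) (hL : ∀ i, sm 0 w (m i) ≤ 2 ^ L) (c : ℝ) (hc : 1 ≤ c)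
    (hones : ∀ i, c ≤ ((ones B (m i)).card : ℝ)) :
    |(av B fun T => G fun i => rf h P (flS T ω) (m i)) - psi h P ω B I G fun i => sm w y (m i)| ≤
      k * (2 * ((K + 1) * (L + A : ℕ)) / Real.sqrt c) := by
  have hBpr : ∀ p ∈ B, p.Prime := fun p hp => (mem_PP.1 (hB hp)).2
  have hBw : ∀ p ∈ B, p ∈ PP w y := by
    intro p hp
    obtain ⟨⟨h1, h2⟩, h3⟩ := mem_PP.1 (hB hp)
    exact mem_PP.2 ⟨⟨by omega, h2⟩, h3⟩
  have hdm : ∀ i, sm w y (m i) ∣ m i := fun i => sm_dvd w y (hm i)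
  rw [← psi_eq h P ω B hBpr I G (fun i => sm w y (m i)) (by
    intro i j hij p hp h1 h2
    have h3 := mem_PP.1 (hBw p hp)
    exact hcop i j hij p h3.2 h3.1.1 (h1.trans (hdm i)) (h2.trans (hdm j)))
    (fun T i => hI i _ (hdm i) T)]
  refine hyb B (fun i T => rf h P (flS T ω) (m i)) (fun i T => rf h P (flS T ω) (sm w y (m i)))
    (fun i => ones B (m i)) (fun i => Finset.filter_subset _ _) (fun i => rf h P ω (rest w y (m i))) ?_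
    (sy ω) (sy_or ω) ?_ ?_ G hG c ((K + 1) * (L + A : ℕ)) hc hones ?_
  · intro i T hT
    conv_lhs => rw [split_rest hwy (hm i)]
    rw [rf_mul h P _ (sm_ne _ _ _) (rest_ne (hm i))]
    congr 1
    refine rf_fl_none h P ω fun p hp h1 => ?_
    have h2 := rest_fact hwy (hm i) (hBw p (hT h1))
    rw [← Nat.support_factorization, Finsupp.mem_support_iff] at hp
    exact hp h2
  · intro i p hp T _ hpT
    obtain ⟨hpB, hp1⟩ := Finset.mem_filter.1 hp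
    refine rf_insert h P ω (hBP p hpB) ?_ hpT
    rw [fact_sm, if_pos (hBw p hpB)]
    exact hp1
  · intro i j hij p hp T _ _
    obtain ⟨hpB, hp1⟩ := Finset.mem_filter.1 hp
    have hpp := mem_PP.1 (hBw p hpB)
    have hpj : p ∣ m j := by
      by_contra hcon
      rw [Nat.factorization_eq_zero_of_not_dvd hcon] at hp1
      exact zero_ne_one hp1
    have hpi : ¬ p ∣ m i := hcop j i hij.symm p hpp.2 hpp.1.1 hpj
    have key : ∀ d, d ∣ m i → rf h P (flS ((insert p T : Finset ℕ) : Set ℕ) ω) d = rf h P (flS T ω) d := by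
      intro d hd
      refine rf_fl_congr h P ω fun q hq => ?_
      rw [Finset.mem_insert]
      constructor
      · rintro (h1 | h1)
        · exact absurd ((h1 ▸ Nat.dvd_of_mem_primeFactors hq : p ∣ d).trans hd) hpi
        · exact h1
      · exact Or.inr
    exact ⟨key _ dvd_rfl, key _ (hdm i)⟩
  · intro i
    refine (abs_rf hK P ω _).trans ?_
    refine mul_le_mul_of_nonneg_left ?_ (by linarith)
    exact_mod_cast om_rest hy (hm i) (hA i) (hL i)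

end Pool.Agent.Q163.AD
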