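import Pool.Agent.Q163.AD.Det

/-!
# Concentration around the averages over the flips of a block
-/

set_option autoImplicit false

namespace Pool.Agent.Q163.AD

open Finset MeasureTheory Pool.Agent.Q163.RX Pool.Agent.Q163.BC Pool.Agent.W208.TL

lemma flS_comm (S T : Set ℕ) (ω : ℕ → Bool) : flS T (flS S ω) = flS S (flS T ω) := by
  funext i
  unfold flS
  by_cases h1 : i ∈ S <;> by_cases h2 : i ∈ T <;> simp [h1, h2]

lemma flS_split (T M : Finset ℕ) (ω : ℕ → Bool) :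
    flS T ω = flS ((T \ M : Finset ℕ) : Set ℕ) (flS ((T ∩ M : Finset ℕ) : Set ℕ) ω) := by
  funext i
  unfold flS
  by_cases h1 : i ∈ T <;> by_cases h2 : i ∈ M <;> simp [h1, h2]

/-- the difference with the average over the flips in `B` -/
noncomputable def dv (B : Finset ℕ) (X : (ℕ → Bool) → ℝ) (ω : ℕ → Bool) : ℝ := X ω - av B fun T => X (flS T ω)

lemma dv_inv {B : Finset ℕ} {X : (ℕ → Bool) → ℝ} {S : Finset ℕ} (h : ∀ ω, X (flS S ω) = X ω) (ω : ℕ → Bool) :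
    dv B X (flS S ω) = dv B X ω := by
  unfold dv
  rw [h ω]
  congr 1
  refine av_congr fun T _ => ?_
  rw [flS_comm, h]

lemma dv_bound {B : Finset ℕ} {X : (ℕ → Bool) → ℝ} (h : ∀ ω, |X ω| ≤ 1) (ω : ℕ → Bool) : |dv B X ω| ≤ 2 := by
  unfold dv
  refine (abs_sub _ _).trans ?_
  have h1 : |av B fun T => X (flS T ω)| ≤ 1 := abs_av_le_of fun T _ => h _
  linarith [h ω]

lemma meas_dv {B : Finset ℕ} {X : (ℕ → Bool) → ℝ} (h : Measurable X) : Measurable (dv B X) := by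
  unfold dv av
  refine h.sub (Measurable.div_const (Finset.measurable_fun_sum _ fun T _ => ?_) _)
  exact h.comp (mp_flS _).measurable

lemma integrable_of {f : (ℕ → Bool) → ℝ} (hm : Measurable f) {C : ℝ} (hC : ∀ ω, |f ω| ≤ C) : Integrable f cm :=
  Integrable.of_bound hm.aestronglyMeasurable C (Filter.Eventually.of_forall fun ω => by
    rw [Real.norm_eq_abs]
    exact hC ω)

lemma flS_invol (S : Set ℕ) (ω : ℕ → Bool) : flS S (flS S ω) = ω := by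
  funext i
  unfold flS
  by_cases h1 : i ∈ S <;> simp [h1]

lemma int_flS (S : Set ℕ) (g : (ℕ → Bool) → ℝ) : ∫ ω, g (flS S ω) ∂cm = ∫ ω, g ω ∂cm := by
  have h := (mp_flS S).integral_comp' (f := (MeasurableEquiv.ofInvolutive (flS S) (flS_invol S)
    (mp_flS S).measurable)) g
  exact h

theorem orth {B M M' : Finset ℕ} (hd : Disjoint M M') {X Y : (ℕ → Bool) → ℝ} (hX : ∀ ω, |X ω| ≤ 1)
    (hY : ∀ ω, |Y ω| ≤ 1) (hXm : Measurable X) (hYm : Measurable Y)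
    (hXi : ∀ ω (S : Finset ℕ), S ⊆ B → Disjoint S M → X (flS S ω) = X ω)
    (hYi : ∀ ω (S : Finset ℕ), S ⊆ B → Disjoint S M' → Y (flS S ω) = Y ω) :
    ∫ ω, dv B X ω * dv B Y ω ∂cm = 0 := by
  have hterm : ∀ T, T ⊆ B → ∫ ω, dv B X ω * Y (flS T ω) ∂cm = ∫ ω, dv B X ω * Y ω ∂cm := by
    intro T hT
    have h1 : ∀ ω, dv B X ω * Y (flS T ω) =
        (fun ω => dv B X ω * Y ω) (flS ((T ∩ M' : Finset ℕ) : Set ℕ) ω) := by
      intro ω
      show dv B X ω * Y (flS T ω) = dv B X (flS ((T ∩ M' : Finset ℕ) : Set ℕ) ω) *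
        Y (flS ((T ∩ M' : Finset ℕ) : Set ℕ) ω)
      rw [dv_inv (fun ω' => hXi ω' (T ∩ M') (Finset.inter_subset_left.trans hT)
        (Finset.disjoint_of_subset_left Finset.inter_subset_right hd.symm)) ω, flS_split T M' ω,
        hYi _ (T \ M') (Finset.sdiff_subset.trans hT) Finset.sdiff_disjoint]
    simp_rw [h1]
    exact int_flS _ (fun ω => dv B X ω * Y ω)
  have hb : ∀ Z : (ℕ → Bool) → ℝ, (∀ ω, |Z ω| ≤ 1) → Measurable Z → Integrable (fun ω => dv B X ω * Z ω) cm := by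
    intro Z hZ hZm
    refine integrable_of ((meas_dv hXm).mul hZm) (C := 2) fun ω => ?_
    rw [abs_mul]
    have h1 := dv_bound (B := B) hX ω
    have h2 := hZ ω
    nlinarith [abs_nonneg (dv B X ω), abs_nonneg (Z ω)]
  have h2 : ∀ ω, dv B X ω * dv B Y ω = dv B X ω * Y ω - (∑ T ∈ B.powerset, dv B X ω * Y (flS T ω)) / 2 ^ B.card := by
    intro ω
    rw [← Finset.mul_sum]
    have e : dv B Y ω = Y ω - (∑ T ∈ B.powerset, Y (flS T ω)) / 2 ^ B.card := rfl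
    rw [e]
    ring
  simp_rw [h2]
  have hbT : ∀ T ∈ B.powerset, Integrable (fun ω => dv B X ω * Y (flS (T : Set ℕ) ω)) cm := fun T _ =>
    hb (fun ω => Y (flS T ω)) (fun ω => hY _) (hYm.comp (mp_flS _).measurable)
  rw [integral_sub (hb Y hY hYm) ((integrable_finsetSum _ hbT).div_const _), integral_div,
    integral_finsetSum _ hbT, Finset.sum_congr rfl fun T hT => hterm T (Finset.mem_powerset.1 hT),
    Finset.sum_const, Finset.card_powerset, nsmul_eq_mul]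
  push_cast
  field_simp
  ring

theorem conc {ι : Type*} [DecidableEq ι] (Λ : Finset ι) (B : Finset ℕ) (s : Finset ℕ) (M : ℕ → Finset ℕ)
    (V : ℕ → (ℕ → Bool) → ι)
    (hV : ∀ n ω (S : Finset ℕ), S ⊆ B → Disjoint S (M n) → V n (flS S ω) = V n ω)
    (hm : ∀ n ℓ, Measurable fun ω => (if V n ω = ℓ then (1 : ℝ) else 0)) :
    ∫ ω, ∑ ℓ ∈ Λ, (∑ n ∈ s, dv B (fun ω => if V n ω = ℓ then (1 : ℝ) else 0) ω) ^ 2 ∂cm ≤
      4 * (((s ×ˢ s).filter fun q => ¬ Disjoint (M q.1) (M q.2)).card : ℝ) := by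
  classical
  set X : ℕ → ι → (ℕ → Bool) → ℝ := fun n ℓ ω => if V n ω = ℓ then (1 : ℝ) else 0 with hX
  have hX1 : ∀ n ℓ ω, |X n ℓ ω| ≤ 1 := by
    intro n ℓ ω
    simp only [hX]
    split_ifs <;> simp
  have hXs : ∀ n ω, ∑ ℓ ∈ Λ, X n ℓ ω ≤ 1 := by
    intro n ω
    simp only [hX]
    rw [Finset.sum_ite_eq]
    split_ifs <;> norm_num
  have hX0 : ∀ n ℓ ω, 0 ≤ X n ℓ ω := by
    intro n ℓ ω
    simp only [hX]
    split_ifs <;> norm_num
  have hdv : ∀ n ω, ∑ ℓ ∈ Λ, |dv B (X n ℓ) ω| ≤ 2 := by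
    intro n ω
    have h1 : ∀ ℓ, |dv B (X n ℓ) ω| ≤ X n ℓ ω + av B fun T => X n ℓ (flS T ω) := by
      intro ℓ
      unfold dv
      refine (abs_sub _ _).trans ?_
      rw [abs_of_nonneg (hX0 n ℓ ω), abs_of_nonneg (av_nonneg fun T _ => hX0 n ℓ _)]
    refine (Finset.sum_le_sum fun ℓ _ => h1 ℓ).trans ?_
    rw [Finset.sum_add_distrib, ← av_sum]
    have h2 : (av B fun T => ∑ ℓ ∈ Λ, X n ℓ (flS T ω)) ≤ 1 := by
      refine (av_mono (ψ := fun _ => 1) fun T _ => hXs n _).trans_eq (av_const B 1)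
    linarith [hXs n ω]
  have hint : ∀ n m ℓ, Integrable (fun ω => dv B (X n ℓ) ω * dv B (X m ℓ) ω) cm := by
    intro n m ℓ
    refine integrable_of ((meas_dv (hm n ℓ)).mul (meas_dv (hm m ℓ))) (C := 4) fun ω => ?_
    rw [abs_mul]
    have h1 := dv_bound (B := B) (hX1 n ℓ) ω
    have h2 := dv_bound (B := B) (hX1 m ℓ) ω
    nlinarith [abs_nonneg (dv B (X n ℓ) ω), abs_nonneg (dv B (X m ℓ) ω)]
  have h1 : ∀ ω, ∑ ℓ ∈ Λ, (∑ n ∈ s, dv B (X n ℓ) ω) ^ 2 =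
      ∑ q ∈ s ×ˢ s, ∑ ℓ ∈ Λ, dv B (X q.1 ℓ) ω * dv B (X q.2 ℓ) ω := by
    intro ω
    rw [Finset.sum_comm]
    refine Finset.sum_congr rfl fun ℓ _ => ?_
    rw [sq, Finset.sum_mul_sum, ← Finset.sum_product']
  have h2 : (∫ ω, ∑ ℓ ∈ Λ, (∑ n ∈ s, dv B (X n ℓ) ω) ^ 2 ∂cm) =
      ∑ q ∈ s ×ˢ s, ∫ ω, ∑ ℓ ∈ Λ, dv B (X q.1 ℓ) ω * dv B (X q.2 ℓ) ω ∂cm := by
    simp_rw [h1]
    exact integral_finsetSum _ fun q _ => integrable_finsetSum _ fun ℓ _ => hint q.1 q.2 ℓ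
  rw [h2]
  have h3 : ∀ q ∈ s ×ˢ s, (∫ ω, ∑ ℓ ∈ Λ, dv B (X q.1 ℓ) ω * dv B (X q.2 ℓ) ω ∂cm) ≤
      if ¬ Disjoint (M q.1) (M q.2) then 4 else 0 := by
    intro q _
    by_cases hd : Disjoint (M q.1) (M q.2)
    · rw [if_neg (not_not.2 hd), integral_finsetSum _ fun ℓ _ => hint q.1 q.2 ℓ]
      refine le_of_eq (Finset.sum_eq_zero fun ℓ _ => ?_)
      refine orth hd (hX1 _ _) (hX1 _ _) (hm _ _) (hm _ _) (fun ω S hS hSM => ?_) (fun ω S hS hSM => ?_)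
      · simp only [hX]
        rw [hV _ ω S hS hSM]
      · simp only [hX]
        rw [hV _ ω S hS hSM]
    · rw [if_pos hd]
      have h4 : ∀ ω, ∑ ℓ ∈ Λ, dv B (X q.1 ℓ) ω * dv B (X q.2 ℓ) ω ≤ 4 := by
        intro ω
        calc ∑ ℓ ∈ Λ, dv B (X q.1 ℓ) ω * dv B (X q.2 ℓ) ω
            ≤ ∑ ℓ ∈ Λ, |dv B (X q.1 ℓ) ω| * |dv B (X q.2 ℓ) ω| := by
              refine Finset.sum_le_sum fun ℓ _ => ?_
              rw [← abs_mul]
              exact le_abs_self _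
          _ ≤ ∑ ℓ ∈ Λ, |dv B (X q.1 ℓ) ω| * 2 := by
              refine Finset.sum_le_sum fun ℓ _ => mul_le_mul_of_nonneg_left (dv_bound (hX1 _ _) ω) (abs_nonneg _)
          _ ≤ 4 := by
              rw [← Finset.sum_mul]
              linarith [hdv q.1 ω]
      have h5 : (∫ ω, ∑ ℓ ∈ Λ, dv B (X q.1 ℓ) ω * dv B (X q.2 ℓ) ω ∂cm) ≤ ∫ _ω, (4 : ℝ) ∂cm :=
        integral_mono (integrable_finsetSum _ fun ℓ _ => hint q.1 q.2 ℓ) (integrable_const _) h4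
      simpa using h5
  refine (Finset.sum_le_sum h3).trans (le_of_eq ?_)
  rw [← Finset.sum_filter, Finset.sum_const, nsmul_eq_mul]
  ring

end Pool.Agent.Q163.AD
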