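import Pool.Agent.Q163.AD.Claim

/-!
# The averages over the flips of a block of coins
-/

set_option autoImplicit false

namespace Pool.Agent.Q163.AD

open Finset Pool.Agent.Q163.RX Pool.Agent.Q163.BC Pool.Agent.W208.TL

lemma indep_cop {k w : ℕ} {α β : Fin k → ℕ} (hI : Indep w α (fun i => (β i : ℤ))) (n : ℕ) :
    ∀ i j, i ≠ j → ∀ p, p.Prime → w < p → p ∣ α i * n + β i → ¬ p ∣ α j * n + β j := by
  intro i j hij p hp hwp h1 h2
  have h3 : (p : ℤ) ∣ (α i : ℤ) * (β j : ℤ) - (α j : ℤ) * (β i : ℤ) := by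
    have e1 : (p : ℤ) ∣ ((α i * n + β i : ℕ) : ℤ) := Int.natCast_dvd_natCast.2 h1
    have e2 : (p : ℤ) ∣ ((α j * n + β j : ℕ) : ℤ) := Int.natCast_dvd_natCast.2 h2
    have e3 : (α i : ℤ) * (β j : ℤ) - (α j : ℤ) * (β i : ℤ) =
        (α i : ℤ) * ((α j * n + β j : ℕ) : ℤ) - (α j : ℤ) * ((α i * n + β i : ℕ) : ℤ) := by
      push_cast
      ring
    rw [e3]
    exact dvd_sub (Dvd.dvd.mul_left e2 _) (Dvd.dvd.mul_left e1 _)
  exact (hI.2 p hp hwp).2 i j hij h3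

lemma indep_of {k w c : ℕ} {α β : Fin k → ℕ} (hα : ∀ i, 1 ≤ α i) (hαβ : ∀ i j, i ≠ j → α i * β j ≠ α j * β i)
    (hc : ∀ i, α i + β i ≤ c) (hw : c ≤ w) (hw2 : c * c ≤ w) : Indep w α (fun i => (β i : ℤ)) := by
  refine ⟨hα, fun l _ hwl => ⟨fun i hd => ?_, fun i j hij => ?_⟩⟩
  · have h1 := Nat.le_of_dvd (hα i) hd
    have h2 := hc i
    omega
  · have h1 : α i * β j ≤ c * c := Nat.mul_le_mul (by have := hc i; omega) (by have := hc j; omega)
    have h2 : α j * β i ≤ c * c := Nat.mul_le_mul (by have := hc j; omega) (by have := hc i; omega)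
    have h3 := hαβ i j hij
    have e : (α i : ℤ) * (β j : ℤ) - (α j : ℤ) * (β i : ℤ) = ((α i * β j : ℕ) : ℤ) - ((α j * β i : ℕ) : ℤ) := by
      push_cast
      rfl
    show ¬ (l : ℤ) ∣ (α i : ℤ) * (β j : ℤ) - (α j : ℤ) * (β i : ℤ)
    rw [e]
    generalize α i * β j = a at *
    generalize α j * β i = b at *
    refine not_dvd_small hwl ?_ ?_ <;> omega

lemma ones_sm {w y : ℕ} {B : Finset ℕ} (hB : B ⊆ PP w y) (n : ℕ) : ones B (sm w y n) = ones B n := by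
  unfold ones
  refine Finset.filter_congr fun p hp => ?_
  rw [fact_sm, if_pos (hB hp)]

lemma tail_form {C : ℝ} (hC : ∀ X y Z : ℕ, 2 ≤ y → 2 ≤ Z →
      (((Ioc 0 X).filter (fun n => Z < sm 0 y n)).card : ℝ) ≤ C * Real.log y / Real.log Z * X)
    {a b c w Z N : ℕ} (ha : 1 ≤ a) (hc : a + b ≤ c) (hw : 2 ≤ w) (hZ : 2 ≤ Z) :
    (((Ioc 0 N).filter fun n => Z < sm 0 w (a * n + b)).card : ℝ) ≤
      C * Real.log w / Real.log Z * ((c * N : ℕ) : ℝ) := by
  refine le_trans ?_ (hC (c * N) w Z hw hZ)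
  refine Nat.cast_le.2 (Finset.card_le_card_of_injOn (fun n => a * n + b) ?_ ?_)
  · intro n hn
    obtain ⟨h1, h2⟩ := Finset.mem_filter.1 (Finset.mem_coe.1 hn)
    rw [Finset.mem_Ioc] at h1
    refine Finset.mem_coe.2 (Finset.mem_filter.2 ⟨Finset.mem_Ioc.2 ⟨?_, ?_⟩, h2⟩)
    · have : 1 * 1 ≤ a * n := Nat.mul_le_mul ha h1.1
      show 0 < a * n + b
      omega
    · show a * n + b ≤ c * N
      calc a * n + b ≤ a * n + b * n := by nlinarith [h1.1]
        _ = (a + b) * n := by ring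
        _ ≤ c * N := Nat.mul_le_mul hc h1.2
  · intro m _ n _ hmn
    have h1 : a * m + b = a * n + b := hmn
    have h2 : a * m = a * n := by omega
    exact Nat.eq_of_mul_eq_mul_left ha h2

lemma avg_near {N : ℕ} (hN : 1 ≤ N) (F F' : ℕ → ℝ) (Bad : Finset ℕ) {δ b : ℝ} (hδ : 0 ≤ δ)
    (hF : ∀ n, |F n| ≤ 1) (hF' : ∀ n, |F' n| ≤ 1) (hgood : ∀ n ∈ Ioc 0 N, n ∉ Bad → |F n - F' n| ≤ δ)
    (hBad : (Bad.card : ℝ) ≤ b * N) :
    |(∑ n ∈ Ioc 0 N, F n) / N - (∑ n ∈ Ioc 0 N, F' n) / N| ≤ δ + 2 * b := by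
  classical
  have hNr : (0 : ℝ) < N := by exact_mod_cast hN
  rw [← sub_div, ← Finset.sum_sub_distrib, abs_div, abs_of_pos hNr, div_le_iff₀ hNr]
  have h1 : |∑ n ∈ Ioc 0 N, (F n - F' n)| ≤ ∑ n ∈ Ioc 0 N, (δ + if n ∈ Bad then (2 : ℝ) else 0) := by
    refine (Finset.abs_sum_le_sum_abs _ _).trans (Finset.sum_le_sum fun n hn => ?_)
    by_cases h : n ∈ Bad
    · rw [if_pos h]
      have := abs_sub (F n) (F' n)
      have h2 := hF n
      have h3 := hF' n
      linarith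
    · rw [if_neg h, add_zero]
      exact hgood n hn h
  refine h1.trans ?_
  rw [Finset.sum_add_distrib, Finset.sum_const, Nat.card_Ioc, nsmul_eq_mul, Nat.sub_zero, ← Finset.sum_filter,
    Finset.sum_const, nsmul_eq_mul]
  have h2 : (((Ioc 0 N).filter fun n => n ∈ Bad).card : ℝ) ≤ Bad.card :=
    Nat.cast_le.2 (Finset.card_le_card fun n hn => (Finset.mem_filter.1 hn).2)
  nlinarith

lemma psi_fin_one (h : ℕ → ℤ) (P : Set ℕ) (ω : ℕ → Bool) (B : Finset ℕ) (hB : ∀ p ∈ B, p.Prime) (I : Finset ℤ)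
    (g : ℤ → ℝ) (d : ℕ) (hI : ∀ T : Finset ℕ, rf h P (flS T ω) d ∈ I) :
    psi h P ω B I (fun ℓ : Fin 1 → ℤ => g (ℓ 0)) (fun _ => d) = psi1 h P ω B I g d := by
  rw [← psi1_eq h P ω B I g d hI, ← psi_eq h P ω B hB I (fun ℓ : Fin 1 → ℤ => g (ℓ 0)) (fun _ => d)
    (fun i j hij => absurd (Subsingleton.elim i j) hij) (fun T _ => hI T)]

/-- the bad integers of one form -/
lemma bad_form {k : ℕ} {ε : ℝ} {w y Z N : ℕ} (hN : 1 ≤ N) {B : Finset ℕ} (hBw : B ⊆ PP w y) {c0 : ℝ} {s : ℝ}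
    {α β : Fin k → ℕ} {i : Fin k}
    (h1 : ∀ ψ : ℕ → ℝ, (∀ d, |ψ d| ≤ 1) →
      |(∑ n ∈ Ioc 0 N, ψ (sm w y (α i * n + β i))) / N - ∑ d ∈ Icc 1 Z, ψ d * mu w y d| ≤ 3 * ε)
    (h2 : ∀ ψ : ℕ → ℝ, (∀ d, |ψ d| ≤ 1) →
      |(∑ n ∈ Ioc 0 N, ψ (sm w y n)) / N - ∑ d ∈ Icc 1 Z, ψ d * mu w y d| ≤ 3 * ε)
    (h3 : (((Ioc 0 N).filter fun n => ((ones B n).card : ℝ) < c0).card : ℝ) ≤ s * N) :
    (((Ioc 0 N).filter fun n => ((ones B (α i * n + β i)).card : ℝ) < c0).card : ℝ) ≤ (s + 6 * ε) * N := by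
  have hNr : (0 : ℝ) < N := by exact_mod_cast hN
  have hψ : ∀ d : ℕ, |(if ((ones B d).card : ℝ) < c0 then (1 : ℝ) else 0)| ≤ 1 := by
    intro d
    split_ifs <;> simp
  have e : ∀ f : ℕ → ℕ, ∑ n ∈ Ioc 0 N, (if ((ones B (sm w y (f n))).card : ℝ) < c0 then (1 : ℝ) else 0) =
      (((Ioc 0 N).filter fun n => ((ones B (f n)).card : ℝ) < c0).card : ℝ) := by
    intro f
    rw [← Finset.sum_filter, Finset.sum_const, nsmul_eq_mul, mul_one]
    simp_rw [ones_sm hBw]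
  have h4 := h1 (fun d => if ((ones B d).card : ℝ) < c0 then (1 : ℝ) else 0) hψ
  have h5 := h2 (fun d => if ((ones B d).card : ℝ) < c0 then (1 : ℝ) else 0) hψ
  rw [e (fun n => α i * n + β i)] at h4
  rw [e (fun n => n)] at h5
  have h6 : (((Ioc 0 N).filter fun n => ((ones B n).card : ℝ) < c0).card : ℝ) / N ≤ s := by
    rw [div_le_iff₀ hNr]
    exact h3
  rw [← div_le_iff₀ hNr]
  have h7 := (abs_le.1 h4).2
  have h8 := (abs_le.1 h5).1
  linarith

theorem det (k : ℕ) (hk : 1 ≤ k) (α β : Fin k → ℕ) (hα : ∀ i, 1 ≤ α i)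
    (hαβ : ∀ i j, i ≠ j → α i * β j ≠ α j * β i) (c : ℕ) (hc : ∀ i, α i + β i ≤ c) (hc1 : 1 ≤ c)
    (K : ℝ) (hK0 : 0 ≤ K) (η : ℝ) (hη : 0 < η) (hη1 : η ≤ 1) :
    ∃ (w A : ℕ) (S0 : ℝ) (y0 : ℕ), 1 ≤ A ∧ 1 ≤ w ∧ ∀ y N u : ℕ, y0 ≤ y → y ^ A ≤ N → N < (y + 1) ^ A → w ≤ u →
      ∀ h : ℕ → ℤ, (∀ p, p.Prime → |(h p : ℝ)| ≤ K) → ∀ (P : Set ℕ) (B : Finset ℕ), B ⊆ PP u y → (∀ p ∈ B, p ∈ P) →
      S0 ≤ ∑ p ∈ B, (1 : ℝ) / p → ∀ (I : Finset ℤ) (ω : ℕ → Bool),
      (∀ m, m ≠ 0 → m ≤ c * N → ∀ T : Finset ℕ, rf h P (flS T ω) m ∈ I) →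
      ∃ lam : ℤ → ℝ, (∀ x, 0 ≤ lam x) ∧ ∑ x ∈ I, lam x ≤ 1 + η ∧
        (∀ G : (Fin k → ℤ) → ℝ, (∀ ℓ, |G ℓ| ≤ 1) →
          |(av B fun T => (∑ n ∈ Ioc 0 N, G fun i => rf h P (flS T ω) (α i * n + β i)) / N) -
            ∑ ℓ ∈ Fintype.piFinset (fun _ : Fin k => I), G ℓ * ∏ i, lam (ℓ i)| ≤ η) ∧
        (∀ g : ℤ → ℝ, (∀ x, |g x| ≤ 1) →
          |(av B fun T => (∑ n ∈ Ioc 0 N, g (rf h P (flS T ω) n)) / N) - ∑ x ∈ I, g x * lam x| ≤ η) := by
  classical
  have hkr : (1 : ℝ) ≤ k := by exact_mod_cast hk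
  obtain ⟨ε, hεdef⟩ : ∃ ε : ℝ, ε = η / (20 * k + 20) := ⟨_, rfl⟩
  have hε : 0 < ε := by rw [hεdef]; positivity
  have hεη : ε * (20 * k + 20) = η := by rw [hεdef]; field_simp
  have hε1 : ε ≤ 1 := by nlinarith
  obtain ⟨K1, K2, w0, hK1, hK2, hcl⟩ := claimR k hk ε hε
  obtain ⟨C, hC0, hC⟩ := Pool.Agent.W975.TL.tail
  obtain ⟨w1, hw1⟩ := exists_nat_gt (2 / ε)
  obtain ⟨w, hwdef⟩ : ∃ w : ℕ, w = w0 + w1 + k + c + c * c + 2 := ⟨_, rfl⟩
  obtain ⟨y1, hy1⟩ := hcl w (by omega)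
  -- the tail
  obtain ⟨L1, hL1⟩ : ∃ L1 : ℕ, 1 ≤ L1 ∧ C * Real.log w / Real.log ((2 ^ L1 : ℕ) : ℝ) * c ≤ ε := by
    obtain ⟨L1, hL1⟩ := exists_nat_gt (C * Real.log w * c / (ε * Real.log 2))
    have hl2 : 0 < Real.log 2 := Real.log_pos (by norm_num)
    refine ⟨L1 + 1, by omega, ?_⟩
    rw [div_lt_iff₀ (by positivity)] at hL1
    push_cast
    rw [Real.log_pow, div_mul_eq_mul_div, div_le_iff₀ (by positivity)]
    push_cast
    nlinarith [mul_pos hε hl2]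
  obtain ⟨hL1a, hL1b⟩ := hL1
  obtain ⟨E, hEdef⟩ : ∃ E : ℝ, E = (K + 1) * ((L1 + (2 * K2 + 1) : ℕ) : ℝ) := ⟨_, rfl⟩
  have hE0 : 0 ≤ E := by rw [hEdef]; positivity
  obtain ⟨c0, hc0def⟩ : ∃ c0 : ℝ, c0 = (2 * k * E / ε) ^ 2 + 1 := ⟨_, rfl⟩
  have hc01 : 1 ≤ c0 := by rw [hc0def]; have := sq_nonneg (2 * k * E / ε); linarith
  have hsqrt : (k : ℝ) * (2 * E / Real.sqrt c0) ≤ ε := by
    have h1 : 2 * k * E / ε ≤ Real.sqrt c0 := Real.le_sqrt_of_sq_le (by rw [hc0def]; linarith)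
    have h2 : 0 < Real.sqrt c0 := Real.sqrt_pos.2 (by linarith)
    rw [div_le_iff₀ hε] at h1
    rw [← mul_div_assoc, div_le_iff₀ h2]
    linarith
  refine ⟨w, K2, 2 * c0 + 24 / ε, y1 + w + 2, hK2, by omega, ?_⟩
  intro y N u hy hN1 hN2 hwu h hK P B hB hBP hS I ω hI
  have hwy : w ≤ y := by omega
  have hy2 : 2 ≤ y := by omega
  have hyN : y ≤ N := (Nat.le_self_pow (by omega) y).trans hN1
  have hN : 1 ≤ N := by omega
  have hNr : (0 : ℝ) < N := by exact_mod_cast hN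
  have hBw : B ⊆ PP w y := by
    intro p hp
    obtain ⟨⟨h1, h2⟩, h3⟩ := mem_PP.1 (hB hp)
    exact mem_PP.2 ⟨⟨by omega, h2⟩, h3⟩
  have hBpr : ∀ p ∈ B, p.Prime := fun p hp => (mem_PP.1 (hB hp)).2
  have hcN : c * N ≤ y ^ (2 * K2 + 1) := by
    have h1 : N ≤ (y ^ 2) ^ K2 := by
      refine hN2.le.trans (Nat.pow_le_pow_left ?_ _)
      nlinarith
    calc c * N ≤ y * (y ^ 2) ^ K2 := Nat.mul_le_mul (by omega) h1
      _ = y ^ (2 * K2 + 1) := by rw [← pow_mul]; ring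
  obtain ⟨hm, hlaw⟩ := hy1 y (by omega)
  have hInd : Indep w α (fun i => (β i : ℤ)) := indep_of hα hαβ hc (by omega) (by omega)
  have hlaw1 := hlaw α (fun i => (β i : ℤ)) hInd N hN1
  have hlaw2 := hlaw (fun _ => 1) (fun i => ((i : ℕ) : ℤ)) (indep_shift (by omega)) N hN1
  have hlf : ∀ i n, lf (α i) (β i : ℤ) n = α i * n + β i := by
    intro i n
    unfold lf
    rw [← Nat.cast_mul, ← Nat.cast_add, Int.natAbs_natCast]
  have hlf0 : ∀ n, lf 1 (((⟨0, hk⟩ : Fin k) : ℕ) : ℤ) n = n := by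
    intro n
    unfold lf
    simp
  have hone : ∀ i, ∀ ψ : ℕ → ℝ, (∀ d, |ψ d| ≤ 1) →
      |(∑ n ∈ Ioc 0 N, ψ (sm w y (α i * n + β i))) / N - ∑ d ∈ Icc 1 (y ^ K1), ψ d * mu w y d| ≤ 3 * ε := by
    intro i ψ hψ
    have := one hk hε hε1 hN hm hlaw1 i ψ hψ
    simp_rw [hlf] at this
    exact this
  have hid : ∀ ψ : ℕ → ℝ, (∀ d, |ψ d| ≤ 1) →
      |(∑ n ∈ Ioc 0 N, ψ (sm w y n)) / N - ∑ d ∈ Icc 1 (y ^ K1), ψ d * mu w y d| ≤ 3 * ε := by
    intro ψ hψ
    have := one hk hε hε1 hN hm hlaw2 ⟨0, hk⟩ ψ hψ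
    simp_rw [hlf0] at this
    exact this
  -- the bad integers of the form n
  have hSpos : 0 < ∑ p ∈ B, (1 : ℝ) / p := by
    have : 0 < 24 / ε := by positivity
    linarith
  have hbad0 : (((Ioc 0 N).filter fun n => ((ones B n).card : ℝ) < c0).card : ℝ) ≤ ε * N := by
    have hBcard : B.card ≤ N := by
      refine (Finset.card_le_card hB).trans ?_
      unfold PP
      refine (Finset.card_filter_le _ _).trans ?_
      rw [Nat.card_Ioc]
      omega
    have h1 := turan N u y (by omega) B hB hBcard c0 (by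
      have : 0 < 24 / ε := by positivity
      linarith) hSpos
    refine h1.trans (mul_le_mul_of_nonneg_right ?_ hNr.le)
    have h2 : 12 / (∑ p ∈ B, (1 : ℝ) / p) ≤ ε / 2 := by
      rw [div_le_iff₀ hSpos]
      have h3 : 24 / ε ≤ ∑ p ∈ B, (1 : ℝ) / p := by linarith
      rw [div_le_iff₀ hε] at h3
      linarith
    have h3 : (1 : ℝ) / u ≤ ε / 2 := by
      have hur : (w1 : ℝ) ≤ u := by exact_mod_cast (by omega : w1 ≤ u)
      have hw1' : 2 / ε < u := hw1.trans_le hur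
      rw [div_lt_iff₀ hε] at hw1'
      have hu0 : (0 : ℝ) < u := by exact_mod_cast (by omega : 0 < u)
      rw [div_le_iff₀ hu0]
      linarith
    linarith
  have htail : ∀ a b : ℕ, 1 ≤ a → a + b ≤ c →
      (((Ioc 0 N).filter fun n => 2 ^ L1 < sm 0 w (a * n + b)).card : ℝ) ≤ ε * N := by
    intro a b ha hab
    have h1 := tail_form (w := w) (Z := 2 ^ L1) (N := N) hC ha hab (by omega) (by
      calc 2 = 2 ^ 1 := rfl
        _ ≤ 2 ^ L1 := Nat.pow_le_pow_right (by omega) hL1a)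
    refine h1.trans ?_
    push_cast at hL1b ⊢
    rw [← mul_assoc]
    exact mul_le_mul_of_nonneg_right hL1b hNr.le
  refine ⟨lbar h P ω B w y (y ^ K1), fun x => ?_, ?_, ?_, ?_⟩
  · exact Finset.sum_nonneg fun d _ => mul_nonneg (lawd_nonneg _ _ _ _ _ _) (mu_nonneg _ _ _)
  · unfold lbar
    rw [Finset.sum_comm]
    simp_rw [← Finset.sum_mul]
    have h1 : ∑ d ∈ Icc 1 (y ^ K1), (∑ x ∈ I, lawd h P ω B d x) * mu w y d ≤ ∑ d ∈ Icc 1 (y ^ K1), mu w y d := by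
      refine Finset.sum_le_sum fun d _ => ?_
      exact mul_le_of_le_one_left (mu_nonneg _ _ _) (lawd_sum _ _ _ _ _ _)
    have h2 := (abs_le.1 hm).2
    nlinarith
  · intro G hG
    have e1 : (av B fun T => (∑ n ∈ Ioc 0 N, G fun i => rf h P (flS T ω) (α i * n + β i)) / N) =
        (∑ n ∈ Ioc 0 N, av B fun T => G fun i => rf h P (flS T ω) (α i * n + β i)) / N := by
      rw [av_div, av_sum]
    rw [e1]
    have hnear := avg_near hN (fun n => av B fun T => G fun i => rf h P (flS T ω) (α i * n + β i))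
      (fun n => psi h P ω B I G fun i => sm w y (α i * n + β i))
      (Finset.univ.biUnion fun i => (((Ioc 0 N).filter fun n => ((ones B (α i * n + β i)).card : ℝ) < c0) ∪
        ((Ioc 0 N).filter fun n => 2 ^ L1 < sm 0 w (α i * n + β i)))) (δ := ε) (b := k * (8 * ε)) hε.le
      (fun n => abs_av_le_of fun T _ => hG _) (fun n => abs_psi _ _ _ _ _ _ hG _) (by
        intro n hn hnb
        have hn1 := Finset.mem_Ioc.1 hn
        have hgood : ∀ i, c0 ≤ ((ones B (α i * n + β i)).card : ℝ) ∧ sm 0 w (α i * n + β i) ≤ 2 ^ L1 := by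
          intro i
          by_contra hcon
          apply hnb
          refine Finset.mem_biUnion.2 ⟨i, Finset.mem_univ _, ?_⟩
          rw [Finset.mem_union, Finset.mem_filter, Finset.mem_filter]
          rw [not_and_or, not_le, not_le] at hcon
          rcases hcon with h1 | h1
          · exact Or.inl ⟨hn, h1⟩
          · exact Or.inr ⟨hn, h1⟩
        have hm0 : ∀ i, α i * n + β i ≠ 0 := by
          intro i
          have : 1 * 1 ≤ α i * n := Nat.mul_le_mul (hα i) hn1.1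
          omega
        have hmN : ∀ i, α i * n + β i ≤ c * N := by
          intro i
          calc α i * n + β i ≤ α i * n + β i * n := by nlinarith [hn1.1]
            _ = (α i + β i) * n := by ring
            _ ≤ c * N := Nat.mul_le_mul (hc i) hn1.2
        have hpt := point h hK hK0 P ω hwu hy2 hwy B hB hBP I G hG (fun i => α i * n + β i) hm0
          (indep_cop hInd n) (fun i d hd T => hI d (fun h0 => hm0 i (by rw [h0] at hd; exact Nat.eq_zero_of_zero_dvd hd))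
            ((Nat.le_of_dvd (Nat.pos_of_ne_zero (hm0 i)) hd).trans (hmN i)) T)
          (A := 2 * K2 + 1) (L := L1) (fun i => (hmN i).trans hcN) (fun i => (hgood i).2) c0 hc01 (fun i => (hgood i).1)
        rw [← hEdef] at hpt
        exact hpt.trans hsqrt) (by
        have h1 : ((Finset.univ.biUnion fun i => (((Ioc 0 N).filter fun n => ((ones B (α i * n + β i)).card : ℝ) < c0) ∪
          ((Ioc 0 N).filter fun n => 2 ^ L1 < sm 0 w (α i * n + β i)))).card : ℝ) ≤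
            ∑ i : Fin k, ((((Ioc 0 N).filter fun n => ((ones B (α i * n + β i)).card : ℝ) < c0) ∪
          ((Ioc 0 N).filter fun n => 2 ^ L1 < sm 0 w (α i * n + β i))).card : ℝ) := by
          exact_mod_cast Finset.card_biUnion_le
        refine h1.trans ?_
        have h2 : ∀ i : Fin k, ((((Ioc 0 N).filter fun n => ((ones B (α i * n + β i)).card : ℝ) < c0) ∪
          ((Ioc 0 N).filter fun n => 2 ^ L1 < sm 0 w (α i * n + β i))).card : ℝ) ≤ 8 * ε * N := by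
          intro i
          have h3 := bad_form hN hBw (i := i) (hone i) hid hbad0
          have h4 := htail (α i) (β i) (hα i) (hc i)
          have h5 : ((((Ioc 0 N).filter fun n => ((ones B (α i * n + β i)).card : ℝ) < c0) ∪
            ((Ioc 0 N).filter fun n => 2 ^ L1 < sm 0 w (α i * n + β i))).card : ℝ) ≤
              (((Ioc 0 N).filter fun n => ((ones B (α i * n + β i)).card : ℝ) < c0).card : ℝ) +
              (((Ioc 0 N).filter fun n => 2 ^ L1 < sm 0 w (α i * n + β i)).card : ℝ) := by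
            exact_mod_cast Finset.card_union_le _ _
          linarith
        refine (Finset.sum_le_sum fun i _ => h2 i).trans (le_of_eq ?_)
        rw [Finset.sum_const, Finset.card_univ, Fintype.card_fin, nsmul_eq_mul]
        ring)
    have hbox := hlaw1 (fun d => psi h P ω B I G d) (fun d => abs_psi _ _ _ _ _ _ hG _)
    simp_rw [hlf] at hbox
    rw [box_psi] at hbox
    have h5 := abs_sub_le ((∑ n ∈ Ioc 0 N, av B fun T => G fun i => rf h P (flS T ω) (α i * n + β i)) / N)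
      ((∑ n ∈ Ioc 0 N, psi h P ω B I G fun i => sm w y (α i * n + β i)) / N)
      (∑ ℓ ∈ Fintype.piFinset (fun _ : Fin k => I), G ℓ * ∏ i, lbar h P ω B w y (y ^ K1) (ℓ i))
    nlinarith
  · intro g hg
    have e1 : (av B fun T => (∑ n ∈ Ioc 0 N, g (rf h P (flS T ω) n)) / N) =
        (∑ n ∈ Ioc 0 N, av B fun T => g (rf h P (flS T ω) n)) / N := by
      rw [av_div, av_sum]
    rw [e1]
    have hnear := avg_near hN (fun n => av B fun T => g (rf h P (flS T ω) n))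
      (fun n => psi1 h P ω B I g (sm w y n))
      (((Ioc 0 N).filter fun n => ((ones B n).card : ℝ) < c0) ∪
        ((Ioc 0 N).filter fun n => 2 ^ L1 < sm 0 w (1 * n + 0))) (δ := ε) (b := 2 * ε) hε.le
      (fun n => abs_av_le_of fun T _ => hg _) (fun n => abs_psi1 _ _ _ _ _ _ hg _) (by
        intro n hn hnb
        have hn1 := Finset.mem_Ioc.1 hn
        have hgood : c0 ≤ ((ones B n).card : ℝ) ∧ sm 0 w n ≤ 2 ^ L1 := by
          by_contra hcon
          apply hnb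
          rw [Finset.mem_union, Finset.mem_filter, Finset.mem_filter, one_mul, add_zero]
          rw [not_and_or, not_le, not_le] at hcon
          rcases hcon with h1 | h1
          · exact Or.inl ⟨hn, h1⟩
          · exact Or.inr ⟨hn, h1⟩
        have hm0 : n ≠ 0 := by omega
        have hmN : n ≤ c * N := by nlinarith [hn1.2]
        have hdI : ∀ d, d ∣ n → ∀ T : Finset ℕ, rf h P (flS T ω) d ∈ I := fun d hd T =>
          hI d (fun h0 => hm0 (by rw [h0] at hd; exact Nat.eq_zero_of_zero_dvd hd))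
            ((Nat.le_of_dvd (Nat.pos_of_ne_zero hm0) hd).trans hmN) T
        have hpt := point h hK hK0 P ω hwu hy2 hwy B hB hBP I (fun ℓ : Fin 1 → ℤ => g (ℓ 0)) (fun ℓ => hg _)
          (fun _ => n) (fun _ => hm0) (fun i j hij => absurd (Subsingleton.elim i j) hij) (fun _ => hdI)
          (A := 2 * K2 + 1) (L := L1) (fun i => hmN.trans hcN) (fun i => hgood.2) c0 hc01 (fun i => hgood.1)
        rw [← hEdef, psi_fin_one h P ω B hBpr I g (sm w y n) (hdI _ (sm_dvd w y hm0))] at hpt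
        refine hpt.trans (le_trans ?_ hsqrt)
        refine mul_le_mul_of_nonneg_right ?_ (by positivity)
        exact_mod_cast hk) (by
        have h3 := hbad0
        have h4 := htail 1 0 le_rfl (by omega)
        have h5 : ((((Ioc 0 N).filter fun n => ((ones B n).card : ℝ) < c0) ∪
            ((Ioc 0 N).filter fun n => 2 ^ L1 < sm 0 w (1 * n + 0))).card : ℝ) ≤
              (((Ioc 0 N).filter fun n => ((ones B n).card : ℝ) < c0).card : ℝ) +
              (((Ioc 0 N).filter fun n => 2 ^ L1 < sm 0 w (1 * n + 0)).card : ℝ) := by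
            exact_mod_cast Finset.card_union_le _ _
        linarith)
    have hbox := hid (fun d => psi1 h P ω B I g d) (fun d => abs_psi1 _ _ _ _ _ _ hg _)
    rw [sum_psi1] at hbox
    have h5 := abs_sub_le ((∑ n ∈ Ioc 0 N, av B fun T => g (rf h P (flS T ω) n)) / N)
      ((∑ n ∈ Ioc 0 N, psi1 h P ω B I g (sm w y n)) / N)
      (∑ x ∈ I, g x * lbar h P ω B w y (y ^ K1) x)
    nlinarith

end Pool.Agent.Q163.AD
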