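import Pool.Agent.Q163.AD.Along

/-!
# Interpolation and the final statement
-/

set_option autoImplicit false

namespace Pool.Agent.Q163.AD

open Finset MeasureTheory Filter Topology Pool.Agent.Q163.RX Pool.Agent.Q163.BC Pool.Agent.W208.TL

lemma tv_interp {ι : Type*} [DecidableEq ι] (Λ : Finset ι) (V : ℕ → ι) {N' N : ℕ} (h0 : 1 ≤ N') (h : N' ≤ N) :
    ∑ ℓ ∈ Λ, |(((Ioc 0 N).filter fun n => V n = ℓ).card : ℝ) / N - (((Ioc 0 N').filter fun n => V n = ℓ).card : ℝ) / N'| ≤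
      2 * (((N : ℝ) - N') / N) := by
  have hN' : (0 : ℝ) < N' := by exact_mod_cast h0
  have hNN : (N' : ℝ) ≤ N := by exact_mod_cast h
  have hN : (0 : ℝ) < N := by linarith
  have hsplit : ∀ ℓ, ((Ioc 0 N).filter fun n => V n = ℓ).card =
      ((Ioc 0 N').filter fun n => V n = ℓ).card + ((Ioc N' N).filter fun n => V n = ℓ).card := by
    intro ℓ
    rw [← Finset.card_union_of_disjoint, ← Finset.filter_union, Finset.Ioc_union_Ioc_eq_Ioc (by omega) h]
    rw [Finset.disjoint_left]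
    intro n h1 h2
    have h3 := (Finset.mem_Ioc.1 (Finset.mem_filter.1 h1).1).2
    have h4 := (Finset.mem_Ioc.1 (Finset.mem_filter.1 h2).1).1
    omega
  have hcnt : ∀ s : Finset ℕ, ∑ ℓ ∈ Λ, ((s.filter fun n => V n = ℓ).card : ℝ) ≤ s.card := by
    intro s
    have h1 : ∑ ℓ ∈ Λ, (s.filter fun n => V n = ℓ).card ≤ s.card := by
      rw [← Finset.card_biUnion]
      · exact Finset.card_le_card (Finset.biUnion_subset.2 fun x _ => Finset.filter_subset _ _)
      · intro x _ x' _ hxx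
        rw [Function.onFun, Finset.disjoint_left]
        intro n h1 h2
        exact hxx ((Finset.mem_filter.1 h1).2.symm.trans (Finset.mem_filter.1 h2).2)
    exact_mod_cast h1
  have h1 : ∀ ℓ ∈ Λ, |(((Ioc 0 N).filter fun n => V n = ℓ).card : ℝ) / N -
      (((Ioc 0 N').filter fun n => V n = ℓ).card : ℝ) / N'| ≤
      (((Ioc N' N).filter fun n => V n = ℓ).card : ℝ) / N +
        (((Ioc 0 N').filter fun n => V n = ℓ).card : ℝ) * (1 / N' - 1 / N) := by
    intro ℓ _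
    rw [hsplit ℓ]
    push_cast
    set a : ℝ := (((Ioc 0 N').filter fun n => V n = ℓ).card : ℝ)
    set b : ℝ := (((Ioc N' N).filter fun n => V n = ℓ).card : ℝ)
    have ha : 0 ≤ a := Nat.cast_nonneg _
    have hb : 0 ≤ b := Nat.cast_nonneg _
    have e : (a + b) / N - a / N' = b / N - a * (1 / N' - 1 / N) := by ring
    have h2 : (0 : ℝ) ≤ 1 / N' - 1 / N := by
      rw [sub_nonneg]
      exact one_div_le_one_div_of_le hN' hNN
    rw [e]
    refine (abs_sub _ _).trans ?_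
    rw [abs_of_nonneg (by positivity : 0 ≤ b / (N : ℝ)), abs_of_nonneg (mul_nonneg ha h2)]
  refine (Finset.sum_le_sum h1).trans ?_
  rw [Finset.sum_add_distrib, ← Finset.sum_div, ← Finset.sum_mul]
  have h2 := hcnt (Ioc N' N)
  have h3 := hcnt (Ioc 0 N')
  rw [Nat.card_Ioc] at h2 h3
  rw [Nat.cast_sub h] at h2
  rw [Nat.sub_zero] at h3
  have h4 : (0 : ℝ) ≤ 1 / N' - 1 / N := by
    rw [sub_nonneg]
    exact one_div_le_one_div_of_le hN' hNN
  have h5 := mul_le_mul_of_nonneg_right h3 h4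
  have h6 := div_le_div_of_nonneg_right h2 hN.le
  have h7 : (N' : ℝ) * (1 / N' - 1 / N) = ((N : ℝ) - N') / N := by field_simp
  linarith

lemma freq_eq (f : ℕ → ℤ) {k : ℕ} (α β : Fin k → ℕ) (N : ℕ) (ℓ : Fin k → ℤ) :
    freq f α β N ℓ = (((Ioc 0 N).filter fun n => (fun i => f (α i * n + β i)) = ℓ).card : ℝ) / N := by
  unfold freq
  congr 3
  refine Finset.filter_congr fun n _ => ?_
  rw [funext_iff]

lemma SD_interp (f : ℕ → ℤ) (I : Finset ℤ) {k : ℕ} (α β : Fin k → ℕ) {N' N : ℕ} (h0 : 1 ≤ N') (h : N' ≤ N) :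
    SD f I α β N ≤ SD f I α β N' + (2 + 2 * (k * 2 ^ k)) * (((N : ℝ) - N') / N) := by
  classical
  have h1 := tv_interp (Fintype.piFinset (fun _ : Fin k => I)) (fun n i => f (α i * n + β i)) h0 h
  simp_rw [← freq_eq] at h1
  have h2 := tv_interp I f h0 h
  have h3 := prod_tv (k := k) I (freq1 f N') (freq1 f N) (fun x => by unfold freq1; positivity)
    (fun x => by unfold freq1; positivity) (by linarith [freq1_sum f N' I]) (by linarith [freq1_sum f N I])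
  have h4 : ∑ x ∈ I, |freq1 f N' x - freq1 f N x| ≤ 2 * (((N : ℝ) - N') / N) := by
    refine le_trans (le_of_eq ?_) h2
    refine Finset.sum_congr rfl fun x _ => ?_
    rw [abs_sub_comm]
    rfl
  unfold SD
  have h5 : ∀ ℓ ∈ Fintype.piFinset (fun _ : Fin k => I), |freq f α β N ℓ - ∏ i, freq1 f N (ℓ i)| ≤
      |freq f α β N ℓ - freq f α β N' ℓ| + (|freq f α β N' ℓ - ∏ i, freq1 f N' (ℓ i)| +
        |∏ i, freq1 f N' (ℓ i) - ∏ i, freq1 f N (ℓ i)|) := by
    intro ℓ _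
    exact (abs_sub_le _ (freq f α β N' ℓ) _).trans (add_le_add le_rfl (abs_sub_le _ _ _))
  refine (Finset.sum_le_sum h5).trans ?_
  rw [Finset.sum_add_distrib, Finset.sum_add_distrib]
  have h6 := mul_le_mul_of_nonneg_left h4 (by positivity : (0 : ℝ) ≤ k * 2 ^ k)
  linarith

/-- the distance between the joint law of the values at the forms and the product law -/
noncomputable def Dis (f : ℕ → ℤ) {k : ℕ} (α β : Fin k → ℕ) (N : ℕ) : ℝ :=
  ∑' ℓ : Fin k → ℤ, |freq f α β N ℓ - ∏ i, freq1 f N (ℓ i)|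

lemma Dis_eq (f : ℕ → ℤ) (I : Finset ℤ) {k c N : ℕ} {α β : Fin k → ℕ} (hα : ∀ i, 1 ≤ α i)
    (hc : ∀ i, α i + β i ≤ c) (hc1 : 1 ≤ c) (hI : ∀ m, m ≠ 0 → m ≤ c * N → f m ∈ I) :
    Dis f α β N = SD f I α β N := by
  unfold Dis SD
  refine tsum_eq_sum fun ℓ hℓ => ?_
  rw [Fintype.mem_piFinset] at hℓ
  push Not at hℓ
  obtain ⟨i, hi⟩ := hℓ
  have h1 : freq f α β N ℓ = 0 := by
    unfold freq
    rw [Finset.filter_false_of_mem, Finset.card_empty, Nat.cast_zero, zero_div]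
    intro n hn hcon
    have hn1 := Finset.mem_Ioc.1 hn
    refine hi (hcon i ▸ hI _ ?_ ?_)
    · have : 1 * 1 ≤ α i * n := Nat.mul_le_mul (hα i) hn1.1
      omega
    · calc α i * n + β i ≤ α i * n + β i * n := by nlinarith [hn1.1]
        _ = (α i + β i) * n := by ring
        _ ≤ c * N := Nat.mul_le_mul (hc i) hn1.2
  have h2 : freq1 f N (ℓ i) = 0 := by
    unfold freq1
    rw [Finset.filter_false_of_mem, Finset.card_empty, Nat.cast_zero, zero_div]
    intro n hn hcon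
    have hn1 := Finset.mem_Ioc.1 hn
    exact hi (hcon ▸ hI n (by omega) (by nlinarith [hn1.2]))
  rw [h1, Finset.prod_eq_zero (Finset.mem_univ i) h2, sub_zero, abs_zero]

lemma gap {N : ℕ} (hN : 3 ≤ N) : sq ⌊Real.log N ^ 2⌋₊ ≤ N ∧
    ((N : ℝ) - sq ⌊Real.log N ^ 2⌋₊) / N ≤ 1 / Real.sqrt (⌊Real.log N ^ 2⌋₊ : ℝ) := by
  have hNr : (3 : ℝ) ≤ N := by exact_mod_cast hN
  have hN0 : (0 : ℝ) < N := by linarith
  have hl : 1 ≤ Real.log N := by
    rw [Real.le_log_iff_exp_le hN0]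
    have := Real.exp_one_lt_d9
    linarith
  set j := ⌊Real.log (N : ℝ) ^ 2⌋₊ with hj
  have hj1 : 1 ≤ j := Nat.le_floor (by push_cast; nlinarith)
  have hjr : (1 : ℝ) ≤ j := by exact_mod_cast hj1
  have h1 : (j : ℝ) ≤ Real.log N ^ 2 := Nat.floor_le (by positivity)
  have h2 : Real.log N ^ 2 < j + 1 := Nat.lt_floor_add_one _
  have h3 : Real.sqrt j ≤ Real.log N := by
    rw [← Real.sqrt_sq (by linarith : 0 ≤ Real.log (N : ℝ))]
    exact Real.sqrt_le_sqrt h1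
  have h4 : Real.exp (Real.sqrt j) ≤ N := by
    have := Real.exp_le_exp.2 h3
    rwa [Real.exp_log hN0] at this
  have hs : 0 < Real.sqrt (j : ℝ) := Real.sqrt_pos.2 (by linarith)
  refine ⟨Nat.ceil_le.2 h4, ?_⟩
  have h5 : Real.exp (Real.sqrt j) ≤ sq j := Nat.le_ceil _
  have h6 : Real.log N - Real.sqrt j ≤ 1 / Real.sqrt j := by
    rw [le_div_iff₀ hs]
    have h7 : Real.sqrt j * Real.sqrt j = j := Real.mul_self_sqrt (by linarith)
    nlinarith
  have h7 : 1 - (Real.log N - Real.sqrt j) ≤ Real.exp (Real.sqrt j) / N := by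
    have h8 := Real.add_one_le_exp (-(Real.log N - Real.sqrt j))
    have h9 : Real.exp (-(Real.log N - Real.sqrt j)) = Real.exp (Real.sqrt j) / N := by
      rw [neg_sub, Real.exp_sub, Real.exp_log hN0]
    rw [h9] at h8
    linarith
  have h8 : Real.exp (Real.sqrt j) / N ≤ (sq j : ℝ) / N := div_le_div_of_nonneg_right h5 hN0.le
  have h9 : ((N : ℝ) - sq j) / N = 1 - (sq j : ℝ) / N := by field_simp
  rw [h9]
  linarith

theorem forms_one {k : ℕ} (hk : 1 ≤ k) (α β : Fin k → ℕ) (hα : ∀ i, 1 ≤ α i)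
    (hαβ : ∀ i j, i ≠ j → α i * β j ≠ α j * β i)
    {K : ℕ} {h : ℕ → ℤ} (hK : ∀ p, p.Prime → |(h p : ℝ)| ≤ K) (P : Set ℕ)
    (hP : Tendsto (mass P fun N => ⌊Real.log N⌋₊) atTop atTop) :
    ∀ᵐ ω ∂cm, Tendsto (Dis (rf h P ω) α β) atTop (𝓝 0) := by
  obtain ⟨c, hcdef⟩ : ∃ c : ℕ, c = ∑ i, (α i + β i) + 1 := ⟨_, rfl⟩
  have hc : ∀ i, α i + β i ≤ c := by
    intro i
    have h1 := Finset.single_le_sum (f := fun i => α i + β i) (fun _ _ => Nat.zero_le _) (Finset.mem_univ i)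
    omega
  have hc1 : 1 ≤ c := by omega
  have h1 : ∀ᵐ ω ∂cm, ∀ r : ℕ, ∀ᶠ j in atTop, SD (rf h P ω) (II K c (sq j)) α β (sq j) ≤
      (2 + 2 * (k * 2 ^ k)) * (1 / ((r : ℝ) + 1)) := by
    rw [ae_all_iff]
    intro r
    refine along_eta hk α β hα hαβ c hc hc1 hK P hP (by positivity) ?_
    rw [div_le_one (by positivity)]
    have : (0 : ℝ) ≤ r := Nat.cast_nonneg r
    linarith
  filter_upwards [h1] with ω hω
  have hDis0 : ∀ N, 0 ≤ Dis (rf h P ω) α β N := fun N => tsum_nonneg fun _ => abs_nonneg _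
  have hsd : ∀ N, Dis (rf h P ω) α β N = SD (rf h P ω) (II K c N) α β N := fun N =>
    Dis_eq _ _ hα hc hc1 fun m hm hmN => rf_mem hK P ω hm hmN
  have h2 : Tendsto (fun j => Dis (rf h P ω) α β (sq j)) atTop (𝓝 0) := by
    rw [Metric.tendsto_atTop]
    intro ε hε
    obtain ⟨r, hr⟩ := exists_nat_gt ((2 + 2 * (k * 2 ^ k)) / ε)
    obtain ⟨j0, hj0⟩ := (hω r).exists_forall_of_atTop
    refine ⟨j0, fun j hj => ?_⟩
    rw [Real.dist_eq, sub_zero, abs_of_nonneg (hDis0 _), hsd]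
    refine (hj0 j hj).trans_lt ?_
    rw [div_lt_iff₀ hε] at hr
    rw [mul_one_div, div_lt_iff₀ (by positivity)]
    nlinarith
  -- interpolation
  have hjt : Tendsto (fun N : ℕ => ⌊Real.log N ^ 2⌋₊) atTop atTop := by
    refine tendsto_nat_floor_atTop.comp ?_
    exact (tendsto_pow_atTop (by norm_num)).comp (Real.tendsto_log_atTop.comp tendsto_natCast_atTop_atTop)
  have h3 : Tendsto (fun N : ℕ => 1 / Real.sqrt (⌊Real.log N ^ 2⌋₊ : ℝ)) atTop (𝓝 0) := by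
    have h4 : Tendsto (fun j : ℕ => 1 / Real.sqrt (j : ℝ)) atTop (𝓝 0) := by
      simp only [one_div]
      exact tendsto_inv_atTop_zero.comp (Real.tendsto_sqrt_atTop.comp tendsto_natCast_atTop_atTop)
    exact h4.comp hjt
  have h4 : Tendsto (fun N : ℕ => Dis (rf h P ω) α β (sq ⌊Real.log N ^ 2⌋₊) +
      (2 + 2 * (k * 2 ^ k)) * (1 / Real.sqrt (⌊Real.log N ^ 2⌋₊ : ℝ))) atTop (𝓝 0) := by
    have h5 := (h2.comp hjt).add (h3.const_mul (2 + 2 * ((k : ℝ) * 2 ^ k)))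
    simpa using h5
  refine squeeze_zero' (Eventually.of_forall hDis0) ?_ h4
  filter_upwards [eventually_ge_atTop 3] with N hN
  obtain ⟨h5, h6⟩ := gap hN
  have h7 := SD_interp (rf h P ω) (II K c N) α β (sq_pos ⌊Real.log (N : ℝ) ^ 2⌋₊) h5
  rw [← hsd] at h7
  have h8 : Dis (rf h P ω) α β (sq ⌊Real.log (N : ℝ) ^ 2⌋₊) =
      SD (rf h P ω) (II K c N) α β (sq ⌊Real.log (N : ℝ) ^ 2⌋₊) :=
    Dis_eq _ _ hα hc hc1 fun m hm hmN => rf_mem hK P ω hm (hmN.trans (Nat.mul_le_mul_left _ h5))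
  rw [h8]
  refine h7.trans (add_le_add le_rfl (mul_le_mul_of_nonneg_left h6 (by positivity)))

end Pool.Agent.Q163.AD
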