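import Pool.Agent.Q163.AD.Add
import Pool.Agent.W208.TL.Stm

/-!
# The laws of the values at integers composed of given primes
-/

set_option autoImplicit false

namespace Pool.Agent.Q163.AD

open Finset MeasureTheory Pool.Agent.Q163.RX Pool.Agent.Q163.BC

/-- the law of the value at `d` when the coins in `B` are thrown again -/
noncomputable def lawd (h : ℕ → ℤ) (P : Set ℕ) (ω : ℕ → Bool) (B : Finset ℕ) (d : ℕ) (x : ℤ) : ℝ :=
  av B fun T => if rf h P (flS T ω) d = x then 1 else 0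

lemma lawd_nonneg (h : ℕ → ℤ) (P : Set ℕ) (ω : ℕ → Bool) (B : Finset ℕ) (d : ℕ) (x : ℤ) :
    0 ≤ lawd h P ω B d x := av_nonneg fun T _ => by split_ifs <;> norm_num

lemma lawd_sum (h : ℕ → ℤ) (P : Set ℕ) (ω : ℕ → Bool) (B : Finset ℕ) (d : ℕ) (I : Finset ℤ) :
    ∑ x ∈ I, lawd h P ω B d x ≤ 1 := by
  unfold lawd
  rw [← av_sum]
  refine (av_mono (ψ := fun _ => 1) fun T _ => ?_).trans_eq (av_const B 1)
  rw [Finset.sum_ite_eq]
  split_ifs <;> norm_num

/-- the averages of `G` for independent values at `d i` -/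
noncomputable def psi (h : ℕ → ℤ) (P : Set ℕ) (ω : ℕ → Bool) (B : Finset ℕ) (I : Finset ℤ) {k : ℕ}
    (G : (Fin k → ℤ) → ℝ) (d : Fin k → ℕ) : ℝ :=
  ∑ ℓ ∈ Fintype.piFinset (fun _ : Fin k => I), G ℓ * ∏ i, lawd h P ω B (d i) (ℓ i)

lemma prod_sum_le {k : ℕ} (I : Finset ℤ) (a : Fin k → ℤ → ℝ) (h0 : ∀ i x, 0 ≤ a i x)
    (h1 : ∀ i, ∑ x ∈ I, a i x ≤ 1) : ∑ ℓ ∈ Fintype.piFinset (fun _ : Fin k => I), ∏ i, a i (ℓ i) ≤ 1 := by
  rw [← Finset.prod_univ_sum]
  exact Finset.prod_le_one (fun i _ => Finset.sum_nonneg fun x _ => h0 i x) fun i _ => h1 i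

lemma abs_psi (h : ℕ → ℤ) (P : Set ℕ) (ω : ℕ → Bool) (B : Finset ℕ) (I : Finset ℤ) {k : ℕ}
    (G : (Fin k → ℤ) → ℝ) (hG : ∀ ℓ, |G ℓ| ≤ 1) (d : Fin k → ℕ) : |psi h P ω B I G d| ≤ 1 := by
  unfold psi
  refine (Finset.abs_sum_le_sum_abs _ _).trans (le_trans (Finset.sum_le_sum fun ℓ _ => ?_)
    (prod_sum_le I (fun i => lawd h P ω B (d i)) (fun i x => lawd_nonneg _ _ _ _ _ _)
      fun i => lawd_sum _ _ _ _ _ _))
  have h2 : 0 ≤ ∏ i, lawd h P ω B (d i) (ℓ i) := Finset.prod_nonneg fun i _ => lawd_nonneg _ _ _ _ _ _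
  rw [abs_mul, abs_of_nonneg h2]
  exact mul_le_of_le_one_left h2 (hG ℓ)

lemma expand {k : ℕ} (I : Finset ℤ) (G : (Fin k → ℤ) → ℝ) (v : Fin k → ℤ) (hv : ∀ i, v i ∈ I) :
    G v = ∑ ℓ ∈ Fintype.piFinset (fun _ : Fin k => I), G ℓ * ∏ i, (if v i = ℓ i then (1 : ℝ) else 0) := by
  rw [Finset.sum_eq_single v]
  · simp
  · intro ℓ _ hℓ
    have h1 : ∃ i, v i ≠ ℓ i := by
      by_contra hcon
      push Not at hcon
      exact hℓ (funext fun i => (hcon i).symm)
    obtain ⟨i, hi⟩ := h1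
    rw [Finset.prod_eq_zero (Finset.mem_univ i) (if_neg hi), mul_zero]
  · intro hcon
    exact absurd (Fintype.mem_piFinset.2 hv) hcon

/-- **decoupling**: the values at coprime numbers are independent -/
theorem psi_eq (h : ℕ → ℤ) (P : Set ℕ) (ω : ℕ → Bool) (B : Finset ℕ) (hB : ∀ p ∈ B, p.Prime) (I : Finset ℤ) {k : ℕ}
    (G : (Fin k → ℤ) → ℝ) (d : Fin k → ℕ) (hcop : ∀ i j, i ≠ j → ∀ p ∈ B, p ∣ d i → ¬ p ∣ d j)
    (hI : ∀ T : Finset ℕ, ∀ i, rf h P (flS T ω) (d i) ∈ I) :
    (av B fun T => G fun i => rf h P (flS T ω) (d i)) = psi h P ω B I G d := by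
  unfold psi lawd
  have h1 : (fun T : Finset ℕ => G fun i => rf h P (flS T ω) (d i)) =
      fun T : Finset ℕ => ∑ ℓ ∈ Fintype.piFinset (fun _ : Fin k => I), G ℓ *
        ∏ i, (if rf h P (flS T ω) (d i) = ℓ i then (1 : ℝ) else 0) := by
    funext T
    exact expand I G _ (hI T)
  rw [h1, av_sum]
  refine Finset.sum_congr rfl fun ℓ _ => ?_
  rw [av_mul_left]
  congr 1
  refine av_prod (B := B) Finset.univ (fun i => B.filter fun p => p ∣ d i) (fun i _ => Finset.filter_subset _ _)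
    (fun i _ j _ hij => ?_) (fun i T => if rf h P (flS T ω) (d i) = ℓ i then (1 : ℝ) else 0) fun i _ T hT => ?_
  · rw [Finset.disjoint_left]
    intro p h2 h3
    exact hcop i j hij p (Finset.mem_filter.1 h2).1 (Finset.mem_filter.1 h2).2 (Finset.mem_filter.1 h3).2
  · have h2 : rf h P (flS T ω) (d i) =
        rf h P (flS ((T ∩ B.filter fun p => p ∣ d i : Finset ℕ) : Set ℕ) ω) (d i) := by
      refine rf_fl_congr h P ω fun p hp => ?_
      rw [Finset.mem_inter, Finset.mem_filter]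
      constructor
      · intro h3
        exact ⟨h3, hT h3, Nat.dvd_of_mem_primeFactors hp⟩
      · rintro ⟨h3, _⟩
        exact h3
    rw [h2]

/-- the limit law -/
noncomputable def lbar (h : ℕ → ℤ) (P : Set ℕ) (ω : ℕ → Bool) (B : Finset ℕ) (w y Z : ℕ) (x : ℤ) : ℝ :=
  ∑ d ∈ Icc 1 Z, lawd h P ω B d x * Pool.Agent.W208.TL.mu w y d

lemma box_psi (h : ℕ → ℤ) (P : Set ℕ) (ω : ℕ → Bool) (B : Finset ℕ) (I : Finset ℤ) {k : ℕ}
    (G : (Fin k → ℤ) → ℝ) (w y Z : ℕ) :
    ∑ d ∈ Pool.Agent.W208.TL.box k Z, psi h P ω B I G d * ∏ i, Pool.Agent.W208.TL.mu w y (d i) =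
      ∑ ℓ ∈ Fintype.piFinset (fun _ : Fin k => I), G ℓ * ∏ i, lbar h P ω B w y Z (ℓ i) := by
  unfold psi lbar Pool.Agent.W208.TL.box
  simp_rw [Finset.sum_mul]
  rw [Finset.sum_comm]
  refine Finset.sum_congr rfl fun ℓ _ => ?_
  rw [Finset.prod_univ_sum, Finset.mul_sum]
  refine Finset.sum_congr rfl fun d _ => ?_
  rw [Finset.prod_mul_distrib]
  ring

/-- one value -/
noncomputable def psi1 (h : ℕ → ℤ) (P : Set ℕ) (ω : ℕ → Bool) (B : Finset ℕ) (I : Finset ℤ)
    (g : ℤ → ℝ) (d : ℕ) : ℝ := ∑ x ∈ I, g x * lawd h P ω B d x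

lemma abs_psi1 (h : ℕ → ℤ) (P : Set ℕ) (ω : ℕ → Bool) (B : Finset ℕ) (I : Finset ℤ)
    (g : ℤ → ℝ) (hg : ∀ x, |g x| ≤ 1) (d : ℕ) : |psi1 h P ω B I g d| ≤ 1 := by
  unfold psi1
  refine (Finset.abs_sum_le_sum_abs _ _).trans (le_trans (Finset.sum_le_sum fun x _ => ?_)
    (lawd_sum h P ω B d I))
  rw [abs_mul, abs_of_nonneg (lawd_nonneg _ _ _ _ _ _)]
  exact mul_le_of_le_one_left (lawd_nonneg _ _ _ _ _ _) (hg x)

lemma psi1_eq (h : ℕ → ℤ) (P : Set ℕ) (ω : ℕ → Bool) (B : Finset ℕ) (I : Finset ℤ) (g : ℤ → ℝ) (d : ℕ)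
    (hI : ∀ T : Finset ℕ, rf h P (flS T ω) d ∈ I) :
    (av B fun T => g (rf h P (flS T ω) d)) = psi1 h P ω B I g d := by
  unfold psi1 lawd
  have h1 : (fun T : Finset ℕ => g (rf h P (flS T ω) d)) =
      fun T : Finset ℕ => ∑ x ∈ I, g x * (if rf h P (flS T ω) d = x then (1 : ℝ) else 0) := by
    funext T
    rw [Finset.sum_eq_single (rf h P (flS T ω) d)]
    · simp
    · intro x _ hx
      rw [if_neg (fun h2 => hx h2.symm), mul_zero]
    · intro h2
      exact absurd (hI T) h2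
  rw [h1, av_sum]
  exact Finset.sum_congr rfl fun x _ => av_mul_left _ _ _

lemma sum_psi1 (h : ℕ → ℤ) (P : Set ℕ) (ω : ℕ → Bool) (B : Finset ℕ) (I : Finset ℤ) (g : ℤ → ℝ) (w y Z : ℕ) :
    ∑ d ∈ Icc 1 Z, psi1 h P ω B I g d * Pool.Agent.W208.TL.mu w y d = ∑ x ∈ I, g x * lbar h P ω B w y Z x := by
  unfold psi1 lbar
  simp_rw [Finset.sum_mul, Finset.mul_sum]
  rw [Finset.sum_comm]
  refine Finset.sum_congr rfl fun x _ => Finset.sum_congr rfl fun d _ => by ring

/-- changing the coordinates one at a time -/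
theorem hyb {k : ℕ} (B : Finset ℕ) (a b : Fin k → Finset ℕ → ℤ) (M : Fin k → Finset ℕ) (hM : ∀ j, M j ⊆ B)
    (e : Fin k → ℤ) (hab : ∀ j T, T ⊆ B → a j T = b j T + e j) (s : ℕ → ℤ) (hs : ∀ y, s y = 1 ∨ s y = -1)
    (hF : ∀ j, ∀ y ∈ M j, ∀ T, T ⊆ B → y ∉ T → b j (insert y T) = b j T + s y)
    (ho : ∀ i j, i ≠ j → ∀ y ∈ M j, ∀ T, T ⊆ B → y ∉ T → a i (insert y T) = a i T ∧ b i (insert y T) = b i T)
    (G : (Fin k → ℤ) → ℝ) (hG : ∀ ℓ, |G ℓ| ≤ 1) (m E : ℝ) (hm : 1 ≤ m) (hMm : ∀ j, m ≤ (M j).card)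
    (he : ∀ j, |(e j : ℝ)| ≤ E) :
    |(av B fun T => G fun i => a i T) - av B fun T => G fun i => b i T| ≤ k * (2 * E / Real.sqrt m) := by
  classical
  have key : ∀ S : Finset (Fin k), |(av B fun T => G fun i => a i T) -
      av B fun T => G fun i => if i ∈ S then b i T else a i T| ≤ S.card * (2 * E / Real.sqrt m) := by
    intro S
    induction S using Finset.induction_on with
    | empty => simp
    | insert j S hj ih =>
      have h1 := shift B (M j) (hM j) (b j) s hs (hF j)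
        (fun T x => G fun i => if i = j then x else if i ∈ S then b i T else a i T) (by
          intro y hy T hT hyT
          funext x
          congr 1
          funext i
          by_cases hij : i = j
          · rw [if_pos hij, if_pos hij]
          · rw [if_neg hij, if_neg hij]
            obtain ⟨h2, h3⟩ := ho i j hij y hy T hT hyT
            rw [h2, h3]) (fun T x => hG _) (e j)
      have e1 : (av B fun T => G fun i => if i = j then b j T + e j else if i ∈ S then b i T else a i T) =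
          av B fun T => G fun i => if i ∈ S then b i T else a i T := by
        refine av_congr fun T hT => ?_
        congr 1
        funext i
        by_cases hij : i = j
        · subst hij
          rw [if_pos rfl, if_neg hj, hab i T hT]
        · rw [if_neg hij]
      have e2 : (fun T => G fun i => if i = j then b j T else if i ∈ S then b i T else a i T) =
          fun T => G fun i => if i ∈ insert j S then b i T else a i T := by
        funext T
        congr 1
        funext i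
        by_cases hij : i = j
        · subst hij
          rw [if_pos rfl, if_pos (Finset.mem_insert_self _ _)]
        · rw [if_neg hij]
          by_cases hiS : i ∈ S
          · rw [if_pos hiS, if_pos (Finset.mem_insert_of_mem hiS)]
          · rw [if_neg hiS, if_neg]
            rw [Finset.mem_insert]
            tauto
      rw [e1, e2] at h1
      have hc : (1 : ℝ) ≤ (M j).card := hm.trans (hMm j)
      have hcpos : (0 : ℝ) < (M j).card := by linarith
      have hsq : Real.sqrt (M j).card * Real.sqrt (M j).card = (M j).card := Real.mul_self_sqrt hcpos.le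
      have hsp : 0 < Real.sqrt (M j).card := Real.sqrt_pos.2 hcpos
      have hsm : 0 < Real.sqrt m := Real.sqrt_pos.2 (by linarith)
      have hsm2 : Real.sqrt m ≤ Real.sqrt (M j).card := Real.sqrt_le_sqrt (hMm j)
      have hE : 0 ≤ E := (abs_nonneg _).trans (he j)
      set D := |(av B fun T => G fun i => if i ∈ S then b i T else a i T) -
        av B fun T => G fun i => if i ∈ insert j S then b i T else a i T| with hD
      have h2 : D * Real.sqrt (M j).card ≤ |(e j : ℝ)| * 2 := by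
        have h3 : D * Real.sqrt (M j).card * Real.sqrt (M j).card ≤ |(e j : ℝ)| * 2 * Real.sqrt (M j).card := by
          rw [mul_assoc, hsq]
          linarith
        exact le_of_mul_le_mul_right h3 hsp
      have h3 : D ≤ 2 * E / Real.sqrt m := by
        rw [le_div_iff₀ hsm]
        have hD0 : 0 ≤ D := abs_nonneg _
        nlinarith [he j]
      rw [Finset.card_insert_of_notMem hj]
      push_cast
      have h4 := abs_sub_le (av B fun T => G fun i => a i T)
        (av B fun T => G fun i => if i ∈ S then b i T else a i T)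
        (av B fun T => G fun i => if i ∈ insert j S then b i T else a i T)
      rw [add_mul, one_mul]
      linarith
  have h1 := key Finset.univ
  simpa using h1

end Pool.Agent.Q163.AD
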