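import Pool.Agent.Q163.AD.Tv
import Pool.Agent.Q163.RX.Interp

/-!
# Masses of the blocks
-/

set_option autoImplicit false

namespace Pool.Agent.Q163.AD

open Finset MeasureTheory Filter Topology Pool.Agent.Q163.RX Pool.Agent.Q163.BC Pool.Agent.W208.TL

open Classical in
/-- the primes of `P` in `(u, y]` -/
noncomputable def bl (P : Set ℕ) (u y : ℕ) : Finset ℕ := (PP u y).filter fun p => p ∈ P

lemma bl_sub (P : Set ℕ) (u y : ℕ) : bl P u y ⊆ PP u y := by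
  classical
  unfold bl
  exact Finset.filter_subset _ _

lemma bl_mem (P : Set ℕ) (u y : ℕ) : ∀ p ∈ bl P u y, p ∈ P := by
  classical
  intro p hp
  unfold bl at hp
  exact (Finset.mem_filter.1 hp).2

theorem bl_mass (P : Set ℕ) (n A : ℕ) (hn : 1 ≤ n) (hA : 1 ≤ A) : ∃ C : ℝ, ∀ v : ℕ → ℕ, ∀ N y u : ℕ, 3 ≤ v N →
    u ≤ v N ^ n → 3 ≤ y → N < (y + 1) ^ A → mass P v N ≤ ∑ p ∈ bl P u y, (1 : ℝ) / p + C := by
  classical
  obtain ⟨C, hC, h⟩ := Pool.Agent.Q163.RP.mert_diff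
  refine ⟨(Real.log n + C) + (Real.log (2 * A : ℕ) + C), fun v N y u hv hu hy hN => ?_⟩
  have h1 := h (v N) n hv hn
  have h2 := h y (2 * A) hy (by omega)
  have hNy : N ≤ y ^ (2 * A) := by
    rw [pow_mul]
    refine hN.le.trans (Nat.pow_le_pow_left ?_ _)
    nlinarith
  have hsub : (Ioc (v N) N).filter (fun p => p.Prime ∧ p ∈ P) ⊆
      (bl P u y ∪ ((Icc 1 (v N ^ n)).filter Nat.Prime).filter (fun p => v N < p)) ∪
        ((Icc 1 (y ^ (2 * A))).filter Nat.Prime).filter (fun p => y < p) := by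
    intro p hp
    obtain ⟨h3, h4, h5⟩ := Finset.mem_filter.1 hp
    rw [Finset.mem_Ioc] at h3
    by_cases h6 : y < p
    · exact Finset.mem_union_right _ (Finset.mem_filter.2 ⟨Finset.mem_filter.2
        ⟨Finset.mem_Icc.2 ⟨h4.one_lt.le, h3.2.trans hNy⟩, h4⟩, h6⟩)
    · refine Finset.mem_union_left _ ?_
      by_cases h7 : u < p
      · exact Finset.mem_union_left _ (Finset.mem_filter.2 ⟨mem_PP.2 ⟨⟨h7, not_lt.1 h6⟩, h4⟩, h5⟩)
      · exact Finset.mem_union_right _ (Finset.mem_filter.2 ⟨Finset.mem_filter.2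
          ⟨Finset.mem_Icc.2 ⟨h4.one_lt.le, (not_lt.1 h7).trans hu⟩, h4⟩, h3.1⟩)
  have hnn : ∀ p : ℕ, (0 : ℝ) ≤ (1 : ℝ) / p := fun p => by positivity
  have e1 := Finset.sum_le_sum_of_subset_of_nonneg (f := fun p : ℕ => (1 : ℝ) / p) hsub
    (fun p _ _ => hnn p)
  have e0 : ∀ s t : Finset ℕ, ∑ p ∈ s ∪ t, (1 : ℝ) / p ≤ ∑ p ∈ s, (1 : ℝ) / p + ∑ p ∈ t, (1 : ℝ) / p := by
    intro s t
    have e2 := Finset.sum_union_inter (s₁ := s) (s₂ := t) (f := fun p : ℕ => (1 : ℝ) / p)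
    have e3 : 0 ≤ ∑ p ∈ s ∩ t, (1 : ℝ) / p := Finset.sum_nonneg fun p _ => hnn p
    linarith
  have e2 := e0 (bl P u y ∪ ((Icc 1 (v N ^ n)).filter Nat.Prime).filter (fun p => v N < p))
    (((Icc 1 (y ^ (2 * A))).filter Nat.Prime).filter (fun p => y < p))
  have e3 := e0 (bl P u y) (((Icc 1 (v N ^ n)).filter Nat.Prime).filter (fun p => v N < p))
  have m1 : mass P v N = ∑ p ∈ (Ioc (v N) N).filter (fun p => p.Prime ∧ p ∈ P), (1 : ℝ) / p := by
    unfold mass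
    congr
  rw [m1]
  linarith

/-- the logarithm -/
def lg (N : ℕ) : ℕ := Nat.log 2 N + 1

lemma log_le_lg {N : ℕ} (hN : 1 ≤ N) : Real.log N ≤ lg N := by
  have h1 : N < 2 ^ (Nat.log 2 N + 1) := Nat.lt_pow_succ_log_self (by norm_num) N
  have h2 : Real.log N ≤ Real.log ((2 : ℝ) ^ (Nat.log 2 N + 1)) := by
    refine Real.log_le_log (by exact_mod_cast hN) ?_
    exact_mod_cast h1.le
  rw [Real.log_pow] at h2
  have h3 : Real.log 2 ≤ 1 := by
    have := Real.log_two_lt_d9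
    linarith
  unfold lg
  refine h2.trans (mul_le_of_le_one_right (by positivity) h3)

lemma lg_le {N : ℕ} (hN : 21 ≤ N) : lg N ≤ ⌊Real.log N⌋₊ ^ 2 := by
  have hNr : (21 : ℝ) ≤ N := by exact_mod_cast hN
  have h3 : (3 : ℝ) ≤ Real.log N := by
    rw [Real.le_log_iff_exp_le (by linarith)]
    have h1 : Real.exp 3 = Real.exp 1 ^ 3 := by
      rw [← Real.exp_nat_mul]
      norm_num
    have h2 : Real.exp 1 < 2.7182818286 := Real.exp_one_lt_d9
    have h4 : Real.exp 1 ^ 3 < 2.7182818286 ^ 3 := pow_lt_pow_left₀ h2 (Real.exp_pos _).le (by norm_num)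
    rw [h1]
    norm_num at h4
    linarith
  have h4 : 3 ≤ ⌊Real.log N⌋₊ := Nat.le_floor (by exact_mod_cast h3)
  have h5 : (Nat.log 2 N : ℝ) * Real.log 2 ≤ Real.log N := by
    rw [← Real.log_pow]
    refine Real.log_le_log (by positivity) ?_
    exact_mod_cast Nat.pow_log_le_self 2 (by omega)
  have h6 : (0.69 : ℝ) < Real.log 2 := by
    have := Real.log_two_gt_d9
    linarith
  have h7 := Nat.lt_floor_add_one (Real.log N)
  set F := ⌊Real.log (N : ℝ)⌋₊ with hF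
  have h8 : (lg N : ℝ) ≤ F ^ 2 := by
    unfold lg
    push_cast
    have hFr : (3 : ℝ) ≤ F := by exact_mod_cast h4
    have h9 : (Nat.log 2 N : ℝ) * 0.69 ≤ F + 1 := by nlinarith [(Nat.cast_nonneg (Nat.log 2 N) : (0 : ℝ) ≤ _)]
    nlinarith
  exact_mod_cast h8

end Pool.Agent.Q163.AD
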