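import Pool.Agent.Q163.AD.Conc
import Pool.Agent.Q163.RP.Count

/-!
# Second moments
-/

set_option autoImplicit false

namespace Pool.Agent.Q163.AD

open Finset MeasureTheory Pool.Agent.Q163.RX Pool.Agent.Q163.BC Pool.Agent.W208.TL

lemma share {u y N : ℕ} (hu : 1 ≤ u) {B : Finset ℕ} (hB : B ⊆ PP u y) (M : ℕ → Finset ℕ) (hM : ∀ n, M n ⊆ B)
    {κ : ℝ} (hκ0 : 0 ≤ κ) (hκ : ∀ p ∈ B, (((Ioc 0 N).filter fun n => p ∈ M n).card : ℝ) ≤ κ * N / p) :
    ((((Ioc 0 N) ×ˢ (Ioc 0 N)).filter fun q => ¬ Disjoint (M q.1) (M q.2)).card : ℝ) ≤ κ ^ 2 * (N : ℝ) ^ 2 / u := by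
  classical
  have hsub : (((Ioc 0 N) ×ˢ (Ioc 0 N)).filter fun q => ¬ Disjoint (M q.1) (M q.2)) ⊆
      B.biUnion fun p => ((Ioc 0 N).filter fun n => p ∈ M n) ×ˢ ((Ioc 0 N).filter fun n => p ∈ M n) := by
    intro q hq
    obtain ⟨h1, h2⟩ := Finset.mem_filter.1 hq
    obtain ⟨h3, h4⟩ := Finset.mem_product.1 h1
    obtain ⟨p, h5, h6⟩ := Finset.not_disjoint_iff.1 h2
    exact Finset.mem_biUnion.2 ⟨p, hM _ h5, Finset.mem_product.2 ⟨Finset.mem_filter.2 ⟨h3, h5⟩,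
      Finset.mem_filter.2 ⟨h4, h6⟩⟩⟩
  have h1 : ((((Ioc 0 N) ×ˢ (Ioc 0 N)).filter fun q => ¬ Disjoint (M q.1) (M q.2)).card : ℝ) ≤
      ∑ p ∈ B, (((Ioc 0 N).filter fun n => p ∈ M n).card : ℝ) ^ 2 := by
    refine le_trans (Nat.cast_le.2 ((Finset.card_le_card hsub).trans Finset.card_biUnion_le)) ?_
    push_cast
    refine le_of_eq (Finset.sum_congr rfl fun p _ => ?_)
    rw [Finset.card_product]
    push_cast
    ring
  refine h1.trans ?_
  have h2 : ∀ p ∈ B, (((Ioc 0 N).filter fun n => p ∈ M n).card : ℝ) ^ 2 ≤ κ ^ 2 * (N : ℝ) ^ 2 * (1 / (p : ℝ) ^ 2) := by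
    intro p hp
    refine (pow_le_pow_left₀ (Nat.cast_nonneg _) (hκ p hp) 2).trans (le_of_eq ?_)
    rw [div_pow]
    ring
  refine (Finset.sum_le_sum h2).trans ?_
  rw [← Finset.mul_sum, div_eq_mul_one_div]
  refine mul_le_mul_of_nonneg_left ?_ (by positivity)
  refine (Finset.sum_le_sum_of_subset_of_nonneg hB fun p _ _ => by positivity).trans ?_
  exact Pool.Agent.W479.TLClaim.sum_inv_sq hu

/-- the total variation distance between the values and their average over the flips -/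
noncomputable def td {ι : Type*} [DecidableEq ι] (Λ : Finset ι) (B : Finset ℕ) (N : ℕ) (V : ℕ → (ℕ → Bool) → ι)
    (ω : ℕ → Bool) : ℝ :=
  ∑ ℓ ∈ Λ, |(∑ n ∈ Ioc 0 N, dv B (fun ω => if V n ω = ℓ then (1 : ℝ) else 0) ω) / N|

lemma meas_td {ι : Type*} [DecidableEq ι] (Λ : Finset ι) (B : Finset ℕ) (N : ℕ) (V : ℕ → (ℕ → Bool) → ι)
    (hm : ∀ n ℓ, Measurable fun ω => (if V n ω = ℓ then (1 : ℝ) else 0)) : Measurable (td Λ B N V) := by
  unfold td
  refine Finset.measurable_fun_sum _ fun ℓ _ => ?_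
  exact ((Finset.measurable_fun_sum _ fun n _ => meas_dv (hm n ℓ)).div_const _).abs

lemma td_nonneg {ι : Type*} [DecidableEq ι] (Λ : Finset ι) (B : Finset ℕ) (N : ℕ) (V : ℕ → (ℕ → Bool) → ι)
    (ω : ℕ → Bool) : 0 ≤ td Λ B N V ω := Finset.sum_nonneg fun _ _ => abs_nonneg _

lemma td_le {ι : Type*} [DecidableEq ι] (Λ : Finset ι) (B : Finset ℕ) (N : ℕ) (V : ℕ → (ℕ → Bool) → ι)
    (ω : ℕ → Bool) : td Λ B N V ω ≤ Λ.card * 2 := by
  unfold td
  rw [← nsmul_eq_mul, ← Finset.sum_const]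
  refine Finset.sum_le_sum fun ℓ _ => ?_
  rw [abs_div, abs_of_nonneg (Nat.cast_nonneg N : (0 : ℝ) ≤ N)]
  by_cases hN : N = 0
  · subst hN
    simp
  have hNr : (0 : ℝ) < N := by exact_mod_cast Nat.pos_of_ne_zero hN
  rw [div_le_iff₀ hNr]
  refine (Finset.abs_sum_le_sum_abs _ _).trans ?_
  have h1 : ∀ n ∈ Ioc 0 N, |dv B (fun ω => if V n ω = ℓ then (1 : ℝ) else 0) ω| ≤ 2 := fun n _ =>
    dv_bound (fun ω => by split_ifs <;> simp) ω
  refine (Finset.sum_le_sum h1).trans (le_of_eq ?_)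
  rw [Finset.sum_const, Nat.card_Ioc, nsmul_eq_mul, Nat.sub_zero]
  ring

theorem second_moment {ι : Type*} [DecidableEq ι] (Λ : Finset ι) {u y N : ℕ} (hu : 1 ≤ u) (hN : 1 ≤ N)
    {B : Finset ℕ} (hB : B ⊆ PP u y) (M : ℕ → Finset ℕ) (hM : ∀ n, M n ⊆ B) (V : ℕ → (ℕ → Bool) → ι)
    (hV : ∀ n ω (S : Finset ℕ), S ⊆ B → Disjoint S (M n) → V n (flS S ω) = V n ω)
    (hm : ∀ n ℓ, Measurable fun ω => (if V n ω = ℓ then (1 : ℝ) else 0))
    {κ : ℝ} (hκ0 : 0 ≤ κ) (hκ : ∀ p ∈ B, (((Ioc 0 N).filter fun n => p ∈ M n).card : ℝ) ≤ κ * N / p) :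
    ∫ ω, td Λ B N V ω ^ 2 ∂cm ≤ 4 * κ ^ 2 * Λ.card / u := by
  have hNr : (0 : ℝ) < N := by exact_mod_cast hN
  have h1 := conc Λ B (Ioc 0 N) M V hV hm
  have h2 := share hu hB M hM hκ0 hκ
  have h3 : ∀ ω, td Λ B N V ω ^ 2 ≤ Λ.card / (N : ℝ) ^ 2 *
      ∑ ℓ ∈ Λ, (∑ n ∈ Ioc 0 N, dv B (fun ω => if V n ω = ℓ then (1 : ℝ) else 0) ω) ^ 2 := by
    intro ω
    unfold td
    refine (sq_sum_le_card_mul_sum_sq (s := Λ)).trans (le_of_eq ?_)
    simp_rw [sq_abs, div_pow]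
    rw [← Finset.sum_div]
    ring
  have hbd : ∀ ω, |∑ ℓ ∈ Λ, (∑ n ∈ Ioc 0 N, dv B (fun ω => if V n ω = ℓ then (1 : ℝ) else 0) ω) ^ 2| ≤
      Λ.card * (2 * N) ^ 2 := by
    intro ω
    rw [abs_of_nonneg (Finset.sum_nonneg fun _ _ => sq_nonneg _), ← nsmul_eq_mul, ← Finset.sum_const]
    refine Finset.sum_le_sum fun ℓ _ => ?_
    rw [← sq_abs]
    refine pow_le_pow_left₀ (abs_nonneg _) ?_ 2
    refine (Finset.abs_sum_le_sum_abs _ _).trans ?_
    have h1 : ∀ n ∈ Ioc 0 N, |dv B (fun ω => if V n ω = ℓ then (1 : ℝ) else 0) ω| ≤ 2 := fun n _ =>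
      dv_bound (fun ω => by split_ifs <;> simp) ω
    refine (Finset.sum_le_sum h1).trans (le_of_eq ?_)
    rw [Finset.sum_const, Nat.card_Ioc, nsmul_eq_mul, Nat.sub_zero]
    ring
  have hms : Measurable fun ω => ∑ ℓ ∈ Λ, (∑ n ∈ Ioc 0 N, dv B (fun ω => if V n ω = ℓ then (1 : ℝ) else 0) ω) ^ 2 :=
    Finset.measurable_fun_sum _ fun ℓ _ => (Finset.measurable_fun_sum _ fun n _ => meas_dv (hm n ℓ)).pow_const 2
  have h4 : ∫ ω, td Λ B N V ω ^ 2 ∂cm ≤ Λ.card / (N : ℝ) ^ 2 *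
      ∫ ω, ∑ ℓ ∈ Λ, (∑ n ∈ Ioc 0 N, dv B (fun ω => if V n ω = ℓ then (1 : ℝ) else 0) ω) ^ 2 ∂cm := by
    rw [← integral_const_mul]
    refine integral_mono ?_ ((integrable_of hms hbd).const_mul _) h3
    refine integrable_of ((meas_td Λ B N V hm).pow_const 2) (C := (Λ.card * 2) ^ 2) fun ω => ?_
    rw [abs_pow, abs_of_nonneg (td_nonneg _ _ _ _ _)]
    exact pow_le_pow_left₀ (td_nonneg _ _ _ _ _) (td_le _ _ _ _ _) 2
  refine h4.trans ?_
  calc Λ.card / (N : ℝ) ^ 2 *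
      ∫ ω, ∑ ℓ ∈ Λ, (∑ n ∈ Ioc 0 N, dv B (fun ω => if V n ω = ℓ then (1 : ℝ) else 0) ω) ^ 2 ∂cm
      ≤ Λ.card / (N : ℝ) ^ 2 * (4 * (κ ^ 2 * (N : ℝ) ^ 2 / u)) :=
        mul_le_mul_of_nonneg_left (h1.trans (mul_le_mul_of_nonneg_left h2 (by norm_num))) (by positivity)
    _ = 4 * κ ^ 2 * Λ.card / u := by
        have hur : (0 : ℝ) < u := by exact_mod_cast hu
        field_simp

/-- the values at the forms -/
noncomputable def vv (h : ℕ → ℤ) (P : Set ℕ) {k : ℕ} (α β : Fin k → ℕ) (n : ℕ) (ω : ℕ → Bool) : Fin k → ℤ :=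
  fun i => rf h P ω (α i * n + β i)

lemma meas_vv (h : ℕ → ℤ) (P : Set ℕ) {k : ℕ} (α β : Fin k → ℕ) (n : ℕ) (ℓ : Fin k → ℤ) :
    Measurable fun ω => (if vv h P α β n ω = ℓ then (1 : ℝ) else 0) := by
  refine Measurable.ite ?_ measurable_const measurable_const
  have h1 : Measurable (vv h P α β n) := measurable_pi_lambda _ fun i => meas_rf h P _
  exact h1 (measurableSet_singleton ℓ)

lemma meas_v1 (h : ℕ → ℤ) (P : Set ℕ) (n : ℕ) (x : ℤ) :
    Measurable fun ω => (if rf h P ω n = x then (1 : ℝ) else 0) := by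
  refine Measurable.ite ?_ measurable_const measurable_const
  exact meas_rf h P n (measurableSet_singleton x)

theorem moment_forms (h : ℕ → ℤ) (P : Set ℕ) {k c : ℕ} {α β : Fin k → ℕ} (hα : ∀ i, 1 ≤ α i)
    (hc : ∀ i, α i + β i ≤ c) {u y N : ℕ} (hu : 1 ≤ u) (hcu : c ≤ u) (hN : 1 ≤ N) (hyN : y ≤ N) {B : Finset ℕ}
    (hB : B ⊆ PP u y) (Λ : Finset (Fin k → ℤ)) :
    ∫ ω, td Λ B N (vv h P α β) ω ^ 2 ∂cm ≤ 16 * k ^ 2 * Λ.card / u := by
  classical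
  have h1 := second_moment Λ hu hN hB (fun n => B.filter fun p => ∃ i, p ∣ α i * n + β i)
    (fun n => Finset.filter_subset _ _) (vv h P α β) (fun n ω S hS hd => ?_) (meas_vv h P α β) (κ := 2 * k)
    (by positivity) (fun p hp => ?_)
  · refine h1.trans (le_of_eq ?_)
    ring
  · funext i
    refine rf_fl_none h P ω fun p hp hpS => ?_
    exact Finset.disjoint_left.1 hd hpS (Finset.mem_filter.2 ⟨hS hpS, i, Nat.dvd_of_mem_primeFactors hp⟩)
  · obtain ⟨⟨hpu, hpy⟩, hpp⟩ := mem_PP.1 (hB hp)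
    have hpr : (0 : ℝ) < p := by exact_mod_cast hpp.pos
    have hpN : (1 : ℝ) ≤ N / p := by
      rw [le_div_iff₀ hpr, one_mul]
      exact_mod_cast hpy.trans hyN
    have h2 : ((Ioc 0 N).filter fun n => p ∈ B.filter fun p => ∃ i, p ∣ α i * n + β i) ⊆
        Finset.univ.biUnion fun i => (Icc 1 N).filter fun n => p ∣ α i * n + β i := by
      intro n hn
      obtain ⟨h3, h4⟩ := Finset.mem_filter.1 hn
      obtain ⟨_, i, h5⟩ := Finset.mem_filter.1 h4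
      exact Finset.mem_biUnion.2 ⟨i, Finset.mem_univ _, Finset.mem_filter.2 ⟨h3, h5⟩⟩
    have h3 : (((Ioc 0 N).filter fun n => p ∈ B.filter fun p => ∃ i, p ∣ α i * n + β i).card : ℝ) ≤
        ∑ i : Fin k, (((Icc 1 N).filter fun n => p ∣ α i * n + β i).card : ℝ) := by
      exact_mod_cast (Finset.card_le_card h2).trans Finset.card_biUnion_le
    refine h3.trans ?_
    have h4 : ∀ i : Fin k, (((Icc 1 N).filter fun n => p ∣ α i * n + β i).card : ℝ) ≤ 2 * (N / p) := by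
      intro i
      have hcop : Nat.Coprime (α i) p := by
        rw [Nat.coprime_comm, Nat.Prime.coprime_iff_not_dvd hpp]
        intro hd
        have h5 := Nat.le_of_dvd (hα i) hd
        have h6 := hc i
        omega
      have h5 := (abs_le.1 (Pool.Agent.Q163.RP.card_dvd N p (α i) (β i) hpp.pos hcop)).2
      linarith
    refine (Finset.sum_le_sum fun i _ => h4 i).trans (le_of_eq ?_)
    rw [Finset.sum_const, Finset.card_univ, Fintype.card_fin, nsmul_eq_mul]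
    ring

theorem moment_id (h : ℕ → ℤ) (P : Set ℕ) {u y N : ℕ} (hu : 1 ≤ u) (hN : 1 ≤ N) (hyN : y ≤ N) {B : Finset ℕ}
    (hB : B ⊆ PP u y) (Λ : Finset ℤ) :
    ∫ ω, td Λ B N (fun n ω => rf h P ω n) ω ^ 2 ∂cm ≤ 16 * Λ.card / u := by
  classical
  have h1 := second_moment Λ hu hN hB (fun n => B.filter fun p => p ∣ n)
    (fun n => Finset.filter_subset _ _) (fun n ω => rf h P ω n) (fun n ω S hS hd => ?_) (meas_v1 h P) (κ := 2)
    (by norm_num) (fun p hp => ?_)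
  · refine h1.trans (le_of_eq ?_)
    ring
  · refine rf_fl_none h P ω fun p hp hpS => ?_
    exact Finset.disjoint_left.1 hd hpS (Finset.mem_filter.2 ⟨hS hpS, Nat.dvd_of_mem_primeFactors hp⟩)
  · obtain ⟨⟨hpu, hpy⟩, hpp⟩ := mem_PP.1 (hB hp)
    have hpr : (0 : ℝ) < p := by exact_mod_cast hpp.pos
    have hpN : (1 : ℝ) ≤ N / p := by
      rw [le_div_iff₀ hpr, one_mul]
      exact_mod_cast hpy.trans hyN
    have h2 : ((Ioc 0 N).filter fun n => p ∈ B.filter fun p => p ∣ n) ⊆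
        (Icc 1 N).filter fun n => p ∣ 1 * n + 0 := by
      intro n hn
      obtain ⟨h3, h4⟩ := Finset.mem_filter.1 hn
      obtain ⟨_, h5⟩ := Finset.mem_filter.1 h4
      exact Finset.mem_filter.2 ⟨h3, by rwa [one_mul, add_zero]⟩
    have h3 : (((Ioc 0 N).filter fun n => p ∈ B.filter fun p => p ∣ n).card : ℝ) ≤
        (((Icc 1 N).filter fun n => p ∣ 1 * n + 0).card : ℝ) := by
      exact_mod_cast Finset.card_le_card h2
    refine h3.trans ?_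
    have h5 := (abs_le.1 (Pool.Agent.Q163.RP.card_dvd N p 1 0 hpp.pos (Nat.coprime_one_left p))).2
    rw [mul_div_assoc]
    linarith

end Pool.Agent.Q163.AD
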