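import Pool.Agent.Q163.AD.Add
import Pool.Agent.W208.TL.Basic
import Pool.Agent.W975.TLTail

/-!
# Parts of an integer
-/

set_option autoImplicit false

namespace Pool.Agent.Q163.AD

open Finset Pool.Agent.Q163.RX Pool.Agent.Q163.BC Pool.Agent.W208.TL

lemma fact_sm (w y n l : ℕ) : (sm w y n).factorization l = if l ∈ PP w y then n.factorization l else 0 := by
  unfold sm
  rw [Nat.factorization_prod (fun m hm => pow_ne_zero _ (mem_PP.1 hm).2.ne_zero)]
  rw [Finsupp.finsetSum_apply]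
  have h1 : ∀ m ∈ PP w y, (m ^ n.factorization m).factorization l = if l = m then n.factorization l else 0 := by
    intro m hm
    rw [Nat.Prime.factorization_pow (mem_PP.1 hm).2]
    by_cases h : l = m
    · subst h
      simp
    · rw [if_neg h, Finsupp.single_eq_of_ne h]
  rw [Finset.sum_congr rfl h1, Finset.sum_ite_eq]

lemma sm_ne (w y n : ℕ) : sm w y n ≠ 0 := by
  have := Pool.Agent.W975.TL.sm_pos w y n
  omega

lemma sm_dvd (w y : ℕ) {n : ℕ} (hn : n ≠ 0) : sm w y n ∣ n := by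
  rw [← Nat.factorization_le_iff_dvd (sm_ne _ _ _) hn]
  intro l
  rw [fact_sm]
  split_ifs
  · exact le_rfl
  · exact Nat.zero_le _

/-- the part outside of the primes in `(w, y]` -/
noncomputable def rest (w y n : ℕ) : ℕ := sm 0 w n * (n / sm 0 y n)

lemma div_ne {y n : ℕ} (hn : n ≠ 0) : n / sm 0 y n ≠ 0 := by
  have h1 := sm_dvd 0 y hn
  intro h
  have h2 := Nat.mul_div_cancel' h1
  rw [h, mul_zero] at h2
  exact hn h2.symm

lemma rest_ne {w y n : ℕ} (hn : n ≠ 0) : rest w y n ≠ 0 := mul_ne_zero (sm_ne _ _ _) (div_ne hn)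

lemma split_rest {w y n : ℕ} (hwy : w ≤ y) (hn : n ≠ 0) : n = sm w y n * rest w y n := by
  unfold rest
  have h1 := Nat.mul_div_cancel' (sm_dvd 0 y hn)
  rw [sm_split hwy] at h1
  rw [← mul_assoc, mul_comm (sm w y n), sm_split hwy]
  exact h1.symm

lemma rest_fact {w y n : ℕ} (hwy : w ≤ y) (hn : n ≠ 0) {l : ℕ} (hl : l ∈ PP w y) : (rest w y n).factorization l = 0 := by
  have h1 : n.factorization l = (sm w y n).factorization l + (rest w y n).factorization l := by
    conv_lhs => rw [split_rest hwy hn]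
    rw [Nat.factorization_mul (sm_ne _ _ _) (rest_ne hn), Finsupp.add_apply]
  rw [fact_sm, if_pos hl] at h1
  omega

lemma div_fact {y n : ℕ} (hn : n ≠ 0) (l : ℕ) :
    (n / sm 0 y n).factorization l = if l ∈ PP 0 y then 0 else n.factorization l := by
  have h1 : n.factorization l = (sm 0 y n).factorization l + (n / sm 0 y n).factorization l := by
    conv_lhs => rw [← Nat.mul_div_cancel' (sm_dvd 0 y hn)]
    rw [Nat.factorization_mul (sm_ne _ _ _) (div_ne hn), Finsupp.add_apply]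
  rw [fact_sm] at h1
  split_ifs at h1 ⊢ <;> omega

/-- the number of large prime factors -/
lemma om_div {y n A : ℕ} (hy : 2 ≤ y) (hn : n ≠ 0) (hA : n ≤ y ^ A) : om (n / sm 0 y n) ≤ A := by
  have h1 : y ^ om (n / sm 0 y n) ≤ n / sm 0 y n := by
    refine pow_om_le (div_ne hn) fun p hp => ?_
    have h2 : (n / sm 0 y n).factorization p ≠ 0 := by
      rw [← Nat.support_factorization, Finsupp.mem_support_iff] at hp
      exact hp
    have hpp := Nat.prime_of_mem_primeFactors hp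
    by_contra hcon
    push Not at hcon
    apply h2
    rw [div_fact hn, if_pos (mem_PP.2 ⟨⟨hpp.pos, hcon.le⟩, hpp⟩)]
  have h2 : n / sm 0 y n ≤ n := Nat.div_le_self _ _
  exact (Nat.pow_le_pow_iff_right (by omega : 1 < y)).1 (h1.trans (h2.trans hA))

lemma om_sm {w n L : ℕ} (h : sm 0 w n ≤ 2 ^ L) : om (sm 0 w n) ≤ L := by
  have h1 := two_pow_om_le (sm_ne 0 w n)
  exact (Nat.pow_le_pow_iff_right (by omega : 1 < 2)).1 (h1.trans h)

lemma om_rest {w y n A L : ℕ} (hy : 2 ≤ y) (hn : n ≠ 0) (hA : n ≤ y ^ A) (h : sm 0 w n ≤ 2 ^ L) :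
    om (rest w y n) ≤ L + A := by
  unfold rest
  rw [om_mul (sm_ne _ _ _) (div_ne hn)]
  exact add_le_add (om_sm h) (om_div hy hn hA)

lemma om_dvd {m n : ℕ} (hn : n ≠ 0) (h : m ∣ n) : om m ≤ om n := by
  obtain ⟨c, rfl⟩ := h
  have h1 : m ≠ 0 := left_ne_zero_of_mul hn
  have h2 : c ≠ 0 := right_ne_zero_of_mul hn
  rw [om_mul h1 h2]
  omega

end Pool.Agent.Q163.AD
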