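import Pool.Agent.Q163.AD.Share

/-!
# Total variation
-/

set_option autoImplicit false

namespace Pool.Agent.Q163.AD

open Finset MeasureTheory Pool.Agent.Q163.RX Pool.Agent.Q163.BC Pool.Agent.W208.TL

lemma prod_tv {k : ℕ} (I : Finset ℤ) (a b : ℤ → ℝ) (ha : ∀ x, 0 ≤ a x) (hb : ∀ x, 0 ≤ b x)
    (ha2 : ∑ x ∈ I, a x ≤ 2) (hb2 : ∑ x ∈ I, b x ≤ 2) :
    ∑ ℓ ∈ Fintype.piFinset (fun _ : Fin k => I), |∏ i, a (ℓ i) - ∏ i, b (ℓ i)| ≤
      k * 2 ^ k * ∑ x ∈ I, |a x - b x| := by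
  classical
  have hδ0 : 0 ≤ ∑ x ∈ I, |a x - b x| := Finset.sum_nonneg fun _ _ => abs_nonneg _
  have key : ∀ S : Finset (Fin k), ∑ ℓ ∈ Fintype.piFinset (fun _ : Fin k => I),
      |∏ i, a (ℓ i) - ∏ i, (if i ∈ S then b (ℓ i) else a (ℓ i))| ≤ S.card * (2 ^ k * ∑ x ∈ I, |a x - b x|) := by
    intro S
    induction S using Finset.induction_on with
    | empty => simp
    | insert j S hj ih =>
      have h1 : ∀ ℓ : Fin k → ℤ, ∏ i, (if i ∈ S then b (ℓ i) else a (ℓ i)) -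
          ∏ i, (if i ∈ insert j S then b (ℓ i) else a (ℓ i)) =
          (a (ℓ j) - b (ℓ j)) * ∏ i ∈ Finset.univ.erase j, (if i ∈ S then b (ℓ i) else a (ℓ i)) := by
        intro ℓ
        rw [← Finset.mul_prod_erase _ _ (Finset.mem_univ j), ← Finset.mul_prod_erase Finset.univ
          (fun i => if i ∈ insert j S then b (ℓ i) else a (ℓ i)) (Finset.mem_univ j), if_neg hj,
          if_pos (Finset.mem_insert_self _ _)]
        have h2 : ∏ i ∈ Finset.univ.erase j, (if i ∈ insert j S then b (ℓ i) else a (ℓ i)) =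
            ∏ i ∈ Finset.univ.erase j, (if i ∈ S then b (ℓ i) else a (ℓ i)) := by
          refine Finset.prod_congr rfl fun i hi => ?_
          have h3 := Finset.ne_of_mem_erase hi
          by_cases h4 : i ∈ S
          · rw [if_pos h4, if_pos (Finset.mem_insert_of_mem h4)]
          · rw [if_neg h4, if_neg]
            rw [Finset.mem_insert]
            tauto
        rw [h2]
        ring
      have h2 : ∀ ℓ : Fin k → ℤ, |∏ i, (if i ∈ S then b (ℓ i) else a (ℓ i)) -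
          ∏ i, (if i ∈ insert j S then b (ℓ i) else a (ℓ i))| =
          ∏ i, (if i = j then |a (ℓ i) - b (ℓ i)| else if i ∈ S then b (ℓ i) else a (ℓ i)) := by
        intro ℓ
        have h5 : 0 ≤ ∏ i ∈ Finset.univ.erase j, (if i ∈ S then b (ℓ i) else a (ℓ i)) :=
          Finset.prod_nonneg fun i _ => by
            split_ifs
            exacts [hb _, ha _]
        rw [h1, abs_mul, abs_of_nonneg h5,
          ← Finset.mul_prod_erase Finset.univ
          (fun i => if i = j then |a (ℓ i) - b (ℓ i)| else if i ∈ S then b (ℓ i) else a (ℓ i)) (Finset.mem_univ j),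
          if_pos rfl]
        congr 1
        refine Finset.prod_congr rfl fun i hi => ?_
        rw [if_neg (Finset.ne_of_mem_erase hi)]
      have h3 : ∑ ℓ ∈ Fintype.piFinset (fun _ : Fin k => I), |∏ i, (if i ∈ S then b (ℓ i) else a (ℓ i)) -
          ∏ i, (if i ∈ insert j S then b (ℓ i) else a (ℓ i))| ≤ 2 ^ k * ∑ x ∈ I, |a x - b x| := by
        simp_rw [h2]
        rw [← Finset.prod_univ_sum (fun _ : Fin k => I)
          (fun i x => if i = j then |a x - b x| else if i ∈ S then b x else a x)]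
        rw [← Finset.mul_prod_erase _ _ (Finset.mem_univ j)]
        simp only [if_true]
        have h4 : ∏ i ∈ Finset.univ.erase j, ∑ x ∈ I, (if i = j then |a x - b x| else if i ∈ S then b x else a x) ≤
            2 ^ k := by
          calc ∏ i ∈ Finset.univ.erase j, ∑ x ∈ I, (if i = j then |a x - b x| else if i ∈ S then b x else a x)
              ≤ ∏ _i ∈ Finset.univ.erase j, (2 : ℝ) := by
                refine Finset.prod_le_prod (fun i _ => Finset.sum_nonneg fun x _ => ?_) fun i hi => ?_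
                · split_ifs
                  exacts [abs_nonneg _, hb _, ha _]
                · rw [Finset.sum_congr rfl fun x _ => if_neg (Finset.ne_of_mem_erase hi)]
                  by_cases h5 : i ∈ S
                  · simp only [h5, if_true]
                    exact hb2
                  · simp only [h5, if_false]
                    exact ha2
            _ = 2 ^ (k - 1) := by
                rw [Finset.prod_const, Finset.card_erase_of_mem (Finset.mem_univ j), Finset.card_univ,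
                  Fintype.card_fin]
            _ ≤ 2 ^ k := pow_le_pow_right₀ (by norm_num) (by omega)
        rw [mul_comm]
        exact mul_le_mul_of_nonneg_right h4 hδ0
      have h4 : ∀ ℓ : Fin k → ℤ, |∏ i, a (ℓ i) - ∏ i, (if i ∈ insert j S then b (ℓ i) else a (ℓ i))| ≤
          |∏ i, a (ℓ i) - ∏ i, (if i ∈ S then b (ℓ i) else a (ℓ i))| +
          |∏ i, (if i ∈ S then b (ℓ i) else a (ℓ i)) - ∏ i, (if i ∈ insert j S then b (ℓ i) else a (ℓ i))| :=
        fun ℓ => abs_sub_le _ _ _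
      refine (Finset.sum_le_sum fun ℓ _ => h4 ℓ).trans ?_
      rw [Finset.sum_add_distrib, Finset.card_insert_of_notMem hj]
      push_cast
      rw [add_mul, one_mul]
      linarith
  have h1 := key Finset.univ
  simp only [Finset.mem_univ, if_true, Finset.card_univ, Fintype.card_fin] at h1
  rw [mul_assoc]
  exact h1

lemma avf_sum {ι : Type*} [DecidableEq ι] (Λ : Finset ι) (B : Finset ℕ) (N : ℕ) (V : ℕ → (ℕ → Bool) → ι)
    (ω : ℕ → Bool) (hΛ : ∀ n ∈ Ioc 0 N, ∀ T : Finset ℕ, V n (flS T ω) ∈ Λ) (G : ι → ℝ) :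
    ∑ ℓ ∈ Λ, G ℓ * ((∑ n ∈ Ioc 0 N, av B fun T => if V n (flS T ω) = ℓ then (1 : ℝ) else 0) / N) =
      av B fun T => (∑ n ∈ Ioc 0 N, G (V n (flS T ω))) / N := by
  have e1 : ∀ ℓ ∈ Λ, G ℓ * ((∑ n ∈ Ioc 0 N, av B fun T => if V n (flS T ω) = ℓ then (1 : ℝ) else 0) / N) =
      av B fun T => (∑ n ∈ Ioc 0 N, G ℓ * if V n (flS T ω) = ℓ then (1 : ℝ) else 0) / N := by
    intro ℓ _
    rw [av_div, av_sum, ← mul_div_assoc, Finset.mul_sum]
    congr 1
    exact Finset.sum_congr rfl fun n _ => (av_mul_left _ _ _).symm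
  rw [Finset.sum_congr rfl e1, ← av_sum]
  refine av_congr fun T _ => ?_
  rw [← Finset.sum_div, Finset.sum_comm]
  congr 1
  refine Finset.sum_congr rfl fun n hn => ?_
  rw [Finset.sum_eq_single (V n (flS T ω))]
  · simp
  · intro ℓ _ hℓ
    rw [if_neg hℓ.symm, mul_zero]
  · intro h
    exact absurd (hΛ n hn T) h

lemma tv_step {ι : Type*} [DecidableEq ι] (Λ : Finset ι) (B : Finset ℕ) (N : ℕ) (V : ℕ → (ℕ → Bool) → ι)
    (ω : ℕ → Bool) (hΛ : ∀ n ∈ Ioc 0 N, ∀ T : Finset ℕ, V n (flS T ω) ∈ Λ) (q : ι → ℝ) {η : ℝ}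
    (hq : ∀ G : ι → ℝ, (∀ ℓ, |G ℓ| ≤ 1) →
      |(av B fun T => (∑ n ∈ Ioc 0 N, G (V n (flS T ω))) / N) - ∑ ℓ ∈ Λ, G ℓ * q ℓ| ≤ η) :
    ∑ ℓ ∈ Λ, |(((Ioc 0 N).filter fun n => V n ω = ℓ).card : ℝ) / N - q ℓ| ≤ td Λ B N V ω + η := by
  classical
  set a : ι → ℝ := fun ℓ => (∑ n ∈ Ioc 0 N, av B fun T => if V n (flS T ω) = ℓ then (1 : ℝ) else 0) / N with ha
  have h1 : ∑ ℓ ∈ Λ, |a ℓ - q ℓ| ≤ η := by
    have h2 := hq (fun ℓ => if 0 ≤ a ℓ - q ℓ then 1 else -1) (fun ℓ => by split_ifs <;> simp)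
    rw [← avf_sum Λ B N V ω hΛ (fun ℓ => if 0 ≤ a ℓ - q ℓ then 1 else -1), ← Finset.sum_sub_distrib] at h2
    refine le_trans (le_of_eq ?_) ((le_abs_self _).trans h2)
    refine Finset.sum_congr rfl fun ℓ _ => ?_
    rw [← mul_sub]
    show |a ℓ - q ℓ| = (if 0 ≤ a ℓ - q ℓ then 1 else -1) * (a ℓ - q ℓ)
    by_cases h3 : 0 ≤ a ℓ - q ℓ
    · rw [if_pos h3, abs_of_nonneg h3, one_mul]
    · rw [if_neg h3, abs_of_neg (not_le.1 h3)]
      ring
  have h2 : ∑ ℓ ∈ Λ, |(((Ioc 0 N).filter fun n => V n ω = ℓ).card : ℝ) / N - a ℓ| = td Λ B N V ω := by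
    unfold td dv
    refine Finset.sum_congr rfl fun ℓ _ => ?_
    congr 1
    rw [Finset.sum_sub_distrib, sub_div]
    congr 2
    rw [← Finset.sum_filter, Finset.sum_const, nsmul_eq_mul, mul_one]
  have h3 : ∀ ℓ ∈ Λ, |(((Ioc 0 N).filter fun n => V n ω = ℓ).card : ℝ) / N - q ℓ| ≤
      |(((Ioc 0 N).filter fun n => V n ω = ℓ).card : ℝ) / N - a ℓ| + |a ℓ - q ℓ| := fun ℓ _ => abs_sub_le _ _ _
  refine (Finset.sum_le_sum h3).trans ?_
  rw [Finset.sum_add_distrib, h2]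
  linarith

/-- the proportion of the `n ≤ N` at which the values of `f` at the forms are `ℓ` -/
noncomputable def freq (f : ℕ → ℤ) {k : ℕ} (α β : Fin k → ℕ) (N : ℕ) (ℓ : Fin k → ℤ) : ℝ :=
  (((Ioc 0 N).filter fun n => ∀ i, f (α i * n + β i) = ℓ i).card : ℝ) / N

/-- the proportion of the `n ≤ N` with `f n = x` -/
noncomputable def freq1 (f : ℕ → ℤ) (N : ℕ) (x : ℤ) : ℝ :=
  (((Ioc 0 N).filter fun n => f n = x).card : ℝ) / N

lemma freq1_sum (f : ℕ → ℤ) (N : ℕ) (I : Finset ℤ) : ∑ x ∈ I, freq1 f N x ≤ 1 := by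
  classical
  unfold freq1
  rw [← Finset.sum_div]
  by_cases hN : N = 0
  · subst hN
    simp
  have hNr : (0 : ℝ) < N := by exact_mod_cast Nat.pos_of_ne_zero hN
  rw [div_le_one hNr]
  have h1 : ∑ x ∈ I, ((Ioc 0 N).filter fun n => f n = x).card ≤ (Ioc 0 N).card := by
    rw [← Finset.card_biUnion]
    · exact Finset.card_le_card (Finset.biUnion_subset.2 fun x _ => Finset.filter_subset _ _)
    · intro x _ x' _ hxx
      rw [Function.onFun, Finset.disjoint_left]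
      intro n h1 h2
      exact hxx ((Finset.mem_filter.1 h1).2.symm.trans (Finset.mem_filter.1 h2).2)
  rw [Nat.card_Ioc, Nat.sub_zero] at h1
  exact_mod_cast h1

theorem dist_le {k : ℕ} (h : ℕ → ℤ) (P : Set ℕ) (α β : Fin k → ℕ) (hα : ∀ i, 1 ≤ α i) {c : ℕ} (hc : ∀ i, α i + β i ≤ c)
    (hc1 : 1 ≤ c) {η : ℝ} (hη1 : η ≤ 1) (B : Finset ℕ) (N : ℕ) (I : Finset ℤ) (ω : ℕ → Bool)
    (hI : ∀ m, m ≠ 0 → m ≤ c * N → ∀ T : Finset ℕ, rf h P (flS T ω) m ∈ I) (lam : ℤ → ℝ) (hl0 : ∀ x, 0 ≤ lam x)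
    (hl1 : ∑ x ∈ I, lam x ≤ 1 + η)
    (h1 : ∀ G : (Fin k → ℤ) → ℝ, (∀ ℓ, |G ℓ| ≤ 1) →
          |(av B fun T => (∑ n ∈ Ioc 0 N, G fun i => rf h P (flS T ω) (α i * n + β i)) / N) -
            ∑ ℓ ∈ Fintype.piFinset (fun _ : Fin k => I), G ℓ * ∏ i, lam (ℓ i)| ≤ η)
    (h2 : ∀ g : ℤ → ℝ, (∀ x, |g x| ≤ 1) →
          |(av B fun T => (∑ n ∈ Ioc 0 N, g (rf h P (flS T ω) n)) / N) - ∑ x ∈ I, g x * lam x| ≤ η) :
    ∑ ℓ ∈ Fintype.piFinset (fun _ : Fin k => I), |freq (rf h P ω) α β N ℓ - ∏ i, freq1 (rf h P ω) N (ℓ i)| ≤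
      td (Fintype.piFinset (fun _ : Fin k => I)) B N (vv h P α β) ω +
        k * 2 ^ k * td I B N (fun n ω => rf h P ω n) ω + (1 + k * 2 ^ k) * η := by
  classical
  have hΛ : ∀ n ∈ Ioc 0 N, ∀ T : Finset ℕ, vv h P α β n (flS T ω) ∈ Fintype.piFinset (fun _ : Fin k => I) := by
    intro n hn T
    have hn1 := Finset.mem_Ioc.1 hn
    refine Fintype.mem_piFinset.2 fun i => hI _ ?_ ?_ T
    · have : 1 * 1 ≤ α i * n := Nat.mul_le_mul (hα i) hn1.1
      omega
    · calc α i * n + β i ≤ α i * n + β i * n := by nlinarith [hn1.1]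
        _ = (α i + β i) * n := by ring
        _ ≤ c * N := Nat.mul_le_mul (hc i) hn1.2
  have hΛ1 : ∀ n ∈ Ioc 0 N, ∀ T : Finset ℕ, rf h P (flS T ω) n ∈ I := by
    intro n hn T
    have hn1 := Finset.mem_Ioc.1 hn
    exact hI n (by omega) (by nlinarith [hn1.2]) T
  have h3 := tv_step (Fintype.piFinset (fun _ : Fin k => I)) B N (vv h P α β) ω hΛ (fun ℓ => ∏ i, lam (ℓ i)) h1
  have h4 := tv_step I B N (fun n ω => rf h P ω n) ω hΛ1 lam h2
  have h5 := prod_tv (k := k) I lam (freq1 (rf h P ω) N) hl0 (fun x => by unfold freq1; positivity)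
    (by linarith) (by linarith [freq1_sum (rf h P ω) N I])
  have h6 : ∀ ℓ : Fin k → ℤ, freq (rf h P ω) α β N ℓ =
      (((Ioc 0 N).filter fun n => vv h P α β n ω = ℓ).card : ℝ) / N := by
    intro ℓ
    unfold freq vv
    congr 3
    refine Finset.filter_congr fun n _ => ?_
    rw [funext_iff]
  have h7 : ∑ x ∈ I, |lam x - freq1 (rf h P ω) N x| ≤ td I B N (fun n ω => rf h P ω n) ω + η := by
    refine le_trans (le_of_eq ?_) h4
    refine Finset.sum_congr rfl fun x _ => ?_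
    rw [abs_sub_comm]
    rfl
  have h8 : ∀ ℓ ∈ Fintype.piFinset (fun _ : Fin k => I),
      |freq (rf h P ω) α β N ℓ - ∏ i, freq1 (rf h P ω) N (ℓ i)| ≤
      |(((Ioc 0 N).filter fun n => vv h P α β n ω = ℓ).card : ℝ) / N - ∏ i, lam (ℓ i)| +
        |∏ i, lam (ℓ i) - ∏ i, freq1 (rf h P ω) N (ℓ i)| := by
    intro ℓ _
    rw [h6]
    exact abs_sub_le _ _ _
  refine (Finset.sum_le_sum h8).trans ?_
  rw [Finset.sum_add_distrib]
  have h9 : (k : ℝ) * 2 ^ k * ∑ x ∈ I, |lam x - freq1 (rf h P ω) N x| ≤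
      k * 2 ^ k * (td I B N (fun n ω => rf h P ω n) ω + η) := mul_le_mul_of_nonneg_left h7 (by positivity)
  linarith

end Pool.Agent.Q163.AD
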